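import Pool.Agent.R830.OIM.Res

/-!
Existence of minimal graded free resolutions.
-/

namespace Pool.Agent.R830.OIM

open MvPolynomial

universe u

variable {K : Type u} [Field K] {σ : Type}

section

variable {N : Type u} [AddCommGroup N] [Module (MvPolynomial σ K) N]

/-- There is a homogeneous surjection from a free module of rank `b`. -/
def HasCover (G : Gr K σ N) (b : ℕ) : Prop :=
  ∃ (sh : Fin b → ℤ) (π : (Fin b → MvPolynomial σ K) →ₗ[MvPolynomial σ K] N),
    Function.Surjective π ∧ ∀ k, G.pr (sh k) (π (Pi.single k 1)) = π (Pi.single k 1)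

lemma exists_hasCover (G : Gr K σ N) [Module.Finite (MvPolynomial σ K) N] :
    ∃ b, HasCover G b := by
  classical
  obtain ⟨S, hS⟩ := Module.Finite.fg_top (R := MvPolynomial σ K) (M := N)
  choose D hD using G.fin
  let ι := Σ u : S, D (u : N)
  let e : Fin (Fintype.card ι) ≃ ι := (Fintype.equivFin ι).symm
  let v : Fin (Fintype.card ι) → N := fun k => G.pr ((e k).2 : ℤ) ((e k).1 : N)
  refine ⟨Fintype.card ι, fun k => ((e k).2 : ℤ), Fintype.linearCombination _ v, ?_, ?_⟩
  · rw [← LinearMap.range_eq_top, Fintype.range_linearCombination, eq_top_iff, ← hS,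
      Submodule.span_le]
    intro u hu
    rw [SetLike.mem_coe, hD u]
    refine Submodule.sum_mem _ fun d hd => Submodule.subset_span ?_
    refine ⟨e.symm ⟨⟨u, hu⟩, ⟨d, hd⟩⟩, ?_⟩
    change G.pr ((e (e.symm ⟨⟨u, hu⟩, ⟨d, hd⟩⟩)).2 : ℤ) ((e (e.symm ⟨⟨u, hu⟩, ⟨d, hd⟩⟩)).1 : N) = _
    rw [e.apply_symm_apply]
  · intro k
    rw [Fintype.linearCombination_apply_single, one_smul]
    exact G.pr_pr _ _

lemma exists_cover (G : Gr K σ N) [Module.Finite (MvPolynomial σ K) N] :
    ∃ (b : ℕ) (sh : Fin b → ℤ) (π : (Fin b → MvPolynomial σ K) →ₗ[MvPolynomial σ K] N),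
      Function.Surjective π ∧ (∀ k, G.pr (sh k) (π (Pi.single k 1)) = π (Pi.single k 1)) ∧
      ∀ z, π z = 0 → ∀ k, constantCoeff (z k) = 0 := by
  classical
  have hex := exists_hasCover G
  obtain ⟨b, hb, hlt⟩ : ∃ b, HasCover G b ∧ ∀ m, m < b → ¬ HasCover G m :=
    ⟨Nat.find hex, Nat.find_spec hex, fun m hm => Nat.find_min hex hm⟩
  obtain ⟨sh, π, hs, hπ⟩ := hb
  refine ⟨b, sh, π, hs, hπ, fun z hz l => ?_⟩
  by_contra hc0
  obtain ⟨b', rfl⟩ : ∃ b', b = b' + 1 := ⟨b - 1, by have := l.2; omega⟩
  apply hlt b' (Nat.lt_succ_self b')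
  let v : Fin b' → N := fun k => π (Pi.single (l.succAbove k) 1)
  refine ⟨fun k => sh (l.succAbove k), Fintype.linearCombination _ v, ?_, ?_⟩
  · rw [← LinearMap.range_eq_top, Fintype.range_linearCombination]
    set W := Submodule.span (MvPolynomial σ K) (Set.range v) with hW
    have hv : ∀ k, v k ∈ W := fun k => Submodule.subset_span ⟨k, rfl⟩
    have hdec : ∀ x : Fin (b' + 1) → MvPolynomial σ K,
        π x = x l • π (Pi.single l 1) + ∑ k, x (l.succAbove k) • v k := by
      intro x
      have h : x = ∑ k, x k • Pi.single k (1 : MvPolynomial σ K) := by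
        funext m
        rw [Finset.sum_apply]
        simp [Pi.single_apply]
      conv_lhs => rw [h]
      rw [map_sum, Fin.sum_univ_succAbove _ l, map_smul]
      congr 1
      exact Finset.sum_congr rfl fun k _ => map_smul _ _ _
    have hl : π (Pi.single l 1) ∈ W := by
      set w := (Gr.free sh).pr (sh l) z with hw
      have hπw : π w = 0 := by
        rw [hw, free_map G sh π hπ, hz, map_zero]
      have hwl : w l = C (constantCoeff (z l)) := by
        change hc (sh l - sh l) (z l) = _
        ext m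
        rw [coeff_hc, coeff_C, sub_self, constantCoeff_eq]
        by_cases hm : 0 = m
        · subst hm
          simp
        · rw [if_neg hm, if_neg]
          intro h
          apply hm
          have : m.degree = 0 := by exact_mod_cast h
          exact ((Finsupp.degree_eq_zero_iff m).mp this).symm
      rw [hdec w, hwl] at hπw
      have h1 : (C (constantCoeff (z l)) : MvPolynomial σ K) • π (Pi.single l 1) ∈ W := by
        rw [eq_neg_of_add_eq_zero_left hπw]
        exact W.neg_mem (W.sum_mem fun k _ => W.smul_mem _ (hv k))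
      have h2 := W.smul_mem (C (constantCoeff (z l))⁻¹ : MvPolynomial σ K) h1
      rwa [smul_smul, ← map_mul, inv_mul_cancel₀ hc0, map_one, one_smul] at h2
    rw [eq_top_iff]
    intro x _
    obtain ⟨y, rfl⟩ := hs x
    rw [hdec y]
    exact W.add_mem (W.smul_mem _ hl) (W.sum_mem fun k _ => W.smul_mem _ (hv k))
  · intro k
    rw [Fintype.linearCombination_apply_single, one_smul]
    exact hπ _

end

/-- A stage in the construction of a resolution. -/
structure St (K : Type u) [Field K] (σ : Type) where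
  b : ℕ
  sh : Fin b → ℤ
  Z : Submodule (MvPolynomial σ K) (Fin b → MvPolynomial σ K)
  stab : ∀ d, ∀ z ∈ Z, (Gr.free sh).pr d z ∈ Z
  min : ∀ z ∈ Z, ∀ k, constantCoeff (z k) = 0

lemma exists_next [Finite σ] (S : St K σ) :
    ∃ (T : St K σ) (f : (Fin T.b → MvPolynomial σ K) →ₗ[MvPolynomial σ K]
      (Fin S.b → MvPolynomial σ K)),
      LinearMap.range f = S.Z ∧ LinearMap.ker f = T.Z ∧
      ∀ k, (Gr.free S.sh).pr (T.sh k) (f (Pi.single k 1)) = f (Pi.single k 1) := by
  obtain ⟨b, sh, π, hs, hπ, hmin⟩ := exists_cover ((Gr.free S.sh).sub S.Z S.stab)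
  refine ⟨⟨b, sh, LinearMap.ker π, ker_stable _ sh π hπ,
    fun z hz => hmin z (LinearMap.mem_ker.mp hz)⟩, S.Z.subtype.comp π, ?_, ?_, ?_⟩
  · rw [LinearMap.range_comp, LinearMap.range_eq_top.mpr hs, Submodule.map_top,
      Submodule.range_subtype]
  · rw [LinearMap.ker_comp, Submodule.ker_subtype]
    rfl
  · intro k
    exact congrArg Subtype.val (hπ k)

/-- Minimal graded free resolutions exist. -/
theorem exists_MR [Finite σ] {N : Type u} [AddCommGroup N] [Module (MvPolynomial σ K) N]
    (G : Gr K σ N) [Module.Finite (MvPolynomial σ K) N] : Nonempty (MR G) := by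
  obtain ⟨b, sh, π, hs, hπ, hmin⟩ := exists_cover G
  choose nxt f hf1 hf2 hf3 using fun S : St K σ => exists_next S
  let S₀ : St K σ := ⟨b, sh, LinearMap.ker π, ker_stable _ sh π hπ,
    fun z hz => hmin z (LinearMap.mem_ker.mp hz)⟩
  let seq : ℕ → St K σ := fun i => Nat.rec S₀ (fun _ S => nxt S) i
  exact ⟨{
    rk := fun i => (seq i).b
    sh := fun i => (seq i).sh
    aug := π
    d := fun i => f (seq i)
    aug_surj := hs
    exact0 := hf1 S₀
    exact := fun i => by
      rw [hf2 (seq i)]
      exact hf1 (seq (i + 1))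
    aug_hom := hπ
    d_hom := fun i k => hf3 (seq i) k
    minimal := fun i k l => (seq i).min _ (by
      rw [← hf1 (seq i)]
      exact ⟨_, rfl⟩) l }⟩

end Pool.Agent.R830.OIM
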