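import Pool.Agent.R830.OIM.Defs

/-!
Graded OI- and FI-modules, minimal graded free resolutions and regularity.
-/

namespace Pool.Agent.R830.OIM

open MvPolynomial

universe u

/-- A graded OI-module (`s = OI`) or FI-module (`s = FI`) over `(X^{s,1})^{⊗ c}`. -/
structure GrPMod (K : Type u) [Field K] (s : Shape) (c : ℕ) extends PMod K s c where
  /-- the graded pieces of `M_n` -/
  gr : (n : ℕ) → ℤ → AddSubgroup (obj n)
  internal : ∀ n, DirectSum.IsInternal (gr n)
  smul_mem : ∀ (n d : ℕ) (e : ℤ) (p : PolyAlg K c n) (u : obj n),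
    p.IsHomogeneous d → u ∈ gr n e → p • u ∈ gr n (e + d)
  map_mem : ∀ {m n : ℕ} (f : Fin m → Fin n) (hf : s.IsMor f) (e : ℤ) (u : obj m),
    u ∈ gr m e → map f hf u ∈ gr n e

/-- `M` is finitely generated: there are finitely many homogeneous `q_k ∈ M_{d_k}` such that each
`M_n` is generated over `P_n` by the images of the `q_k`. -/
def GrPMod.FG {K : Type u} [Field K] {s : Shape} {c : ℕ} (M : GrPMod K s c) : Prop :=
  ∃ G : Finset (Σ n, M.obj n), (∀ q ∈ G, ∃ e : ℤ, q.2 ∈ M.gr q.1 e) ∧
    ∀ n, Submodule.span (PolyAlg K c n)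
      {u : M.obj n | ∃ q ∈ G, ∃ (f : Fin q.1 → Fin n) (hf : s.IsMor f), u = M.map f hf q.2} = ⊤

/-- A minimal graded free resolution
`… → P^{rk 1} → P^{rk 0} → N → 0` over a polynomial ring `P`, the `k`-th basis vector of
`P^{rk i}` having degree `sh i k`. -/
structure MinRes (K : Type u) [Field K] (σ : Type) {N : Type u} [AddCommGroup N]
    [Module (MvPolynomial σ K) N] (gr : ℤ → AddSubgroup N) where
  /-- the ranks -/
  rk : ℕ → ℕ
  /-- the degrees of the basis vectors -/
  sh : (i : ℕ) → Fin (rk i) → ℤ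
  /-- the augmentation -/
  aug : (Fin (rk 0) → MvPolynomial σ K) →ₗ[MvPolynomial σ K] N
  /-- the differentials -/
  d : (i : ℕ) → (Fin (rk (i + 1)) → MvPolynomial σ K) →ₗ[MvPolynomial σ K]
    (Fin (rk i) → MvPolynomial σ K)
  aug_surj : Function.Surjective aug
  exact0 : LinearMap.range (d 0) = LinearMap.ker aug
  exact : ∀ i, LinearMap.range (d (i + 1)) = LinearMap.ker (d i)
  /-- the augmentation preserves degrees -/
  aug_hom : ∀ k, aug (Pi.single k 1) ∈ gr (sh 0 k)
  /-- the differentials preserve degrees: the entries are homogeneous of the right degrees -/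
  d_hom : ∀ i k l, ∀ m ∈ (d i (Pi.single k 1) l).support,
    ((m.degree : ℕ) : ℤ) = sh (i + 1) k - sh i l
  /-- minimality: the entries have constant term zero -/
  minimal : ∀ i k l, constantCoeff (d i (Pi.single k 1) l) = 0

/-- The graded Betti number `β_{i,j}` read off a minimal graded free resolution. -/
def MinRes.betti {K : Type u} [Field K] {σ : Type} {N : Type u} [AddCommGroup N]
    [Module (MvPolynomial σ K) N] {gr : ℤ → AddSubgroup N} (R : MinRes K σ gr) (i : ℕ) (j : ℤ) : ℕ :=
  (Finset.univ.filter fun k => R.sh i k = j).card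

/-- The graded module `N` has Castelnuovo-Mumford regularity `r`, that is, it has a minimal graded
free resolution with `max {j - i : β_{i,j} ≠ 0} = r`. -/
def IsReg (K : Type u) [Field K] (σ : Type) {N : Type u} [AddCommGroup N]
    [Module (MvPolynomial σ K) N] (gr : ℤ → AddSubgroup N) (r : ℤ) : Prop :=
  ∃ R : MinRes K σ gr, IsGreatest {t : ℤ | ∃ (i : ℕ) (j : ℤ), R.betti i j ≠ 0 ∧ t = j - i} r

/-- There are integers `a`, `b` with `reg M_n = a n + b` for all large `n`. -/
def GrPMod.RegEventuallyLinear {K : Type u} [Field K] {s : Shape} {c : ℕ} (M : GrPMod K s c) :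
    Prop :=
  ∃ a b : ℤ, ∃ n₀ : ℕ, ∀ n : ℕ, n₀ ≤ n → IsReg K (Fin c × Fin n) (M.gr n) (a * n + b)

end Pool.Agent.R830.OIM
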