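import Pool.Agent.R830.OIM.Fg
import Pool.Agent.R830.OIM.Exist
import Pool.Agent.R830.OIM.RegDefs

/-!
The grading and the regularity of the model modules.
-/

namespace Pool.Agent.R830.OIM

open MvPolynomial

universe u

section bridge

variable {K : Type u} [Field K] {σ : Type} {N : Type u} [AddCommGroup N]
  [Module (MvPolynomial σ K) N]

lemma hc_eq_iff (e : ℤ) (p : MvPolynomial σ K) :
    hc e p = p ↔ ∀ m ∈ p.support, ((m.degree : ℕ) : ℤ) = e := by
  constructor
  · intro h m hm
    by_contra h1
    rw [mem_support_iff, ← h, coeff_hc, if_neg h1] at hm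
    exact hm rfl
  · intro h
    ext m
    rw [coeff_hc]
    split_ifs with h1
    · rfl
    · by_contra h2
      exact h1 (h m (mem_support_iff.mpr (Ne.symm h2)))

lemma pr_free_eq_iff {b : ℕ} (sh : Fin b → ℤ) (e : ℤ) (f : Fin b → MvPolynomial σ K) :
    (Gr.free sh).pr e f = f ↔ ∀ l, ∀ m ∈ (f l).support, ((m.degree : ℕ) : ℤ) = e - sh l := by
  rw [funext_iff]
  exact forall_congr' fun l => hc_eq_iff _ _

/-- The graded pieces of a graded module. -/
def Gr.gr (G : Gr K σ N) (d : ℤ) : AddSubgroup N := (G.pr d).eqLocus (AddMonoidHom.id N)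

lemma Gr.mem_gr (G : Gr K σ N) (d : ℤ) (u : N) : u ∈ G.gr d ↔ G.pr d u = u := Iff.rfl

lemma Gr.isInternal (G : Gr K σ N) : DirectSum.IsInternal G.gr := by
  classical
  constructor
  · rw [injective_iff_map_eq_zero]
    intro x hx
    have key : ∀ (d : ℤ) (x : DirectSum ℤ fun i => G.gr i),
        G.pr d (DirectSum.coeAddMonoidHom G.gr x) = (x d : N) := by
      intro d x
      induction x using DirectSum.induction_on with
      | zero => simp
      | of i y =>
        rw [DirectSum.coeAddMonoidHom_of]
        by_cases h : d = i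
        · subst h
          rw [DirectSum.of_eq_same]
          exact y.2
        · rw [DirectSum.of_eq_of_ne _ _ _ h, G.pr_ne h y.2]
          rfl
      | add x y hx hy =>
        rw [map_add, map_add, hx, hy]
        rfl
    ext d
    rw [← key d x, hx, map_zero]
    rfl
  · intro u
    obtain ⟨D, hD⟩ := G.fin u
    refine ⟨∑ d ∈ D, DirectSum.of (fun i => G.gr i) d ⟨G.pr d u, G.pr_pr d u⟩, ?_⟩
    rw [map_sum]
    simp only [DirectSum.coeAddMonoidHom_of]
    exact hD.symm

lemma Gr.smul_mem_gr (G : Gr K σ N) (d : ℕ) (e : ℤ) (p : MvPolynomial σ K) (u : N)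
    (hp : p.IsHomogeneous d) (hu : u ∈ G.gr e) : p • u ∈ G.gr (e + d) := by
  rw [p.as_sum, Finset.sum_smul]
  refine AddSubgroup.sum_mem _ fun m hm => ?_
  rw [Gr.mem_gr, G.smul_monomial _ d m (by
    have := hp (mem_support_iff.mp hm)
    rw [Finsupp.degree_eq_weight_one]
    exact this)]
  rw [hu]
  rfl

variable [Fintype σ] [DecidableEq σ] (o : σ → ℕ)

/-- Regularity in terms of Koszul homology. -/
lemma isReg_iff (ho : Function.Injective o) (G : Gr K σ N) [Module.Finite (MvPolynomial σ K) N]
    (r : ℤ) : IsReg K σ G.gr r ↔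
      IsGreatest {t : ℤ | ∃ (i : ℕ) (j : ℤ), KH o G i j ∧ t = j - i} r := by
  have hb : ∀ (R : MinRes K σ G.gr) (R' : MR G), R.rk = R'.rk → HEq R.sh R'.sh → 
      ({t : ℤ | ∃ (i : ℕ) (j : ℤ), R.betti i j ≠ 0 ∧ t = j - i} =
      {t : ℤ | ∃ (i : ℕ) (j : ℤ), KH o G i j ∧ t = j - i}) := by
    intro R R' h1 h2
    obtain ⟨rk, sh, aug, d, hs, he0, he, ha, hd, hm⟩ := R
    obtain ⟨rk', sh', aug', d', hs', he0', he', ha', hd', hm'⟩ := R'
    simp only at h1 h2
    subst h1
    have h3 := eq_of_heq h2
    subst h3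
    ext t
    refine exists_congr fun i => exists_congr fun j => and_congr ?_ Iff.rfl
    rw [KH_iff o ho i N G ⟨rk, sh, aug', d', hs', he0', he', ha', hd', hm'⟩ j, MinRes.betti,
      Finset.card_ne_zero, Finset.filter_nonempty_iff]
    simp
  constructor
  · rintro ⟨R, hR⟩
    let R' : MR G :=
      { rk := R.rk
        sh := R.sh
        aug := R.aug
        d := R.d
        aug_surj := R.aug_surj
        exact0 := R.exact0
        exact := R.exact
        aug_hom := R.aug_hom
        d_hom := fun i k => (pr_free_eq_iff _ _ _).mpr (R.d_hom i k)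
        minimal := R.minimal }
    rwa [hb R R' rfl HEq.rfl] at hR
  · intro h
    obtain ⟨R'⟩ := exists_MR G
    let R : MinRes K σ G.gr :=
      { rk := R'.rk
        sh := R'.sh
        aug := R'.aug
        d := R'.d
        aug_surj := R'.aug_surj
        exact0 := R'.exact0
        exact := R'.exact
        aug_hom := R'.aug_hom
        d_hom := fun i k => (pr_free_eq_iff _ _ _).mp (R'.d_hom i k)
        minimal := R'.minimal }
    refine ⟨R, ?_⟩
    rwa [hb R R' rfl HEq.rfl]

end bridge

variable {K : Type u} [Field K] {A : (n : ℕ) → Fin n → Fin n → K}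

/-- Homogeneous components of polynomials in one variable. -/
noncomputable def hp (d : ℤ) (q : Polynomial K) : Polynomial K :=
  if 0 ≤ d then Polynomial.monomial d.toNat (q.coeff d.toNat) else 0

lemma coeff_hp (d : ℤ) (q : Polynomial K) (m : ℕ) :
    (hp d q).coeff m = if (m : ℤ) = d then q.coeff m else 0 := by
  rw [hp]
  by_cases hd : 0 ≤ d
  · rw [if_pos hd, Polynomial.coeff_monomial]
    by_cases h : (m : ℤ) = d
    · have : d.toNat = m := by omega
      rw [if_pos this, if_pos h, this]
    · rw [if_neg (by omega), if_neg h]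
  · rw [if_neg hd, Polynomial.coeff_zero, if_neg (by omega)]

/-- The projection to degree `d`. -/
noncomputable def Obj.pr (n : ℕ) (d : ℤ) : Obj A n →+ Obj A n where
  toFun v := Obj.mk (fun i => if d = 0 then v.c i else 0) (fun i => hp d (v.h i)) (by
    intro i
    rw [coeff_hp, Nat.cast_zero, v.rel]
    by_cases h : d = 0
    · subst h
      simp
    · rw [if_neg (Ne.symm h)]
      simp [h])
  map_zero' := by
    refine Obj.ext (fun i => ?_) (fun i => ?_)
    · simp
    · ext m
      simp [coeff_hp]
  map_add' v w := by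
    refine Obj.ext (fun i => ?_) (fun i => ?_)
    · simp only [Obj.c_mk, Obj.c_add, Pi.add_apply]
      split_ifs <;> simp
    · ext m
      simp only [Obj.h_mk, Obj.h_add, Pi.add_apply, Polynomial.coeff_add, coeff_hp]
      split_ifs <;> simp

lemma Obj.pr_c (n : ℕ) (d : ℤ) (v : Obj A n) (i : Fin n) :
    (Obj.pr n d v).c i = if d = 0 then v.c i else 0 := rfl

lemma Obj.pr_h (n : ℕ) (d : ℤ) (v : Obj A n) (i : Fin n) :
    (Obj.pr n d v).h i = hp d (v.h i) := rfl

lemma obj_sum_c {ι : Type*} (n : ℕ) (t : Finset ι) (w : ι → Obj A n) (i : Fin n) :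
    (∑ k ∈ t, w k).c i = ∑ k ∈ t, (w k).c i := by
  classical
  induction t using Finset.induction_on with
  | empty => simp
  | insert a t ha ih =>
    rw [Finset.sum_insert ha, Finset.sum_insert ha, Obj.c_add, Pi.add_apply, ih]

lemma obj_sum_h {ι : Type*} (n : ℕ) (t : Finset ι) (w : ι → Obj A n) (i : Fin n) :
    (∑ k ∈ t, w k).h i = ∑ k ∈ t, (w k).h i := by
  classical
  induction t using Finset.induction_on with
  | empty => simp
  | insert a t ha ih =>
    rw [Finset.sum_insert ha, Finset.sum_insert ha, Obj.h_add, Pi.add_apply, ih]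

variable (A)

/-- The grading of the model. -/
noncomputable def Obj.G (n : ℕ) : Gr K (Fin 1 × Fin n) (Obj A n) where
  pr := Obj.pr n
  idem d e u := by
    refine Obj.ext (fun i => ?_) (fun i => ?_)
    · by_cases h : d = e
      · subst h
        rw [if_pos rfl, Obj.pr_c, Obj.pr_c]
        split_ifs <;> rfl
      · rw [if_neg h, Obj.pr_c, Obj.pr_c]
        split_ifs with h1 h2
        · exact absurd (h1.trans h2.symm) h
        · rfl
        · rfl
    · by_cases h : d = e
      · subst h
        rw [if_pos rfl, Obj.pr_h, Obj.pr_h]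
        ext m
        rw [coeff_hp, coeff_hp]
        split_ifs <;> rfl
      · rw [if_neg h, Obj.pr_h, Obj.pr_h]
        ext m
        rw [coeff_hp, coeff_hp]
        simp only [Obj.h_zero, Pi.zero_apply, Polynomial.coeff_zero]
        split_ifs with h1 h2
        · exact absurd (h1.symm.trans h2) h
        · rfl
        · rfl
  fin u := by
    classical
    refine ⟨insert 0 (Finset.univ.biUnion fun i => (u.h i).support.image fun m : ℕ => (m : ℤ)),
      ?_⟩
    set D := insert 0 (Finset.univ.biUnion fun i => (u.h i).support.image fun m : ℕ => (m : ℤ))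
    refine Obj.ext (fun i => ?_) (fun i => ?_)
    · rw [obj_sum_c]
      simp only [Obj.pr_c]
      rw [Finset.sum_ite_eq' D (0 : ℤ) (fun _ => u.c i), if_pos (Finset.mem_insert_self _ _)]
    · rw [obj_sum_h]
      simp only [Obj.pr_h]
      ext m
      rw [Polynomial.finsetSum_coeff]
      simp only [coeff_hp]
      rw [Finset.sum_ite_eq D (m : ℤ) (fun _ => (u.h i).coeff m)]
      split_ifs with h
      · rfl
      · by_contra h0
        apply h
        refine Finset.mem_insert_of_mem (Finset.mem_biUnion.mpr ⟨i, Finset.mem_univ i,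
          Finset.mem_image.mpr ⟨m, ?_, rfl⟩⟩)
        rw [Polynomial.mem_support_iff]
        exact h0
  smulX s d u := by
    refine Obj.ext (fun i => ?_) (fun i => ?_)
    · rw [Obj.pr_c, Obj.c_smul, Obj.c_smul]
      simp
    · rw [Obj.pr_h, Obj.h_smul, Obj.h_smul, Obj.pr_h]
      have h1 : ev n i (X s : PolyAlg K 1 n) = if s.2 = i then Polynomial.X else 0 := by
        simp [ev]
      rw [h1]
      by_cases h : s.2 = i
      · rw [if_pos h]
        ext m
        rcases m with _ | m
        · rw [coeff_hp, Polynomial.mul_coeff_zero, Polynomial.mul_coeff_zero]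
          simp
        · rw [coeff_hp, Polynomial.coeff_X_mul, Polynomial.coeff_X_mul, coeff_hp]
          by_cases h2 : (m : ℤ) = d
          · rw [if_pos h2, if_pos (by push_cast; omega)]
          · rw [if_neg h2, if_neg (by push_cast; omega)]
      · rw [if_neg h, zero_mul, zero_mul]
        ext m
        rw [coeff_hp]
        simp
  smulC a d u := by
    refine Obj.ext (fun i => ?_) (fun i => ?_)
    · rw [Obj.pr_c, Obj.c_smul, Obj.c_smul, Obj.pr_c]
      split_ifs <;> simp
    · rw [Obj.pr_h, Obj.h_smul, Obj.h_smul, Obj.pr_h]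
      have h1 : ev n i (C a : PolyAlg K 1 n) = Polynomial.C a := by
        simp [ev]
      rw [h1]
      ext m
      rw [coeff_hp, Polynomial.coeff_C_mul, Polynomial.coeff_C_mul, coeff_hp]
      split_ifs <;> simp

variable {A}

lemma Obj.map_pr {m n : ℕ} (f : Fin m → Fin n) (hf : Function.Injective f)
    (hA : ∀ i j, A n (f i) (f j) = A m i j) (d : ℤ) (v : Obj A m) :
    Obj.map f hf hA (Obj.pr m d v) = Obj.pr n d (Obj.map f hf hA v) := by
  refine Obj.ext (fun j => ?_) (fun j => ?_)
  · rw [Obj.pr_c]
    by_cases hj : ∃ i, f i = j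
    · obtain ⟨i, rfl⟩ := hj
      rw [Obj.map_c, Obj.map_c, Obj.pr_c]
    · rw [Obj.map_c' _ _ _ _ _ hj, Obj.map_c' _ _ _ _ _ hj, ite_self]
  · rw [Obj.pr_h]
    by_cases hj : ∃ i, f i = j
    · obtain ⟨i, rfl⟩ := hj
      rw [Obj.map_h, Obj.map_h, Obj.pr_h]
    · rw [Obj.map_h' _ _ _ _ _ hj, Obj.map_h' _ _ _ _ _ hj]
      ext k
      rw [coeff_hp, Polynomial.coeff_C, Polynomial.coeff_C]
      simp only [Obj.pr_c]
      by_cases hd : d = 0
      · subst hd
        by_cases hk : k = 0
        · subst hk
          simp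
        · rw [if_neg hk, if_neg (by exact_mod_cast hk)]
      · by_cases hk : k = 0
        · subst hk
          rw [if_pos rfl, if_neg (by exact_mod_cast Ne.symm hd)]
          simp [hd]
        · rw [if_neg hk, if_neg hk, ite_self]

/-! Koszul homology of the model. -/

/-- The ordering of the variables. -/
def oo (n : ℕ) : Fin 1 × Fin n → ℕ := fun v => v.2

lemma oo_inj (n : ℕ) : Function.Injective (oo n) := by
  intro v w h
  exact Prod.ext (Subsingleton.elim _ _) (Fin.ext h)

/-- The sign. -/
noncomputable def eps (K : Type u) [Field K] (n : ℕ) (i : Fin n) (T : Finset (Fin 1 × Fin n)) :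
    Polynomial K :=
  (-1) ^ (T.filter fun t => oo n t < oo n (0, i)).card

lemma eps_mul_self (n : ℕ) (i : Fin n) (T : Finset (Fin 1 × Fin n)) :
    eps K n i T * eps K n i T = 1 := by
  rw [eps, ← mul_pow]
  simp

lemma kd_h (n : ℕ) (φ : Finset (Fin 1 × Fin n) → Obj A n) (T : Finset (Fin 1 × Fin n))
    (i : Fin n) : (kd (K := K) (oo n) φ T).h i =
      if (0, i) ∈ T then 0 else eps K n i T * Polynomial.X * (φ (insert (0, i) T)).h i := by
  rw [kd_apply, obj_sum_h]
  have h1 : ∀ s : Fin 1 × Fin n, ev n i (kc K (oo n) s T) =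
      if s = (0, i) then eps K n i T * Polynomial.X else 0 := by
    intro s
    rw [kc, map_mul, map_pow, map_neg, map_one]
    by_cases hs : s = (0, i)
    · subst hs
      rw [if_pos rfl, eps]
      simp [ev]
    · have : s.2 ≠ i := fun h => hs (Prod.ext (Subsingleton.elim _ _) h)
      rw [if_neg hs]
      simp [ev, this]
  rw [Finset.sum_eq_single (0, i)]
  · split_ifs with h
    · rfl
    · rw [Obj.h_smul, h1, if_pos rfl]
  · intro s _ hs
    split_ifs
    · rfl
    · rw [Obj.h_smul, h1, if_neg hs, zero_mul]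
  · intro h
    exact absurd (Finset.mem_univ _) h

lemma kd_c (n : ℕ) (φ : Finset (Fin 1 × Fin n) → Obj A n) (T : Finset (Fin 1 × Fin n))
    (i : Fin n) : (kd (K := K) (oo n) φ T).c i = 0 := by
  rw [kd_apply, obj_sum_c]
  refine Finset.sum_eq_zero fun s _ => ?_
  split_ifs
  · rfl
  · rw [Obj.c_smul, kc]
    simp

/-- Cycles in positive degree are boundaries, if the first coefficients can be matched. -/
lemma fill (n : ℕ) (φ : Finset (Fin 1 × Fin n) → Obj A n) (hφ : kd (K := K) (oo n) φ = 0)
    (hc : ∀ S i, (φ S).c i = 0)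
    (h1 : Function.Surjective (mv A n) ∨ ∀ S i, ((φ S).h i).coeff 1 = 0) :
    ∃ ψ : Finset (Fin 1 × Fin n) → Obj A n, kd (K := K) (oo n) ψ = φ := by
  classical
  have h0 : ∀ S i, ((φ S).h i).coeff 0 = 0 := by
    intro S i
    rw [(φ S).rel]
    simp [hc]
  have hin : ∀ (S : Finset (Fin 1 × Fin n)) (i : Fin n), (0, i) ∈ S → (φ S).h i = 0 := by
    intro S i hi
    have h2 := congrArg (fun v => Obj.h v i) (congrFun hφ (S.erase (0, i)))
    have h3 : (kd (K := K) (oo n) φ (S.erase (0, i))).h i = 0 := h2
    rw [kd_h, if_neg (Finset.notMem_erase _ _), Finset.insert_erase hi] at h3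
    rcases mul_eq_zero.mp h3 with h4 | h4
    · rcases mul_eq_zero.mp h4 with h5 | h5
      · have := eps_mul_self (K := K) n i (S.erase (0, i))
        rw [h5] at this
        simp at this
      · exact absurd h5 Polynomial.X_ne_zero
    · exact h4
  let ψh : Finset (Fin 1 × Fin n) → Fin n → Polynomial K := fun S i =>
    if (0, i) ∈ S then eps K n i (S.erase (0, i)) * ((φ (S.erase (0, i))).h i).divX else 0
  have hcs : ∀ S, ∃ c : Fin n → K, ∀ i, (ψh S i).coeff 0 = ∑ j, A n i j * c j := by
    intro S
    rcases h1 with h1 | h1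
    · obtain ⟨c, hc⟩ := h1 (fun i => (ψh S i).coeff 0)
      exact ⟨c, fun i => (congrFun hc i).symm⟩
    · refine ⟨0, fun i => ?_⟩
      simp only [ψh]
      split_ifs
      · rw [Polynomial.mul_coeff_zero, Polynomial.coeff_divX, zero_add, h1]
        simp
      · simp
  choose c hcc using hcs
  refine ⟨fun S => Obj.mk (c S) (ψh S) (hcc S), ?_⟩
  funext T
  refine Obj.ext (fun i => ?_) (fun i => ?_)
  · rw [kd_c, hc]
  · rw [kd_h]
    split_ifs with hT
    · exact (hin T i hT).symm
    · rw [Obj.h_mk]
      simp only [ψh, Finset.mem_insert_self, if_true, Finset.erase_insert hT]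
      have h5 := (φ T).h i |>.divX_mul_X_add
      rw [h0, map_zero, add_zero] at h5
      calc eps K n i T * Polynomial.X * (eps K n i T * ((φ T).h i).divX)
          = (eps K n i T * eps K n i T) * (((φ T).h i).divX * Polynomial.X) := by ring
        _ = (φ T).h i := by rw [eps_mul_self, h5, one_mul]

lemma not_KH_of_ge (n i : ℕ) (j : ℤ) (h : 2 ≤ j - i) : ¬ KH (oo n) (Obj.G A n) i j := by
  rintro ⟨φ, _, h2, h3, h4⟩
  apply h4
  have hpr : ∀ S, Obj.pr n (j - i) (φ S) = φ S := h2
  refine fill n φ h3 (fun S k => ?_) (Or.inr fun S k => ?_)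
  · rw [← hpr S, Obj.pr_c, if_neg (by omega)]
  · rw [← hpr S, Obj.pr_h, coeff_hp, if_neg (by push_cast; omega)]

lemma not_KH_one (n i : ℕ) (hA : Function.Surjective (mv A n)) (j : ℤ) (h : j - i = 1) :
    ¬ KH (oo n) (Obj.G A n) i j := by
  rintro ⟨φ, _, h2, h3, h4⟩
  apply h4
  have hpr : ∀ S, Obj.pr n (j - i) (φ S) = φ S := h2
  refine fill n φ h3 (fun S k => ?_) (Or.inl hA)
  rw [← hpr S, Obj.pr_c, if_neg (by omega)]

lemma KH_zero_zero (n : ℕ) (hn : 0 < n) : KH (oo n) (Obj.G A n) 0 0 := by
  classical
  let v : Obj A n := Obj.mk (fun _ => 1) (fun i => Polynomial.C (∑ j, A n i j * 1)) (by simp)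
  refine ⟨fun S => if S = ∅ then v else 0, ?_, ?_, ?_, ?_⟩
  · intro S hS
    refine if_neg ?_
    rintro rfl
    exact hS rfl
  · intro S
    dsimp only
    split_ifs
    · change Obj.pr n _ v = v
      refine Obj.ext (fun i => ?_) (fun i => ?_)
      · rw [Obj.pr_c]
        simp
      · rw [Obj.pr_h]
        ext m
        rw [coeff_hp]
        simp only [v, Obj.h_mk, Polynomial.coeff_C, Nat.cast_zero, sub_zero]
        by_cases hm : m = 0
        · subst hm
          simp
        · rw [if_neg hm, ite_self]
    · exact map_zero _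
  · funext T
    rw [kd_apply]
    refine Finset.sum_eq_zero fun s _ => ?_
    split_ifs with h1 h2
    · rfl
    · exact absurd h2 (Finset.insert_ne_empty _ _)
    · rw [smul_zero]
  · rintro ⟨ψ, hψ⟩
    have h1 := congrArg (fun w => Obj.c w ⟨0, hn⟩) (congrFun hψ ∅)
    have h2 : (kd (K := K) (oo n) ψ ∅).c ⟨0, hn⟩ = 1 := by
      refine Eq.trans h1 ?_
      simp [v]
    rw [kd_c] at h2
    exact zero_ne_one h2

lemma KH_sing (n : ℕ) (hn : 0 < n) (hA : ¬ Function.Surjective (mv A n)) :
    KH (oo n) (Obj.G A n) (n - 1) n := by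
  classical
  obtain ⟨w, hw⟩ : ∃ w, ∀ c, mv A n c ≠ w := by
    by_contra h
    push Not at h
    exact hA h
  let v : Finset (Fin 1 × Fin n) → Obj A n := fun S =>
    Obj.mk 0 (fun i => if (0, i) ∈ S then 0 else eps K n i S * Polynomial.C (w i) * Polynomial.X)
      (by
        intro i
        split_ifs
        · simp
        · rw [Polynomial.mul_coeff_zero]
          simp)
  refine ⟨fun S => if S.card = n - 1 then v S else 0, ?_, ?_, ?_, ?_⟩
  · intro S hS
    exact if_neg hS
  · intro S
    dsimp only
    split_ifs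
    · change Obj.pr n _ (v S) = v S
      have hd : (n : ℤ) - ((n - 1 : ℕ) : ℤ) = 1 := by omega
      rw [hd]
      refine Obj.ext (fun i => ?_) (fun i => ?_)
      · rw [Obj.pr_c]
        simp [v]
      · rw [Obj.pr_h]
        ext m
        rw [coeff_hp]
        simp only [v, Obj.h_mk]
        by_cases hm : (m : ℤ) = 1
        · rw [if_pos hm]
        · rw [if_neg hm]
          split_ifs
          · simp
          · rw [eps]
            rcases neg_one_pow_eq_or (Polynomial K)
              (S.filter fun t => oo n t < oo n (0, i)).card with h | h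
            · rw [h, one_mul, Polynomial.coeff_C_mul_X, if_neg (by
                intro h2
                exact hm (by exact_mod_cast h2))]
            · rw [h, neg_mul, one_mul, neg_mul, Polynomial.coeff_neg, Polynomial.coeff_C_mul_X,
                if_neg (by
                  intro h2
                  exact hm (by exact_mod_cast h2)), neg_zero]
    · exact map_zero _
  · funext T
    refine Obj.ext (fun i => ?_) (fun i => ?_)
    · rw [kd_c]
      rfl
    · rw [kd_h]
      split_ifs with h1 h2
      · rfl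
      · simp [v]
      · simp
  · rintro ⟨ψ, hψ⟩
    apply hw (ψ Finset.univ).c
    funext i
    have h1 := congrArg (fun u => Obj.h u i) (congrFun hψ (Finset.univ.erase (0, i)))
    have hcard : (Finset.univ.erase ((0 : Fin 1), i)).card = n - 1 := by
      rw [Finset.card_erase_of_mem (Finset.mem_univ _)]
      simp
    have h2 : (kd (K := K) (oo n) ψ (Finset.univ.erase (0, i))).h i =
        eps K n i (Finset.univ.erase (0, i)) * Polynomial.C (w i) * Polynomial.X := by
      refine Eq.trans h1 ?_
      rw [if_pos hcard]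
      simp [v]
    rw [kd_h, if_neg (Finset.notMem_erase _ _), Finset.insert_erase (Finset.mem_univ _)] at h2
    have h3 : (eps K n i (Finset.univ.erase (0, i)) * Polynomial.X) *
        ((ψ Finset.univ).h i - Polynomial.C (w i)) = 0 := by
      rw [mul_sub, h2]
      ring
    have h4 : (ψ Finset.univ).h i = Polynomial.C (w i) := by
      rcases mul_eq_zero.mp h3 with h4 | h4
      · rcases mul_eq_zero.mp h4 with h5 | h5
        · have := eps_mul_self (K := K) n i (Finset.univ.erase (0, i))
          rw [h5] at this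
          simp at this
        · exact absurd h5 Polynomial.X_ne_zero
      · exact sub_eq_zero.mp h4
    have h5 := (ψ Finset.univ).rel i
    rw [h4, Polynomial.coeff_C_zero] at h5
    exact h5.symm

end Pool.Agent.R830.OIM
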