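import Mathlib

/-!
Modules over the polynomial OI- and FI-algebras.
-/

namespace Pool.Agent.R830.OIM

open MvPolynomial

universe u

/-- The two index categories: `OI` (strictly increasing maps) and `FI` (injective maps). -/
inductive Shape : Type
  | OI
  | FI

/-- `s.IsMor f` says that `f : [m] → [n]` is a morphism of the category `s`. -/
def Shape.IsMor (s : Shape) {m n : ℕ} (f : Fin m → Fin n) : Prop :=
  match s with
  | Shape.OI => StrictMono f
  | Shape.FI => Function.Injective f

/-- `P_n = K[x_{i,j} : i ∈ [c], j ∈ [n]]`. -/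
abbrev PolyAlg (K : Type u) [Field K] (c n : ℕ) : Type u := MvPolynomial (Fin c × Fin n) K

/-- The algebra map `P_m → P_n`, `x_{i,j} ↦ x_{i,f(j)}` attached to `f : [m] → [n]`. -/
noncomputable def polyMap (K : Type u) [Field K] (c : ℕ) {m n : ℕ} (f : Fin m → Fin n) :
    PolyAlg K c m →ₐ[K] PolyAlg K c n :=
  rename (fun v => (v.1, f v.2))

/-- An OI-module (`s = OI`) or FI-module (`s = FI`) over the polynomial algebra
`(X^{s,1})^{⊗ c}`. -/
structure PMod (K : Type u) [Field K] (s : Shape) (c : ℕ) where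
  /-- the module in width `n` -/
  obj : ℕ → Type u
  /-- its additive group structure -/
  [grp : ∀ n, AddCommGroup (obj n)]
  /-- its `P_n`-module structure -/
  [mod : ∀ n, Module (PolyAlg K c n) (obj n)]
  /-- the transition maps -/
  map : ∀ {m n : ℕ} (f : Fin m → Fin n), s.IsMor f → (obj m →+ obj n)
  map_id : ∀ (n : ℕ) (h : s.IsMor (id : Fin n → Fin n)) (u : obj n), map id h u = u
  map_comp : ∀ {l m n : ℕ} (f : Fin l → Fin m) (g : Fin m → Fin n) (hf : s.IsMor f)
    (hg : s.IsMor g) (hgf : s.IsMor (g ∘ f)) (u : obj l), map (g ∘ f) hgf u = map g hg (map f hf u)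
  map_smul : ∀ {m n : ℕ} (f : Fin m → Fin n) (hf : s.IsMor f) (p : PolyAlg K c m) (u : obj m),
    map f hf (p • u) = polyMap K c f p • map f hf u

attribute [instance] PMod.grp PMod.mod

/-- `M` is finitely generated: some finite set of elements lies in no proper submodule. -/
def PMod.FG {K : Type u} [Field K] {s : Shape} {c : ℕ} (M : PMod K s c) : Prop :=
  ∃ G : Finset (Σ n, M.obj n), ∀ N : (n : ℕ) → Submodule (PolyAlg K c n) (M.obj n),
    (∀ (m n : ℕ) (f : Fin m → Fin n) (hf : s.IsMor f), ∀ u ∈ N m, M.map f hf u ∈ N n) →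
    (∀ q ∈ G, q.2 ∈ N q.1) → ∀ n, N n = ⊤

end Pool.Agent.R830.OIM
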