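import Pool.Agent.R830.OIM.Pd

/-!
Finite generation of the model, and the two matrix families.
-/

namespace Pool.Agent.R830.OIM

open MvPolynomial

universe u

variable {K : Type u} [Field K]

lemma isMor_one (s : Shape) (n : ℕ) (k : Fin n) : s.IsMor (fun _ : Fin 1 => k) := by
  cases s
  · intro a b h
    exact absurd h (by rw [Subsingleton.elim a b]; exact lt_irrefl _)
  · intro a b _
    exact Subsingleton.elim _ _

variable (A : (n : ℕ) → Fin n → Fin n → K)

/-- The generator `e ∈ M_1`. -/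
noncomputable def gen0 : Obj A 1 :=
  Obj.mk (fun _ => 1) (fun i => Polynomial.C (A 1 i 0)) (by intro i; simp)

/-- The generator `f ∈ M_1`. -/
noncomputable def gen1 : Obj A 1 :=
  Obj.mk (fun _ => 0) (fun _ => Polynomial.X) (by intro i; simp)

variable {A}

lemma mem_of_gens {s : Shape}
    (hA : ∀ (m n : ℕ) (f : Fin m → Fin n), s.IsMor f → ∀ i j, A n (f i) (f j) = A m i j)
    (n : ℕ) (N : Submodule (PolyAlg K 1 n) (Obj A n))
    (h0 : ∀ k, (Obj.map (fun _ : Fin 1 => k) (isMor_one s n k).injective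
      (hA 1 n _ (isMor_one s n k)) (gen0 A)) ∈ N)
    (h1 : ∀ k, (Obj.map (fun _ : Fin 1 => k) (isMor_one s n k).injective
      (hA 1 n _ (isMor_one s n k)) (gen1 A)) ∈ N) (v : Obj A n) : v ∈ N := by
  classical
  have hcsum : ∀ (t : Finset (Fin n)) (w : Fin n → Obj A n) (i : Fin n),
      (∑ k ∈ t, w k).c i = ∑ k ∈ t, (w k).c i := by
    intro t w i
    induction t using Finset.induction_on with
    | empty => simp
    | insert a t ha ih => rw [Finset.sum_insert ha, Finset.sum_insert ha, Obj.c_add, Pi.add_apply, ih]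
  have hhsum : ∀ (t : Finset (Fin n)) (w : Fin n → Obj A n) (i : Fin n),
      (∑ k ∈ t, w k).h i = ∑ k ∈ t, (w k).h i := by
    intro t w i
    induction t using Finset.induction_on with
    | empty => simp
    | insert a t ha ih => rw [Finset.sum_insert ha, Finset.sum_insert ha, Obj.h_add, Pi.add_apply, ih]
  let e : Fin n → Obj A n := fun k => Obj.map (fun _ : Fin 1 => k) (isMor_one s n k).injective
      (hA 1 n _ (isMor_one s n k)) (gen0 A)
  let f : Fin n → Obj A n := fun k => Obj.map (fun _ : Fin 1 => k) (isMor_one s n k).injective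
      (hA 1 n _ (isMor_one s n k)) (gen1 A)
  have ec : ∀ k i, (e k).c i = if i = k then 1 else 0 := by
    intro k i
    by_cases hi : i = k
    · subst hi
      rw [if_pos rfl]
      exact Obj.map_c (fun _ : Fin 1 => i) _ _ (gen0 A) 0
    · rw [if_neg hi]
      exact Obj.map_c' (fun _ : Fin 1 => k) _ _ (gen0 A) i (by rintro ⟨_, h⟩; exact hi h.symm)
  have fc : ∀ k i, (f k).c i = 0 := by
    intro k i
    by_cases hi : i = k
    · subst hi
      exact Obj.map_c (fun _ : Fin 1 => i) _ _ (gen1 A) 0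
    · exact Obj.map_c' (fun _ : Fin 1 => k) _ _ (gen1 A) i (by rintro ⟨_, h⟩; exact hi h.symm)
  have eh : ∀ k i, (e k).h i = Polynomial.C (A n i k) := by
    intro k i
    by_cases hi : i = k
    · subst hi
      have h2 : A 1 0 0 = A n i i := (hA 1 n _ (isMor_one s n i) 0 0).symm
      rw [← h2]
      exact Obj.map_h (fun _ : Fin 1 => i) _ _ (gen0 A) 0
    · refine (Obj.map_h' (fun _ : Fin 1 => k) _ _ (gen0 A) i
        (by rintro ⟨_, h⟩; exact hi h.symm)).trans ?_
      simp [gen0]
  have fh : ∀ k i, (f k).h i = if i = k then Polynomial.X else 0 := by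
    intro k i
    by_cases hi : i = k
    · subst hi
      rw [if_pos rfl]
      exact Obj.map_h (fun _ : Fin 1 => i) _ _ (gen1 A) 0
    · rw [if_neg hi]
      refine (Obj.map_h' (fun _ : Fin 1 => k) _ _ (gen1 A) i
        (by rintro ⟨_, h⟩; exact hi h.symm)).trans ?_
      simp [gen1]
  have key : v = ∑ k, (C (v.c k) : PolyAlg K 1 n) • e k + ∑ k, lft n k (v.h k).divX • f k := by
    refine Obj.ext (fun i => ?_) (fun i => ?_)
    · rw [Obj.c_add, Pi.add_apply, hcsum, hcsum]
      simp [ec, fc]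
    · rw [Obj.h_add, Pi.add_apply, hhsum, hhsum]
      simp only [Obj.h_smul, eh, fh]
      have h3 : ∀ k, ev n i (C (v.c k) : PolyAlg K 1 n) = Polynomial.C (v.c k) := by
        intro k; simp [ev]
      simp only [h3]
      have h6 : ∑ x, ev n i (lft n x (v.h x).divX) * (if i = x then Polynomial.X else 0) =
          (v.h i).divX * Polynomial.X := by
        rw [Finset.sum_eq_single i (by
          intro k _ hk
          rw [if_neg (Ne.symm hk), mul_zero]) (by simp), ev_lft, if_pos rfl]
      have h7 : ∑ k, (Polynomial.C (v.c k) * Polynomial.C (A n i k) : Polynomial K) =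
          Polynomial.C ((v.h i).coeff 0) := by
        rw [v.rel, map_sum]
        exact Finset.sum_congr rfl fun k _ => by rw [← map_mul, mul_comm]
      rw [h6, h7, add_comm]
      exact (v.h i).divX_mul_X_add.symm
  rw [key]
  exact N.add_mem (N.sum_mem fun k _ => N.smul_mem _ (h0 k))
    (N.sum_mem fun k _ => N.smul_mem _ (h1 k))

variable (A)

lemma model_fg (s : Shape)
    (hA : ∀ (m n : ℕ) (f : Fin m → Fin n), s.IsMor f → ∀ i j, A n (f i) (f j) = A m i j) :
    (model A s hA).FG := by
  classical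
  refine ⟨{⟨1, gen0 A⟩, ⟨1, gen1 A⟩}, fun N hN hG n => ?_⟩
  rw [Submodule.eq_top_iff']
  intro v
  have h0 := hG ⟨1, gen0 A⟩ (by simp)
  have h1 := hG ⟨1, gen1 A⟩ (by simp)
  exact mem_of_gens hA n (N n) (fun k => hN 1 n _ (isMor_one s n k) _ h0)
    (fun k => hN 1 n _ (isMor_one s n k) _ h1) v

/-- The skew matrix. -/
def skew (K : Type u) [Field K] (n : ℕ) (i j : Fin n) : K :=
  if i < j then 1 else if j < i then -1 else 0

lemma skew_nat (m n : ℕ) (f : Fin m → Fin n) (hf : Shape.OI.IsMor f) (i j : Fin m) :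
    skew K n (f i) (f j) = skew K m i j := by
  have hf' : StrictMono f := hf
  simp [skew, hf'.lt_iff_lt]

/-- The matrix `J - I`. -/
def jmi (K : Type u) [Field K] (n : ℕ) (i j : Fin n) : K :=
  if i = j then 0 else 1

lemma jmi_nat (s : Shape) (m n : ℕ) (f : Fin m → Fin n) (hf : s.IsMor f) (i j : Fin m) :
    jmi K n (f i) (f j) = jmi K m i j := by
  simp [jmi, hf.injective.eq_iff]

lemma jmi_apply (n : ℕ) (c : Fin n → K) (i : Fin n) :
    mv (jmi K) n c i = (∑ j, c j) - c i := by
  classical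
  change ∑ j, jmi K n i j * c j = _
  rw [eq_sub_iff_add_eq, ← Finset.sum_erase_add _ _ (Finset.mem_univ i),
    ← Finset.sum_erase_add _ c (Finset.mem_univ i)]
  have : ∑ x ∈ Finset.univ.erase i, jmi K n i x * c x = ∑ x ∈ Finset.univ.erase i, c x := by
    refine Finset.sum_congr rfl fun x hx => ?_
    have : i ≠ x := (Finset.ne_of_mem_erase hx).symm
    simp [jmi, this]
  rw [this]
  simp [jmi]

lemma jmi_inj (n : ℕ) (hn : ((n : ℕ) : K) ≠ 1) : Function.Injective (mv (jmi K) n) := by
  rw [injective_iff_map_eq_zero]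
  intro c hc
  have h : ∀ i, c i = ∑ j, c j := fun i => by
    have := congrFun hc i
    rw [jmi_apply] at this
    exact (sub_eq_zero.mp this).symm
  have hs : (n : K) * (∑ j, c j) = ∑ j, c j := by
    conv_rhs => rw [Finset.sum_congr rfl fun i _ => h i]
    simp
  have h0 : ∑ j, c j = 0 := by
    have : ((n : K) - 1) * ∑ j, c j = 0 := by rw [sub_mul, hs, one_mul, sub_self]
    exact (mul_eq_zero.mp this).resolve_left (sub_ne_zero.mpr hn)
  funext i
  rw [h i, h0]
  rfl

lemma jmi_not_inj (n : ℕ) (hn : ((n : ℕ) : K) = 1) (hn0 : n ≠ 0) :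
    ¬ Function.Injective (mv (jmi K) n) := by
  rw [injective_iff_map_eq_zero]
  push Not
  refine ⟨fun _ => 1, ?_, ?_⟩
  · funext i
    rw [jmi_apply]
    simp [hn]
  · intro h
    have := congrFun h ⟨0, Nat.pos_of_ne_zero hn0⟩
    simp at this

lemma skew_succ_diff (n : ℕ) (c : Fin n → K) (i j : Fin n) (hij : (i : ℕ) + 1 = j) :
    mv (skew K) n c i - mv (skew K) n c j = c j + c i := by
  classical
  change ∑ k, skew K n i k * c k - ∑ k, skew K n j k * c k = _
  rw [← Finset.sum_sub_distrib]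
  have hne : i ≠ j := by
    rintro rfl
    omega
  rw [← Finset.sum_erase_add _ _ (Finset.mem_univ i),
    ← Finset.sum_erase_add _ _ (Finset.mem_erase.mpr ⟨hne.symm, Finset.mem_univ j⟩)]
  have h0 : ∑ x ∈ (Finset.univ.erase i).erase j, (skew K n i x * c x - skew K n j x * c x) = 0 := by
    refine Finset.sum_eq_zero fun x hx => ?_
    have hxj : x ≠ j := Finset.ne_of_mem_erase hx
    have hxi : x ≠ i := Finset.ne_of_mem_erase (Finset.mem_of_mem_erase hx)
    have h1 : (i < x) ↔ (j < x) := by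
      have h3 : (x : ℕ) ≠ j := fun h => hxj (Fin.ext h)
      have h4 : (x : ℕ) ≠ i := fun h => hxi (Fin.ext h)
      rw [Fin.lt_def, Fin.lt_def]
      omega
    have h2 : (x < i) ↔ (x < j) := by
      have h3 : (x : ℕ) ≠ j := fun h => hxj (Fin.ext h)
      have h4 : (x : ℕ) ≠ i := fun h => hxi (Fin.ext h)
      rw [Fin.lt_def, Fin.lt_def]
      omega
    simp only [skew, h1, h2, sub_self]
  have hlt : i < j := by rw [Fin.lt_def]; omega
  rw [h0]
  simp [skew, hlt, not_lt.mpr hlt.le]

lemma skew_zero (n : ℕ) (c : Fin n → K) (i : Fin n) (hi : (i : ℕ) = 0) :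
    mv (skew K) n c i = (∑ k, c k) - c i := by
  classical
  change ∑ k, skew K n i k * c k = _
  rw [eq_sub_iff_add_eq, ← Finset.sum_erase_add _ _ (Finset.mem_univ i),
    ← Finset.sum_erase_add _ c (Finset.mem_univ i)]
  have : ∑ x ∈ Finset.univ.erase i, skew K n i x * c x = ∑ x ∈ Finset.univ.erase i, c x := by
    refine Finset.sum_congr rfl fun x hx => ?_
    have h1 : x ≠ i := Finset.ne_of_mem_erase hx
    have h2 : i < x := by
      rw [Fin.lt_def]
      have : (x : ℕ) ≠ i := fun h => h1 (Fin.ext h)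
      omega
    simp [skew, h2]
  rw [this]
  simp [skew]

lemma sum_alt (n : ℕ) : ∑ k : Fin n, ((-1 : K)) ^ (k : ℕ) = if Even n then 0 else 1 := by
  rw [Fin.sum_univ_eq_sum_range (fun k => (-1 : K) ^ k) n, neg_one_geom_sum]

lemma skew_inj (n : ℕ) (hn : Even n) : Function.Injective (mv (skew K) n) := by
  rw [injective_iff_map_eq_zero]
  intro c hc
  rcases Nat.eq_zero_or_pos n with rfl | hpos
  · exact Subsingleton.elim _ _
  have h1 : ∀ k : ℕ, ∀ hk : k < n, c ⟨k, hk⟩ = (-1) ^ k * c ⟨0, hpos⟩ := by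
    intro k
    induction k with
    | zero => intro hk; simp
    | succ k ih =>
      intro hk
      have := skew_succ_diff n c ⟨k, by omega⟩ ⟨k + 1, hk⟩ rfl
      rw [hc] at this
      simp only [Pi.zero_apply, sub_self] at this
      rw [ih (by omega)] at this
      rw [pow_succ]
      linear_combination -this
  have h2 := skew_zero n c ⟨0, hpos⟩ rfl
  rw [hc] at h2
  have h3 : ∑ k, c k = (∑ k : Fin n, (-1 : K) ^ (k : ℕ)) * c ⟨0, hpos⟩ := by
    rw [Finset.sum_mul]
    exact Finset.sum_congr rfl fun k _ => h1 k k.2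
  rw [h3, sum_alt, if_pos hn] at h2
  have h4 : c ⟨0, hpos⟩ = 0 := by
    simpa using h2.symm
  funext k
  rw [show c k = c ⟨k, k.2⟩ from rfl, h1 k k.2, h4]
  simp

lemma skew_not_inj (n : ℕ) (hn : Odd n) : ¬ Function.Injective (mv (skew K) n) := by
  rw [injective_iff_map_eq_zero]
  push Not
  have hpos : 0 < n := hn.pos
  refine ⟨fun k => (-1) ^ (k : ℕ), ?_, ?_⟩
  · have h1 : ∀ k : ℕ, ∀ hk : k < n, mv (skew K) n (fun k => (-1) ^ (k : ℕ)) ⟨k, hk⟩ = 0 := by
      intro k
      induction k with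
      | zero =>
        intro hk
        rw [skew_zero n _ _ rfl, sum_alt, if_neg (Nat.not_even_iff_odd.mpr hn)]
        simp
      | succ k ih =>
        intro hk
        have := skew_succ_diff (K := K) n (fun k => (-1) ^ (k : ℕ)) ⟨k, by omega⟩ ⟨k + 1, hk⟩ rfl
        rw [ih (by omega)] at this
        have h2 : (-1 : K) ^ (k + 1) + (-1) ^ k = 0 := by
          rw [pow_succ]; ring
        simpa [h2] using this
    funext k
    exact h1 k k.2
  · intro h
    have := congrFun h ⟨0, hpos⟩
    simp at this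

end Pool.Agent.R830.OIM
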