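import Pool.Agent.R830.OIM.GPd

/-!
Finite generation of the general model, and the matrix families.
-/

namespace Pool.Agent.R830.OIM

open MvPolynomial

universe u

variable {K : Type u} [Field K] {r : ℕ} {V : Type} (pt : V → Fin r → K)
  (A : (n : ℕ) → (Fin n → V) → Fin n → Fin n → K)

/-- The generator `e ∈ M_1`. -/
noncomputable def ggen0 : GObj A pt 1 :=
  GObj.mk (fun _ _ => 1) (fun y i => Polynomial.C (A 1 y i 0)) (by intro y i; simp)

/-- The generator `f ∈ M_1`. -/
noncomputable def ggen1 : GObj A pt 1 :=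
  GObj.mk (fun _ _ => 0) (fun _ _ => Polynomial.X) (by intro y i; simp)

/-- A component as an additive map. -/
def cHom {n : ℕ} (y : Fin n → V) (i : Fin n) : GObj A pt n →+ K where
  toFun v := v.c y i
  map_zero' := rfl
  map_add' _ _ := rfl

/-- A component as an additive map. -/
noncomputable def hHom {n : ℕ} (y : Fin n → V) (i : Fin n) : GObj A pt n →+ Polynomial K where
  toFun v := v.h y i
  map_zero' := rfl
  map_add' _ _ := rfl

variable {pt}

lemma ev1_ren {n : ℕ} (y : Fin n → V) (i j : Fin n) (d : MvPolynomial (Fin r) K) :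
    ev1 pt y i (rename (fun k : Fin r => (k.succ, j)) d) = Polynomial.C (eval (pt (y j)) d) := by
  induction d using MvPolynomial.induction_on with
  | C a => simp [ev1]
  | add p q hp hq => simp [hp, hq]
  | mul_X p k hp =>
    rw [map_mul, map_mul, hp, rename_X, map_mul, map_mul, eval_X]
    congr 1
    have : ((k.succ : Fin (r + 1)), j) ≠ (0, i) := by
      rw [Ne, Prod.ext_iff]
      simp
    simp [ev1, this]

open Classical in
lemma exists_delta [Finite V] (hd : ∀ v : V, ∃ d : MvPolynomial (Fin r) K,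
    eval (pt v) d = 1 ∧ ∀ w, w ≠ v → eval (pt w) d = 0) {n : ℕ} (y : Fin n → V) :
    ∃ δ : PolyAlg K (r + 1) n, ∀ y' i, ev1 pt y' i δ = if y' = y then 1 else 0 := by
  choose d hd1 hd2 using hd
  refine ⟨∏ j, rename (fun k : Fin r => (k.succ, j)) (d (y j)), fun y' i => ?_⟩
  rw [map_prod]
  simp only [ev1_ren]
  by_cases h : y' = y
  · subst h
    simp [hd1]
  · rw [if_neg h]
    obtain ⟨j, hj⟩ := Function.ne_iff.mp h
    exact Finset.prod_eq_zero (Finset.mem_univ j) (by rw [hd2 _ _ hj, map_zero])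

variable {A}

lemma gmem_of_gens [Finite V] (hd : ∀ v : V, ∃ d : MvPolynomial (Fin r) K,
    eval (pt v) d = 1 ∧ ∀ w, w ≠ v → eval (pt w) d = 0) {s : Shape}
    (hA : ∀ (m n : ℕ) (f : Fin m → Fin n), s.IsMor f → ∀ y i j,
      A n y (f i) (f j) = A m (y ∘ f) i j)
    (n : ℕ) (N : Submodule (PolyAlg K (r + 1) n) (GObj A pt n))
    (h0 : ∀ k, (GObj.map (fun _ : Fin 1 => k) (isMor_one s n k).injective
      (hA 1 n _ (isMor_one s n k)) (ggen0 pt A)) ∈ N)
    (h1 : ∀ k, (GObj.map (fun _ : Fin 1 => k) (isMor_one s n k).injective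
      (hA 1 n _ (isMor_one s n k)) (ggen1 pt A)) ∈ N) (v : GObj A pt n) : v ∈ N := by
  classical
  have : Fintype V := Fintype.ofFinite V
  choose δ hδ using fun y : Fin n → V => exists_delta (pt := pt) hd y
  let e : Fin n → GObj A pt n := fun k => GObj.map (fun _ : Fin 1 => k)
    (isMor_one s n k).injective (hA 1 n _ (isMor_one s n k)) (ggen0 pt A)
  let f : Fin n → GObj A pt n := fun k => GObj.map (fun _ : Fin 1 => k)
    (isMor_one s n k).injective (hA 1 n _ (isMor_one s n k)) (ggen1 pt A)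
  have ec : ∀ k y i, (e k).c y i = if i = k then 1 else 0 := by
    intro k y i
    by_cases hi : i = k
    · subst hi
      rw [if_pos rfl]
      exact GObj.map_c (fun _ : Fin 1 => i) _ _ (ggen0 pt A) y 0
    · rw [if_neg hi]
      exact GObj.map_c' (fun _ : Fin 1 => k) _ _ (ggen0 pt A) y i
        (by rintro ⟨_, h⟩; exact hi h.symm)
  have fc : ∀ k y i, (f k).c y i = 0 := by
    intro k y i
    by_cases hi : i = k
    · subst hi
      exact GObj.map_c (fun _ : Fin 1 => i) _ _ (ggen1 pt A) y 0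
    · exact GObj.map_c' (fun _ : Fin 1 => k) _ _ (ggen1 pt A) y i
        (by rintro ⟨_, h⟩; exact hi h.symm)
  have eh : ∀ k y i, (e k).h y i = Polynomial.C (A n y i k) := by
    intro k y i
    by_cases hi : i = k
    · subst hi
      have h2 : A 1 (y ∘ fun _ : Fin 1 => i) 0 0 = A n y i i :=
        (hA 1 n _ (isMor_one s n i) y 0 0).symm
      rw [← h2]
      exact GObj.map_h (fun _ : Fin 1 => i) _ _ (ggen0 pt A) y 0
    · refine (GObj.map_h' (fun _ : Fin 1 => k) _ _ (ggen0 pt A) y i
        (by rintro ⟨_, h⟩; exact hi h.symm)).trans ?_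
      simp [ggen0]
  have fh : ∀ k y i, (f k).h y i = if i = k then Polynomial.X else 0 := by
    intro k y i
    by_cases hi : i = k
    · subst hi
      rw [if_pos rfl]
      exact GObj.map_h (fun _ : Fin 1 => i) _ _ (ggen1 pt A) y 0
    · rw [if_neg hi]
      refine (GObj.map_h' (fun _ : Fin 1 => k) _ _ (ggen1 pt A) y i
        (by rintro ⟨_, h⟩; exact hi h.symm)).trans ?_
      simp [ggen1]
  have key : v = ∑ y, ∑ k, (δ y * C (v.c y k) : PolyAlg K (r + 1) n) • e k +
      ∑ y, ∑ k, (δ y * glft r n k (v.h y k).divX) • f k := by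
    refine GObj.ext (fun y i => ?_) (fun y i => ?_)
    · have h3 : ∀ y', ev0 pt y (δ y') = if y = y' then 1 else 0 := by
        intro y'
        rw [← ev1_coeff_zero pt y i, hδ]
        split_ifs <;> simp
      have h4 : ∀ a : K, ev0 pt y (C a : PolyAlg K (r + 1) n) = a := by
        intro a; simp [ev0]
      have h5 : cHom pt A y i (∑ y, ∑ k, (δ y * C (v.c y k) : PolyAlg K (r + 1) n) • e k +
          ∑ y, ∑ k, (δ y * glft r n k (v.h y k).divX) • f k) = v.c y i := by
        rw [map_add, map_sum, map_sum]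
        simp only [map_sum]
        change ∑ y', ∑ k, ((δ y' * C (v.c y' k) : PolyAlg K (r + 1) n) • e k).c y i +
          ∑ y', ∑ k, ((δ y' * glft r n k (v.h y' k).divX) • f k).c y i = _
        simp [ec, fc, h3, h4]
      exact h5.symm
    · have h4 : ∀ a : K, ev1 pt y i (C a : PolyAlg K (r + 1) n) = Polynomial.C a := by
        intro a; simp [ev1]
      have h5 : hHom pt A y i (∑ y, ∑ k, (δ y * C (v.c y k) : PolyAlg K (r + 1) n) • e k +
          ∑ y, ∑ k, (δ y * glft r n k (v.h y k).divX) • f k) =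
          ∑ y', ∑ k, ((δ y' * C (v.c y' k) : PolyAlg K (r + 1) n) • e k).h y i +
          ∑ y', ∑ k, ((δ y' * glft r n k (v.h y' k).divX) • f k).h y i := by
        rw [map_add, map_sum, map_sum]
        simp only [map_sum]
        rfl
      refine Eq.trans ?_ h5.symm
      simp only [GObj.h_smul, eh, fh, map_mul, hδ, h4]
      have h6 : ∑ y', ∑ k, ((if y = y' then 1 else 0) * ev1 pt y i (glft r n k (v.h y' k).divX)) *
          (if i = k then Polynomial.X else 0) = (v.h y i).divX * Polynomial.X := by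
        rw [Finset.sum_eq_single y (by
          intro y' _ hy'
          simp [Ne.symm hy']) (by simp), Finset.sum_eq_single i (by
          intro k _ hk
          rw [if_neg (Ne.symm hk), mul_zero]) (by simp), if_pos rfl, one_mul, ev1_glft,
          if_pos rfl]
      have h7 : ∑ y', ∑ k, (((if y = y' then 1 else 0) * Polynomial.C (v.c y' k)) *
          Polynomial.C (A n y i k) : Polynomial K) = Polynomial.C ((v.h y i).coeff 0) := by
        rw [Finset.sum_eq_single y (by
          intro y' _ hy'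
          simp [Ne.symm hy']) (by simp), v.rel, map_sum]
        refine Finset.sum_congr rfl fun k _ => ?_
        rw [if_pos rfl, one_mul, ← map_mul, mul_comm]
      rw [h6, h7, add_comm]
      exact (v.h y i).divX_mul_X_add.symm
  rw [key]
  exact N.add_mem (N.sum_mem fun y _ => N.sum_mem fun k _ => N.smul_mem _ (h0 k))
    (N.sum_mem fun y _ => N.sum_mem fun k _ => N.smul_mem _ (h1 k))

variable (A) (pt)

lemma gmodel_fg [Finite V] (hd : ∀ v : V, ∃ d : MvPolynomial (Fin r) K,
    eval (pt v) d = 1 ∧ ∀ w, w ≠ v → eval (pt w) d = 0) (s : Shape)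
    (hA : ∀ (m n : ℕ) (f : Fin m → Fin n), s.IsMor f → ∀ y i j,
      A n y (f i) (f j) = A m (y ∘ f) i j) :
    (gmodel pt A s hA).FG := by
  classical
  refine ⟨{⟨1, ggen0 pt A⟩, ⟨1, ggen1 pt A⟩}, fun N hN hG n => ?_⟩
  rw [Submodule.eq_top_iff']
  intro v
  have h0 := hG ⟨1, ggen0 pt A⟩ (by simp)
  have h1 := hG ⟨1, ggen1 pt A⟩ (by simp)
  exact gmem_of_gens hd hA n (N n) (fun k => hN 1 n _ (isMor_one s n k) _ h0)
    (fun k => hN 1 n _ (isMor_one s n k) _ h1) v

/-- The sign of a truth value. -/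
def sg (K : Type u) [Field K] (b : Bool) : K := if b then 1 else -1

/-- The matrix `J + diag(ε)`. -/
def jpe (K : Type u) [Field K] (n : ℕ) (y : Fin n → Bool) (i j : Fin n) : K :=
  if i = j then 1 + sg K (y i) else 1

lemma jpe_nat (s : Shape) (m n : ℕ) (f : Fin m → Fin n) (hf : s.IsMor f) (y : Fin n → Bool)
    (i j : Fin m) : jpe K n y (f i) (f j) = jpe K m (y ∘ f) i j := by
  simp [jpe, hf.injective.eq_iff]

lemma jpe_apply (n : ℕ) (y : Fin n → Bool) (c : Fin n → K) (i : Fin n) :
    mvm (jpe K n y) c i = (∑ j, c j) + sg K (y i) * c i := by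
  classical
  change ∑ j, jpe K n y i j * c j = _
  rw [← Finset.sum_erase_add _ _ (Finset.mem_univ i),
    ← Finset.sum_erase_add _ c (Finset.mem_univ i)]
  have : ∑ x ∈ Finset.univ.erase i, jpe K n y i x * c x = ∑ x ∈ Finset.univ.erase i, c x := by
    refine Finset.sum_congr rfl fun x hx => ?_
    have : i ≠ x := (Finset.ne_of_mem_erase hx).symm
    simp [jpe, this]
  rw [this]
  simp [jpe]
  ring

lemma sg_mul_self (b : Bool) : sg K b * sg K b = 1 := by
  cases b <;> simp [sg]

lemma jpe_inj (n : ℕ) (y : Fin n → Bool) (hn : 1 + ∑ i, sg K (y i) ≠ 0) :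
    Function.Injective (mvm (jpe K n y)) := by
  rw [injective_iff_map_eq_zero]
  intro c hc
  have h : ∀ i, c i = - (sg K (y i) * ∑ j, c j) := fun i => by
    have := congrFun hc i
    rw [jpe_apply, Pi.zero_apply] at this
    have h2 : sg K (y i) * ((∑ j, c j) + sg K (y i) * c i) = 0 := by rw [this, mul_zero]
    rw [mul_add, ← mul_assoc, sg_mul_self, one_mul] at h2
    exact eq_neg_of_add_eq_zero_right h2
  have hs : (1 + ∑ i, sg K (y i)) * (∑ j, c j) = 0 := by
    have : ∑ i, c i = - ((∑ i, sg K (y i)) * ∑ j, c j) := by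
      conv_lhs => rw [Finset.sum_congr rfl fun i _ => h i]
      rw [Finset.sum_neg_distrib, Finset.sum_mul]
    linear_combination this
  have h0 := (mul_eq_zero.mp hs).resolve_left hn
  funext i
  rw [h i, h0, mul_zero, neg_zero]
  rfl

lemma jpe_not_inj (n : ℕ) (y : Fin n → Bool) (hn0 : 0 < n) (hn : 1 + ∑ i, sg K (y i) = 0) :
    ¬ Function.Injective (mvm (jpe K n y)) := by
  rw [injective_iff_map_eq_zero]
  push Not
  refine ⟨fun i => sg K (y i), ?_, ?_⟩
  · funext i
    rw [jpe_apply, sg_mul_self, Pi.zero_apply, add_comm]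
    exact hn
  · intro h
    have h1 : sg K (y ⟨0, hn0⟩) = 0 := congrFun h ⟨0, hn0⟩
    have h2 := sg_mul_self (K := K) (y ⟨0, hn0⟩)
    rw [h1] at h2
    simp at h2

lemma sum_sg_int (n : ℕ) (y : Fin n → Bool) : ∃ k : ℤ, ∑ i, sg K (y i) = ((n + 2 * k : ℤ) : K) := by
  classical
  have : ∀ t : Finset (Fin n), ∃ k : ℤ, ∑ i ∈ t, sg K (y i) = ((t.card + 2 * k : ℤ) : K) := by
    intro t
    induction t using Finset.induction_on with
    | empty => exact ⟨0, by simp⟩
    | insert a t ha ih =>
      obtain ⟨k, hk⟩ := ih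
      rw [Finset.sum_insert ha, hk, Finset.card_insert_of_notMem ha]
      cases y a
      · exact ⟨k - 1, by simp [sg]; ring⟩
      · exact ⟨k, by simp [sg]; ring⟩
  obtain ⟨k, hk⟩ := this Finset.univ
  exact ⟨k, by simpa using hk⟩

lemma jpe_even [CharZero K] (n : ℕ) (hn : Even n) (y : Fin n → Bool) :
    Function.Injective (mvm (jpe K n y)) := by
  apply jpe_inj
  obtain ⟨k, hk⟩ := sum_sg_int (K := K) n y
  rw [hk]
  have : (1 : K) + ((n + 2 * k : ℤ) : K) = ((1 + (n + 2 * k) : ℤ) : K) := by push_cast; ring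
  rw [this, Int.cast_ne_zero]
  obtain ⟨m, rfl⟩ := hn
  push_cast
  omega

lemma jpe_odd (n : ℕ) (hn : Odd n) : ∃ y : Fin n → Bool,
    ¬ Function.Injective (mvm (jpe K n y)) := by
  refine ⟨fun i => decide (Odd (i : ℕ)), jpe_not_inj n _ hn.pos ?_⟩
  have h1 : ∀ i : Fin n, sg K (decide (Odd (i : ℕ))) = - (-1) ^ (i : ℕ) := by
    intro i
    by_cases h : Odd (i : ℕ)
    · simp [sg, h, h.neg_one_pow]
    · have h' : Even (i : ℕ) := Nat.not_odd_iff_even.mp h
      simp [sg, h, h'.neg_one_pow]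
  simp only [h1]
  rw [Finset.sum_neg_distrib, sum_alt, if_neg (Nat.not_even_iff_odd.mpr hn)]
  ring

end Pool.Agent.R830.OIM
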