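import Pool.Agent.R830.OIM.PdQ

/-!
Projective dimension of quotients of polynomial rings by translated variables `x_s - t_s`.
-/

namespace Pool.Agent.R830.OIM

open CategoryTheory Abelian MvPolynomial

universe u

variable {K : Type u} [Field K] {σ : Type}

/-- The ideal generated by the `x_s - t_s`, `s ∈ S`. -/
noncomputable def IT (S : Set σ) (t : σ → K) : Ideal (MvPolynomial σ K) :=
  Ideal.span ((fun s => X s - C (t s)) '' S)

/-- The quotient of the polynomial ring by the `x_s - t_s`, `s ∈ S`. -/
abbrev QT (S : Set σ) (t : σ → K) : Type u := MvPolynomial σ K ⧸ IT S t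

/-- Translation. -/
noncomputable def tr (t : σ → K) : MvPolynomial σ K →ₐ[K] MvPolynomial σ K :=
  aeval (fun s => X s + C (t s))

lemma tr_neg (t : σ → K) (p : MvPolynomial σ K) : tr (fun s => - t s) (tr t p) = p := by
  have : (tr (fun s => - t s)).comp (tr t) = AlgHom.id K (MvPolynomial σ K) := by
    apply MvPolynomial.algHom_ext
    intro s
    simp [tr]
  exact congrArg (fun g => g p) this

lemma tr_mem (S : Set σ) (t : σ → K) (p : MvPolynomial σ K) :
    p ∈ IT S t ↔ tr t p ∈ Ideal.span (X '' S : Set (MvPolynomial σ K)) := by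
  constructor
  · intro hp
    have : IT S t ≤ (Ideal.span (X '' S : Set (MvPolynomial σ K))).comap (tr t) := by
      rw [IT, Ideal.span_le]
      rintro _ ⟨s, hs, rfl⟩
      have h1 : tr t (X s - C (t s)) = X s := by simp [tr]
      rw [SetLike.mem_coe, Ideal.mem_comap, h1]
      exact Ideal.subset_span ⟨s, hs, rfl⟩
    exact this hp
  · intro hp
    have : Ideal.span (X '' S : Set (MvPolynomial σ K)) ≤ (IT S t).comap (tr fun s => - t s) := by
      rw [Ideal.span_le]
      rintro _ ⟨s, hs, rfl⟩
      have h1 : tr (fun s => - t s) (X s) = X s - C (t s) := by simp [tr, sub_eq_add_neg]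
      rw [SetLike.mem_coe, Ideal.mem_comap, h1]
      exact Ideal.subset_span ⟨s, hs, rfl⟩
    have h2 := this hp
    rwa [Ideal.mem_comap, tr_neg] at h2

lemma sub_mul_mem {S : Set σ} {t : σ → K} {a : σ} (ha : a ∉ S) {p : MvPolynomial σ K}
    (h : (X a - C (t a)) * p ∈ IT S t) : p ∈ IT S t := by
  rw [tr_mem] at h ⊢
  apply X_mul_mem ha
  have : tr t (X a - C (t a)) = X a := by simp [tr]
  rwa [map_mul, this] at h

lemma QT_inj {S : Set σ} {t : σ → K} {a : σ} (ha : a ∉ S) (q : QT S t)
    (h : (X a - C (t a) : MvPolynomial σ K) • q = 0) : q = 0 := by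
  obtain ⟨p, rfl⟩ := Ideal.Quotient.mk_surjective q
  rw [Ideal.Quotient.eq_zero_iff_mem]
  apply sub_mul_mem ha
  rw [← Ideal.Quotient.eq_zero_iff_mem, map_mul]
  exact h

/-- The projection. -/
noncomputable def QTproj {S T : Set σ} (t : σ → K) (h : S ⊆ T) :
    QT S t →ₗ[MvPolynomial σ K] QT T t :=
  Submodule.mapQ _ _ LinearMap.id (by
    rw [Submodule.comap_id]
    exact Ideal.span_mono (Set.image_mono h))

lemma QTproj_mk {S T : Set σ} (t : σ → K) (h : S ⊆ T) (p : MvPolynomial σ K) :
    QTproj t h (Ideal.Quotient.mk _ p) = Ideal.Quotient.mk _ p := rfl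

lemma QTproj_surj {S T : Set σ} (t : σ → K) (h : S ⊆ T) : Function.Surjective (QTproj t h) := by
  intro q
  obtain ⟨p, rfl⟩ := Ideal.Quotient.mk_surjective q
  exact ⟨Ideal.Quotient.mk _ p, rfl⟩

lemma QTproj_ker {S : Set σ} {t : σ → K} {a : σ} (q : QT S t) :
    QTproj t (Set.subset_insert a S) q = 0 ↔
      ∃ q' : QT S t, (X a - C (t a) : MvPolynomial σ K) • q' = q := by
  constructor
  · intro h
    obtain ⟨p, rfl⟩ := Ideal.Quotient.mk_surjective q
    rw [QTproj_mk, Ideal.Quotient.eq_zero_iff_mem, IT, Set.image_insert_eq, Ideal.span_insert,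
      Ideal.mem_span_singleton_sup] at h
    obtain ⟨r, u, hu, rfl⟩ := h
    refine ⟨Ideal.Quotient.mk _ r, ?_⟩
    have hu' : (Ideal.Quotient.mk (IT S t)) u = 0 := Ideal.Quotient.eq_zero_iff_mem.mpr hu
    rw [map_add, hu', add_zero, mul_comm, map_mul]
    rfl
  · rintro ⟨q', rfl⟩
    obtain ⟨p, rfl⟩ := Ideal.Quotient.mk_surjective q'
    change Ideal.Quotient.mk _ ((X a - C (t a)) * p) = 0
    rw [Ideal.Quotient.eq_zero_iff_mem]
    exact Ideal.mul_mem_right _ _ (Ideal.subset_span ⟨a, Set.mem_insert _ _, rfl⟩)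

lemma QT_zero {S : Set σ} {t : σ → K} {a : σ} (ha : a ∈ S) (q : QT S t) :
    (X a - C (t a) : MvPolynomial σ K) • q = 0 := by
  obtain ⟨p, rfl⟩ := Ideal.Quotient.mk_surjective q
  change Ideal.Quotient.mk _ ((X a - C (t a)) * p) = 0
  rw [Ideal.Quotient.eq_zero_iff_mem]
  exact Ideal.mul_mem_right _ _ (Ideal.subset_span ⟨a, ha, rfl⟩)

lemma one_QT_ne (S : Set σ) (t : σ → K) : (Ideal.Quotient.mk _ 1 : QT S t) ≠ 0 := by
  classical
  rw [Ne, Ideal.Quotient.eq_zero_iff_mem, tr_mem, map_one, mem_ideal_span_X_image]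
  intro h
  obtain ⟨i, _, hi⟩ := h 0 (by simp)
  simp at hi

/-- `Ext^{|S|}(P/(x_s - t_s : s ∈ S), K_t) ≠ 0`. -/
lemma ext_QT (t : σ → K) (k : ℕ) : ∀ S : Finset σ, S.card = k →
    ∃ e : Ext (ModuleCat.of (MvPolynomial σ K) (QT (S : Set σ) t))
      (ModuleCat.of (MvPolynomial σ K) (QT (Set.univ : Set σ) t)) k, e ≠ 0 := by
  classical
  induction k with
  | zero =>
    intro S hS
    refine ⟨Ext.mk₀ (ModuleCat.ofHom (QTproj t (Set.subset_univ _))), fun h => ?_⟩
    rw [← Ext.mk₀_zero] at h
    have h1 := (Ext.mk₀_bijective _ _).1 h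
    have h2 := congrArg (fun f => f.hom (Ideal.Quotient.mk _ 1)) h1
    exact one_QT_ne (K := K) (Set.univ : Set σ) t h2
  | succ k ih =>
    intro S hS
    obtain ⟨a, ha⟩ : S.Nonempty := by
      rw [← Finset.card_pos]; omega
    have hT : (S.erase a).card = k := by rw [Finset.card_erase_of_mem ha, hS]; rfl
    have hins : (S : Set σ) = insert a ((S.erase a : Finset σ) : Set σ) := by
      rw [← Finset.coe_insert, Finset.insert_erase ha]
    rw [hins]
    exact ext_step (X a - C (t a) : MvPolynomial σ K) (fun l => QT_zero (Set.mem_univ a) l)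
      (fun m hm => QT_inj (by simp) m hm) (QTproj t (Set.subset_insert a _)) (QTproj_surj t _)
      (fun m => QTproj_ker m) k (ih _ hT)

/-- The projective dimension of `∏_i P/(x_s - t_{i,s} : s ∈ S_i)`, upper bound. -/
lemma pd_piT {ι : Type} [Fintype ι] (t : ι → σ → K) (k : ℕ) :
    ∀ S : ι → Finset σ, (∀ i, (S i).card = k) →
    HasProjectiveDimensionLT (ModuleCat.of (MvPolynomial σ K) ((i : ι) → QT (S i : Set σ) (t i)))
      (k + 1) := by
  classical
  induction k with
  | zero =>
    intro S hS
    rw [← projective_iff_hasProjectiveDimensionLT_one, ← IsProjective.iff_projective]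
    have h : ∀ i, (S i : Set σ) = ∅ := fun i => by
      rw [Finset.coe_eq_empty, ← Finset.card_eq_zero, hS i]
    have e : ∀ i, QT (S i : Set σ) (t i) ≃ₗ[MvPolynomial σ K] MvPolynomial σ K := fun i =>
      Submodule.quotEquivOfEqBot _ (by rw [IT, h i, Set.image_empty, Ideal.span_empty])
    exact Module.Projective.of_equiv (LinearEquiv.piCongrRight e).symm
  | succ k ih =>
    intro S hS
    have hne : ∀ i, (S i).Nonempty := fun i => by
      rw [← Finset.card_pos, hS i]; omega
    choose a ha using hne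
    have hT : ∀ i, ((S i).erase (a i)).card = k := fun i => by
      rw [Finset.card_erase_of_mem (ha i), hS i]; rfl
    have hins : (fun i => (S i : Set σ)) =
        fun i => insert (a i) (((S i).erase (a i) : Finset σ) : Set σ) := by
      funext i
      rw [← Finset.coe_insert, Finset.insert_erase (ha i)]
    have key := pd_step (R := MvPolynomial σ K)
      (M := (i : ι) → QT (((S i).erase (a i) : Finset σ) : Set σ) (t i))
      (N := (i : ι) → QT (insert (a i) (((S i).erase (a i) : Finset σ) : Set σ)) (t i))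
      (LinearMap.pi fun i => (LinearMap.lsmul (MvPolynomial σ K) _
        (X (a i) - C (t i (a i)))).comp (LinearMap.proj i))
      (LinearMap.pi fun i => (QTproj (t i) (Set.subset_insert (a i) _)).comp (LinearMap.proj i))
      (by
        rw [injective_iff_map_eq_zero]
        intro q hq
        funext i
        exact QT_inj (by simp) _ (congrFun hq i))
      (by
        intro q
        choose r hr using fun i => QTproj_surj (t i)
          (Set.subset_insert (a i) (((S i).erase (a i) : Finset σ) : Set σ)) (q i)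
        exact ⟨r, funext hr⟩)
      (by
        intro q
        constructor
        · intro h
          choose r hr using fun i => (QTproj_ker (q i)).mp (congrFun h i)
          exact ⟨r, funext hr⟩
        · rintro ⟨r, rfl⟩
          funext i
          exact (QTproj_ker _).mpr ⟨r i, rfl⟩)
      (k + 1) (ih _ hT)
    have e : ((i : ι) → QT (insert (a i) (((S i).erase (a i) : Finset σ) : Set σ)) (t i))
        ≃ₗ[MvPolynomial σ K] ((i : ι) → QT (S i : Set σ) (t i)) :=
      LinearEquiv.piCongrRight fun i => Submodule.quotEquivOfEq _ _ (by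
        rw [show (S i : Set σ) = _ from congrFun hins i])
    exact hasProjectiveDimensionLT_of_iso e.toModuleIso _

end Pool.Agent.R830.OIM
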