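import Pool.Agent.R830.OIM.Fg
import Pool.Agent.R830.OIM.PdT

/-!
A more general model: a finite set `V` of values for `r` extra rows of variables, and matrices
depending on the values.
-/

namespace Pool.Agent.R830.OIM

open MvPolynomial

universe u

variable {K : Type u} [Field K] {r : ℕ} {V : Type} (pt : V → Fin r → K)

/-- The coordinates of the point `y`. -/
def tpt {n : ℕ} (y : Fin n → V) : Fin (r + 1) × Fin n → K :=
  fun v => Fin.cases 0 (fun k => pt (y v.2) k) v.1

@[simp] lemma tpt_zero {n : ℕ} (y : Fin n → V) (j : Fin n) : tpt pt y (0, j) = 0 := rfl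

@[simp] lemma tpt_succ {n : ℕ} (y : Fin n → V) (k : Fin r) (j : Fin n) :
    tpt pt y (k.succ, j) = pt (y j) k := rfl

/-- Evaluation at the point `y`. -/
noncomputable def ev0 {n : ℕ} (y : Fin n → V) : PolyAlg K (r + 1) n →ₐ[K] K :=
  aeval (tpt pt y)

/-- Evaluation on the `i`-th axis through the point `y`. -/
noncomputable def ev1 {n : ℕ} (y : Fin n → V) (i : Fin n) :
    PolyAlg K (r + 1) n →ₐ[K] Polynomial K :=
  aeval (fun v => if v = (0, i) then Polynomial.X else Polynomial.C (tpt pt y v))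

lemma ev1_coeff_zero {n : ℕ} (y : Fin n → V) (i : Fin n) (p : PolyAlg K (r + 1) n) :
    (ev1 pt y i p).coeff 0 = ev0 pt y p := by
  induction p using MvPolynomial.induction_on with
  | C a => simp [ev1, ev0]
  | add p q hp hq => simp [hp, hq]
  | mul_X p v hp =>
    simp only [map_mul, Polynomial.mul_coeff_zero, hp]
    congr 1
    by_cases h : v = (0, i)
    · subst h
      simp [ev1, ev0]
    · simp [ev1, ev0, h]

lemma tpt_comp {m n : ℕ} (f : Fin m → Fin n) (y : Fin n → V) (v : Fin (r + 1) × Fin m) :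
    tpt pt y (v.1, f v.2) = tpt pt (y ∘ f) v := rfl

lemma ev1_rename {m n : ℕ} {f : Fin m → Fin n} (hf : Function.Injective f) (y : Fin n → V)
    (i : Fin m) (p : PolyAlg K (r + 1) m) :
    ev1 pt y (f i) (polyMap K (r + 1) f p) = ev1 pt (y ∘ f) i p := by
  have : (ev1 pt y (f i)).comp (polyMap K (r + 1) f) = ev1 pt (y ∘ f) i := by
    apply MvPolynomial.algHom_ext
    intro v
    have h1 : ((v.1, f v.2) = ((0 : Fin (r + 1)), f i)) ↔ (v = (0, i)) := by
      rw [Prod.ext_iff, Prod.ext_iff]
      simp [hf.eq_iff]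
    simp [ev1, polyMap, h1, tpt_comp]
  exact congrArg (fun g => g p) this

lemma ev0_rename {m n : ℕ} (f : Fin m → Fin n) (y : Fin n → V) (p : PolyAlg K (r + 1) m) :
    ev0 pt y (polyMap K (r + 1) f p) = ev0 pt (y ∘ f) p := by
  have : (ev0 pt y).comp (polyMap K (r + 1) f) = ev0 pt (y ∘ f) := by
    apply MvPolynomial.algHom_ext
    intro v
    simp [ev0, polyMap, tpt_comp]
  exact congrArg (fun g => g p) this

lemma ev1_rename_of_not {m n : ℕ} {f : Fin m → Fin n} (y : Fin n → V) (j : Fin n)
    (hj : ∀ i, f i ≠ j) (p : PolyAlg K (r + 1) m) :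
    ev1 pt y j (polyMap K (r + 1) f p) = Polynomial.C (ev0 pt (y ∘ f) p) := by
  induction p using MvPolynomial.induction_on with
  | C a => simp [ev1, ev0, polyMap]
  | add p q hp hq => simp [hp, hq]
  | mul_X p v hp =>
    have h1 : ¬ ((v.1, f v.2) = ((0 : Fin (r + 1)), j)) := by
      rw [Prod.ext_iff]
      simp [hj]
    have h2 : ev1 pt y j (polyMap K (r + 1) f (X v)) = Polynomial.C (ev0 pt (y ∘ f) (X v)) := by
      simp [ev1, ev0, polyMap, h1, tpt_comp]
    rw [map_mul, map_mul, hp, h2, ← map_mul, ← map_mul]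

variable {pt}
variable (A : (n : ℕ) → (Fin n → V) → Fin n → Fin n → K)

/-- The underlying additive group in width `n`. -/
def gcarr (n : ℕ) : AddSubgroup (((Fin n → V) → Fin n → K) ×
    ((Fin n → V) → Fin n → Polynomial K)) where
  carrier := {v | ∀ y i, (v.2 y i).coeff 0 = ∑ j, A n y i j * v.1 y j}
  zero_mem' := by
    intro y i
    simp
  add_mem' := by
    intro v w hv hw y i
    simp only [Prod.snd_add, Pi.add_apply, Polynomial.coeff_add, Prod.fst_add, mul_add,
      Finset.sum_add_distrib]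
    rw [hv y i, hw y i]
  neg_mem' := by
    intro v hv y i
    simp only [Prod.snd_neg, Pi.neg_apply, Polynomial.coeff_neg, Prod.fst_neg, mul_neg,
      Finset.sum_neg_distrib]
    rw [hv y i]

/-- The underlying type in width `n`. -/
def GObj (_ : V → Fin r → K) (n : ℕ) : Type u := ↥(gcarr A n)

variable (pt)

noncomputable instance (n : ℕ) : AddCommGroup (GObj A pt n) :=
  inferInstanceAs (AddCommGroup ↥(gcarr A n))

variable {A} {pt}

/-- The two components. -/
def GObj.c {n : ℕ} (v : GObj A pt n) : (Fin n → V) → Fin n → K := (Subtype.val v : _ × _).1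

/-- The two components. -/
def GObj.h {n : ℕ} (v : GObj A pt n) : (Fin n → V) → Fin n → Polynomial K :=
  (Subtype.val v : _ × _).2

lemma GObj.rel {n : ℕ} (v : GObj A pt n) (y : Fin n → V) (i : Fin n) :
    (v.h y i).coeff 0 = ∑ j, A n y i j * v.c y j :=
  v.2 y i

/-- Constructor. -/
def GObj.mk {n : ℕ} (c : (Fin n → V) → Fin n → K) (h : (Fin n → V) → Fin n → Polynomial K)
    (hr : ∀ y i, (h y i).coeff 0 = ∑ j, A n y i j * c y j) : GObj A pt n := ⟨(c, h), hr⟩

lemma GObj.ext {n : ℕ} {v w : GObj A pt n} (h1 : ∀ y i, v.c y i = w.c y i)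
    (h2 : ∀ y i, v.h y i = w.h y i) : v = w := by
  have e1 : v.c = w.c := by
    funext y i
    exact h1 y i
  have e2 : v.h = w.h := by
    funext y i
    exact h2 y i
  exact Subtype.ext (Prod.ext e1 e2)

@[simp] lemma GObj.c_mk {n : ℕ} (c : (Fin n → V) → Fin n → K)
    (h : (Fin n → V) → Fin n → Polynomial K) (hr) :
    (GObj.mk (A := A) (pt := pt) c h hr).c = c := rfl

@[simp] lemma GObj.h_mk {n : ℕ} (c : (Fin n → V) → Fin n → K)
    (h : (Fin n → V) → Fin n → Polynomial K) (hr) :
    (GObj.mk (A := A) (pt := pt) c h hr).h = h := rfl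

@[simp] lemma GObj.c_zero {n : ℕ} : (0 : GObj A pt n).c = 0 := rfl
@[simp] lemma GObj.h_zero {n : ℕ} : (0 : GObj A pt n).h = 0 := rfl
@[simp] lemma GObj.c_add {n : ℕ} (v w : GObj A pt n) : (v + w).c = v.c + w.c := rfl
@[simp] lemma GObj.h_add {n : ℕ} (v w : GObj A pt n) : (v + w).h = v.h + w.h := rfl

noncomputable instance (n : ℕ) : SMul (PolyAlg K (r + 1) n) (GObj A pt n) where
  smul p v := GObj.mk (fun y i => ev0 pt y p * v.c y i) (fun y i => ev1 pt y i p * v.h y i) (by
    intro y i
    rw [Polynomial.mul_coeff_zero, ev1_coeff_zero, v.rel, Finset.mul_sum]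
    exact Finset.sum_congr rfl fun j _ => by ring)

@[simp] lemma GObj.c_smul {n : ℕ} (p : PolyAlg K (r + 1) n) (v : GObj A pt n) (y : Fin n → V)
    (i : Fin n) : (p • v).c y i = ev0 pt y p * v.c y i := rfl
@[simp] lemma GObj.h_smul {n : ℕ} (p : PolyAlg K (r + 1) n) (v : GObj A pt n) (y : Fin n → V)
    (i : Fin n) : (p • v).h y i = ev1 pt y i p * v.h y i := rfl

noncomputable instance (n : ℕ) : Module (PolyAlg K (r + 1) n) (GObj A pt n) where
  one_smul v := GObj.ext (fun y i => by simp) (fun y i => by simp)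
  mul_smul p q v := GObj.ext (fun y i => by simp [mul_assoc]) (fun y i => by simp [mul_assoc])
  smul_zero p := GObj.ext (fun y i => by simp) (fun y i => by simp)
  smul_add p v w := GObj.ext (fun y i => by simp [mul_add]) (fun y i => by simp [mul_add])
  add_smul p q v := GObj.ext (fun y i => by simp [add_mul]) (fun y i => by simp [add_mul])
  zero_smul v := GObj.ext (fun y i => by simp) (fun y i => by simp)

open Classical in
/-- The transition maps. -/
noncomputable def GObj.map {m n : ℕ} (f : Fin m → Fin n) (hf : Function.Injective f)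
    (hA : ∀ y i j, A n y (f i) (f j) = A m (y ∘ f) i j) : GObj A pt m →+ GObj A pt n where
  toFun v := GObj.mk (fun y => Function.extend f (v.c (y ∘ f)) 0)
    (fun y => Function.extend f (v.h (y ∘ f))
      (fun j => Polynomial.C (∑ k, A n y j (f k) * v.c (y ∘ f) k))) (by
      intro y j
      rw [sum_extend hf]
      by_cases hj : ∃ i, f i = j
      · obtain ⟨i, rfl⟩ := hj
        rw [hf.extend_apply, v.rel]
        exact Finset.sum_congr rfl fun k _ => by rw [hA]
      · rw [Function.extend_apply' _ _ _ hj]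
        simp)
  map_zero' := by
    refine GObj.ext (fun y j => ?_) (fun y j => ?_)
    · by_cases hj : ∃ i, f i = j
      · obtain ⟨i, rfl⟩ := hj
        simp [hf.extend_apply]
      · simp [Function.extend_apply' _ _ _ hj]
    · by_cases hj : ∃ i, f i = j
      · obtain ⟨i, rfl⟩ := hj
        simp [hf.extend_apply]
      · simp [Function.extend_apply' _ _ _ hj]
  map_add' v w := by
    refine GObj.ext (fun y j => ?_) (fun y j => ?_)
    · by_cases hj : ∃ i, f i = j
      · obtain ⟨i, rfl⟩ := hj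
        simp [hf.extend_apply]
      · simp [Function.extend_apply' _ _ _ hj]
    · by_cases hj : ∃ i, f i = j
      · obtain ⟨i, rfl⟩ := hj
        simp [hf.extend_apply]
      · simp [Function.extend_apply' _ _ _ hj, mul_add, Finset.sum_add_distrib]

lemma GObj.map_c {m n : ℕ} (f : Fin m → Fin n) (hf : Function.Injective f)
    (hA : ∀ y i j, A n y (f i) (f j) = A m (y ∘ f) i j) (v : GObj A pt m) (y : Fin n → V)
    (i : Fin m) : (GObj.map f hf hA v).c y (f i) = v.c (y ∘ f) i := by
  change Function.extend f (v.c (y ∘ f)) 0 (f i) = _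
  rw [hf.extend_apply]

lemma GObj.map_c' {m n : ℕ} (f : Fin m → Fin n) (hf : Function.Injective f)
    (hA : ∀ y i j, A n y (f i) (f j) = A m (y ∘ f) i j) (v : GObj A pt m) (y : Fin n → V)
    (j : Fin n) (hj : ¬ ∃ i, f i = j) : (GObj.map f hf hA v).c y j = 0 := by
  change Function.extend f (v.c (y ∘ f)) 0 j = _
  rw [Function.extend_apply' _ _ _ hj]
  rfl

lemma GObj.map_h {m n : ℕ} (f : Fin m → Fin n) (hf : Function.Injective f)
    (hA : ∀ y i j, A n y (f i) (f j) = A m (y ∘ f) i j) (v : GObj A pt m) (y : Fin n → V)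
    (i : Fin m) : (GObj.map f hf hA v).h y (f i) = v.h (y ∘ f) i := by
  change Function.extend f (v.h (y ∘ f))
    (fun j => Polynomial.C (∑ k, A n y j (f k) * v.c (y ∘ f) k)) (f i) = _
  rw [hf.extend_apply]

lemma GObj.map_h' {m n : ℕ} (f : Fin m → Fin n) (hf : Function.Injective f)
    (hA : ∀ y i j, A n y (f i) (f j) = A m (y ∘ f) i j) (v : GObj A pt m) (y : Fin n → V)
    (j : Fin n) (hj : ¬ ∃ i, f i = j) :
    (GObj.map f hf hA v).h y j = Polynomial.C (∑ k, A n y j (f k) * v.c (y ∘ f) k) := by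
  change Function.extend f (v.h (y ∘ f))
    (fun j => Polynomial.C (∑ k, A n y j (f k) * v.c (y ∘ f) k)) j = _
  rw [Function.extend_apply' _ _ _ hj]

variable (A) (pt)

/-- The OI- or FI-module attached to a natural family of matrices. -/
noncomputable def gmodel (s : Shape)
    (hA : ∀ (m n : ℕ) (f : Fin m → Fin n), s.IsMor f → ∀ y i j,
      A n y (f i) (f j) = A m (y ∘ f) i j) :
    PMod K s (r + 1) where
  obj := GObj A pt
  map f hf := GObj.map f hf.injective (hA _ _ f hf)
  map_id n h u := by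
    refine GObj.ext (fun y i => ?_) (fun y i => ?_)
    · exact GObj.map_c (A := A) id h.injective (hA _ _ id h) u y i
    · exact GObj.map_h (A := A) id h.injective (hA _ _ id h) u y i
  map_comp {l m n} f g hf hg hgf u := by
    refine GObj.ext (fun y j => ?_) (fun y j => ?_)
    · by_cases hj : ∃ i, g i = j
      · obtain ⟨i, rfl⟩ := hj
        rw [GObj.map_c]
        by_cases hi : ∃ k, f k = i
        · obtain ⟨k, rfl⟩ := hi
          rw [GObj.map_c]
          exact GObj.map_c (A := A) (g ∘ f) hgf.injective (hA _ _ _ hgf) u y k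
        · rw [GObj.map_c' _ _ _ _ _ _ hi, GObj.map_c']
          rintro ⟨k, hk⟩
          exact hi ⟨k, hg.injective hk⟩
      · rw [GObj.map_c' _ _ _ _ _ _ hj, GObj.map_c']
        rintro ⟨k, hk⟩
        exact hj ⟨_, hk⟩
    · by_cases hj : ∃ i, g i = j
      · obtain ⟨i, rfl⟩ := hj
        rw [GObj.map_h]
        by_cases hi : ∃ k, f k = i
        · obtain ⟨k, rfl⟩ := hi
          rw [GObj.map_h]
          exact GObj.map_h (A := A) (g ∘ f) hgf.injective (hA _ _ _ hgf) u y k
        · rw [GObj.map_h' _ _ _ _ _ _ hi, GObj.map_h']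
          · refine congrArg _ (Finset.sum_congr rfl fun k _ => ?_)
            rw [Function.comp_apply, hA _ _ g hg]
            rfl
          · rintro ⟨k, hk⟩
            exact hi ⟨k, hg.injective hk⟩
      · rw [GObj.map_h' _ _ _ _ _ _ hj, GObj.map_h']
        · exact congrArg _ (sum_extend (K := K) (f := f) hf.injective (fun i => A n y j (g i))
            (u.c (y ∘ (g ∘ f)))).symm
        · rintro ⟨k, hk⟩
          exact hj ⟨_, hk⟩
  map_smul {m n} f hf p u := by
    refine GObj.ext (fun y j => ?_) (fun y j => ?_)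
    · by_cases hj : ∃ i, f i = j
      · obtain ⟨i, rfl⟩ := hj
        rw [GObj.map_c, GObj.c_smul, GObj.c_smul, GObj.map_c, ev0_rename]
      · rw [GObj.map_c' _ _ _ _ _ _ hj, GObj.c_smul, GObj.map_c' _ _ _ _ _ _ hj, mul_zero]
    · by_cases hj : ∃ i, f i = j
      · obtain ⟨i, rfl⟩ := hj
        rw [GObj.map_h, GObj.h_smul, GObj.h_smul, GObj.map_h, ev1_rename _ hf.injective]
      · rw [GObj.map_h' _ _ _ _ _ _ hj, GObj.h_smul, GObj.map_h' _ _ _ _ _ _ hj,
          ev1_rename_of_not _ y j (fun i hi => hj ⟨i, hi⟩), ← map_mul, Finset.mul_sum]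
        exact congrArg _ (Finset.sum_congr rfl fun k _ => by rw [GObj.c_smul]; ring)

end Pool.Agent.R830.OIM
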