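import Pool.Agent.R830.OIM.GModel

/-!
The projective dimension of the general model modules.
-/

namespace Pool.Agent.R830.OIM

open CategoryTheory Abelian MvPolynomial

universe u

variable {K : Type u} [Field K] {r : ℕ} {V : Type} {pt : V → Fin r → K}

/-- Lifting a polynomial in one variable to the `i`-th axis. -/
noncomputable def glft (r : ℕ) (n : ℕ) (i : Fin n) : Polynomial K →ₐ[K] PolyAlg K (r + 1) n :=
  Polynomial.aeval (X (0, i))

lemma ev1_glft {n : ℕ} (y : Fin n → V) (i : Fin n) (q : Polynomial K) :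
    ev1 pt y i (glft r n i q) = q := by
  have : (ev1 pt y i).comp (glft r n i) = AlgHom.id K (Polynomial K) := by
    apply Polynomial.algHom_ext
    simp [ev1, glft]
  exact congrArg (fun g => g q) this

/-- The variables other than `x_{0,i}`. -/
def goth (r : ℕ) (n : ℕ) (i : Fin n) : Finset (Fin (r + 1) × Fin n) := Finset.univ.erase (0, i)

lemma goth_card (n : ℕ) (i : Fin n) : (goth r n i).card = (r + 1) * n - 1 := by
  rw [goth, Finset.card_erase_of_mem (Finset.mem_univ _)]
  simp

lemma ev1_mem {n : ℕ} (y : Fin n → V) (i : Fin n) (p : PolyAlg K (r + 1) n)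
    (hp : p ∈ IT (goth r n i : Set (Fin (r + 1) × Fin n)) (tpt pt y)) : ev1 pt y i p = 0 := by
  have : IT (goth r n i : Set (Fin (r + 1) × Fin n)) (tpt pt y) ≤
      RingHom.ker (ev1 pt y i).toRingHom := by
    rw [IT, Ideal.span_le]
    rintro _ ⟨v, hv, rfl⟩
    have hv' : v ≠ (0, i) := by simpa [goth] using hv
    change ev1 pt y i (X v - C (tpt pt y v)) = 0
    simp [ev1, hv']
  exact this hp

lemma sub_glft_mem {n : ℕ} (y : Fin n → V) (i : Fin n) (p : PolyAlg K (r + 1) n) :
    p - glft r n i (ev1 pt y i p) ∈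
      IT (goth r n i : Set (Fin (r + 1) × Fin n)) (tpt pt y) := by
  induction p using MvPolynomial.induction_on with
  | C a => simp [ev1, glft]
  | add p q hp hq =>
    have : p + q - glft r n i (ev1 pt y i (p + q)) =
        (p - glft r n i (ev1 pt y i p)) + (q - glft r n i (ev1 pt y i q)) := by
      rw [map_add, map_add]; ring
    rw [this]
    exact Ideal.add_mem _ hp hq
  | mul_X p v hp =>
    by_cases hv : v = (0, i)
    · subst hv
      have : p * X (0, i) - glft r n i (ev1 pt y i (p * X (0, i))) =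
          X (0, i) * (p - glft r n i (ev1 pt y i p)) := by
        rw [map_mul, map_mul]
        simp [ev1, glft]
        ring
      rw [this]
      exact Ideal.mul_mem_left _ _ hp
    · have : p * X v - glft r n i (ev1 pt y i (p * X v)) =
          p * (X v - C (tpt pt y v)) + C (tpt pt y v) * (p - glft r n i (ev1 pt y i p)) := by
        rw [map_mul, map_mul]
        have h2 : glft r n i (ev1 pt y i (X v)) = C (tpt pt y v) := by
          simp [ev1, hv, glft]
        rw [h2]
        ring
      rw [this]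
      exact Ideal.add_mem _ (Ideal.mul_mem_left _ _ (Ideal.subset_span
        ⟨v, by simpa [goth] using hv, rfl⟩)) (Ideal.mul_mem_left _ _ hp)

/-- `P/(x_v - t_v : v ≠ (0,i)) → K[X]`. -/
noncomputable def evT {n : ℕ} (y : Fin n → V) (i : Fin n) :
    QT (goth r n i : Set (Fin (r + 1) × Fin n)) (tpt pt y) →+* Polynomial K :=
  Ideal.Quotient.lift _ (ev1 pt y i).toRingHom (fun p hp => ev1_mem y i p hp)

lemma evT_mk {n : ℕ} (y : Fin n → V) (i : Fin n) (p : PolyAlg K (r + 1) n) :
    evT (pt := pt) y i (Ideal.Quotient.mk _ p) = ev1 pt y i p := rfl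

lemma evT_inj {n : ℕ} (y : Fin n → V) (i : Fin n) : Function.Injective (evT (pt := pt) y i) := by
  rw [injective_iff_map_eq_zero]
  intro q hq
  obtain ⟨p, rfl⟩ := Ideal.Quotient.mk_surjective q
  rw [evT_mk] at hq
  rw [Ideal.Quotient.eq_zero_iff_mem]
  simpa [hq] using sub_glft_mem (pt := pt) y i p

lemma evT_smul {n : ℕ} (y : Fin n → V) (i : Fin n) (p : PolyAlg K (r + 1) n)
    (q : QT (goth r n i : Set (Fin (r + 1) × Fin n)) (tpt pt y)) :
    evT (pt := pt) y i (p • q) = ev1 pt y i p * evT (pt := pt) y i q := by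
  obtain ⟨w, rfl⟩ := Ideal.Quotient.mk_surjective q
  change evT (pt := pt) y i (Ideal.Quotient.mk _ (p * w)) = _
  rw [evT_mk, evT_mk, map_mul]

variable {A : (n : ℕ) → (Fin n → V) → Fin n → Fin n → K}

/-- A matrix as a linear map. -/
def mvm {n : ℕ} (a : Fin n → Fin n → K) : (Fin n → K) →ₗ[K] (Fin n → K) where
  toFun c i := ∑ j, a i j * c j
  map_add' c d := by
    funext i
    simp [mul_add, Finset.sum_add_distrib]
  map_smul' b c := by
    funext i
    simp only [Pi.smul_apply, smul_eq_mul, RingHom.id_apply, Finset.mul_sum]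
    exact Finset.sum_congr rfl fun j _ => by ring

/-- The axes embedding. -/
noncomputable def gtoAxes (pt : V → Fin r → K)
    (A : (n : ℕ) → (Fin n → V) → Fin n → Fin n → K) (n : ℕ) :
    GObj A pt n →ₗ[PolyAlg K (r + 1) n] ((z : (Fin n → V) × Fin n) →
      QT (goth r n z.2 : Set (Fin (r + 1) × Fin n)) (tpt pt z.1)) where
  toFun v z := Ideal.Quotient.mk _ (glft r n z.2 (v.h z.1 z.2))
  map_add' v w := by
    funext z
    simp
  map_smul' p v := by
    funext z
    apply evT_inj
    rw [RingHom.id_apply, Pi.smul_apply, evT_smul, evT_mk, evT_mk, ev1_glft, ev1_glft,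
      GObj.h_smul]

lemma evT_gtoAxes (n : ℕ) (v : GObj A pt n) (z : (Fin n → V) × Fin n) :
    evT (pt := pt) z.1 z.2 (gtoAxes pt A n v z) = v.h z.1 z.2 := by
  change evT (pt := pt) z.1 z.2 (Ideal.Quotient.mk _ (glft r n z.2 (v.h z.1 z.2))) = _
  rw [evT_mk, ev1_glft]

lemma gtoAxes_bij (n : ℕ) (hA : ∀ y, Function.Injective (mvm (A n y))) :
    Function.Bijective (gtoAxes pt A n) := by
  constructor
  · rw [injective_iff_map_eq_zero]
    intro v hv
    have h : ∀ y i, v.h y i = 0 := fun y i => by
      rw [← evT_gtoAxes n v (y, i), hv]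
      simp
    have hc : ∀ y, v.c y = 0 := by
      intro y
      apply hA y
      rw [map_zero]
      funext i
      change ∑ j, A n y i j * v.c y j = 0
      rw [← v.rel, h y i]
      simp
    refine GObj.ext (fun y i => ?_) (fun y i => ?_)
    · rw [hc y]; rfl
    · rw [h y i]; rfl
  · intro q
    have hs : ∀ y, Function.Surjective (mvm (A n y)) :=
      fun y => LinearMap.injective_iff_surjective.mp (hA y)
    choose c hc using fun y => hs y (fun i => (evT (pt := pt) y i (q (y, i))).coeff 0)
    refine ⟨GObj.mk c (fun y i => evT (pt := pt) y i (q (y, i)))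
      (fun y i => (congrFun (hc y) i).symm), ?_⟩
    funext z
    apply evT_inj
    rw [evT_gtoAxes]
    rfl

/-- Upper bound when all the matrices are invertible. -/
lemma gpd_le_of_inj [Finite V] (n : ℕ) (hA : ∀ y, Function.Injective (mvm (A n y))) :
    HasProjectiveDimensionLT (ModuleCat.of (PolyAlg K (r + 1) n) (GObj A pt n))
      ((r + 1) * n - 1 + 1) := by
  classical
  have : Fintype V := Fintype.ofFinite V
  have e := LinearEquiv.ofBijective _ (gtoAxes_bij (pt := pt) n hA)
  have := pd_piT (K := K) (ι := (Fin n → V) × Fin n) (fun z => tpt pt z.1) ((r + 1) * n - 1)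
    (fun z => goth r n z.2) (fun z => goth_card n z.2)
  exact hasProjectiveDimensionLT_of_iso e.symm.toModuleIso _

lemma sub_C_mem {n : ℕ} (y : Fin n → V) (S : Set (Fin (r + 1) × Fin n)) (hS : S = Set.univ)
    (p : PolyAlg K (r + 1) n) : p - C (ev0 pt y p) ∈ IT S (tpt pt y) := by
  induction p using MvPolynomial.induction_on with
  | C a => simp [ev0]
  | add p q hp hq =>
    have : p + q - C (ev0 pt y (p + q)) =
        (p - C (ev0 pt y p)) + (q - C (ev0 pt y q)) := by
      rw [map_add, map_add]; ring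
    rw [this]
    exact Ideal.add_mem _ hp hq
  | mul_X p v hp =>
    have : p * X v - C (ev0 pt y (p * X v)) =
        p * (X v - C (tpt pt y v)) + C (tpt pt y v) * (p - C (ev0 pt y p)) := by
      rw [map_mul, map_mul]
      have h2 : ev0 pt y (X v) = tpt pt y v := by simp [ev0]
      rw [h2]
      ring
    rw [this]
    exact Ideal.add_mem _ (Ideal.mul_mem_left _ _ (Ideal.subset_span
      ⟨v, by simp [hS], rfl⟩)) (Ideal.mul_mem_left _ _ hp)

/-- The `a`-th coordinate of the first component at `y`, as a map to the residue field. -/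
noncomputable def gtoK (pt : V → Fin r → K) (A : (n : ℕ) → (Fin n → V) → Fin n → Fin n → K)
    (n : ℕ) (y : Fin n → V) (S : Set (Fin (r + 1) × Fin n)) (hS : S = Set.univ) (t : K)
    (a : Fin n) : GObj A pt n →ₗ[PolyAlg K (r + 1) n] QT S (tpt pt y) where
  toFun v := Ideal.Quotient.mk _ (C (v.c y a * t))
  map_add' v w := by
    simp [add_mul]
  map_smul' p v := by
    simp only [GObj.c_smul, RingHom.id_apply]
    change _ = Ideal.Quotient.mk _ (p * C (v.c y a * t))
    rw [Ideal.Quotient.mk_eq_mk_iff_sub_mem]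
    have : C (ev0 pt y p * v.c y a * t) - p * C (v.c y a * t) =
        (- C (v.c y a * t)) * (p - C (ev0 pt y p)) := by
      rw [mul_assoc, map_mul]
      ring
    rw [this]
    exact Ideal.mul_mem_left _ _ (sub_C_mem y S hS p)

/-- Upper bound in general. -/
lemma gpd_le [Finite V] (n : ℕ) :
    HasProjectiveDimensionLT (ModuleCat.of (PolyAlg K (r + 1) n) (GObj A pt n))
      ((r + 1) * n + 1) := by
  classical
  have : Fintype V := Fintype.ofFinite V
  let f : ((z : (Fin n → V) × Fin n) →
      QT (goth r n z.2 : Set (Fin (r + 1) × Fin n)) (tpt pt z.1)) →ₗ[PolyAlg K (r + 1) n]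
      GObj A pt n :=
    { toFun := fun q => GObj.mk 0 (fun y i => evT (pt := pt) y i (q (y, i)) * Polynomial.X)
        (by simp)
      map_add' := fun q r => by
        refine GObj.ext (fun y i => ?_) (fun y i => ?_)
        · simp
        · simp [add_mul]
      map_smul' := fun p q => by
        refine GObj.ext (fun y i => ?_) (fun y i => ?_)
        · simp
        · simp only [GObj.h_mk, Pi.smul_apply, RingHom.id_apply, GObj.h_smul]
          rw [evT_smul, mul_assoc] }
  let g : GObj A pt n →ₗ[PolyAlg K (r + 1) n] ((z : (Fin n → V) × Fin n) →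
      QT ((Finset.univ : Finset (Fin (r + 1) × Fin n)) : Set (Fin (r + 1) × Fin n))
        (tpt pt z.1)) :=
    LinearMap.pi fun z => gtoK pt A n z.1 _ (by simp) 1 z.2
  have h1 := pd_piT (K := K) (ι := (Fin n → V) × Fin n) (fun z => tpt pt z.1) ((r + 1) * n - 1)
    (fun z => goth r n z.2) (fun z => goth_card n z.2)
  have h2 := pd_piT (K := K) (ι := (Fin n → V) × Fin n) (fun z => tpt pt z.1) ((r + 1) * n)
    (fun _ => (Finset.univ : Finset (Fin (r + 1) × Fin n))) (by intro i; simp)
  refine pd_mid f g ?_ ?_ ?_ ((r + 1) * n + 1)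
    (hasProjectiveDimensionLT_of_ge _ ((r + 1) * n - 1 + 1) _ (by omega)) h2
  · rw [injective_iff_map_eq_zero]
    intro q hq
    funext z
    obtain ⟨y, i⟩ := z
    apply evT_inj
    have h3 := congrArg (fun v => GObj.h v y i) hq
    have h4 : evT (pt := pt) y i (q (y, i)) * Polynomial.X = 0 := h3
    rw [(mul_eq_zero.mp h4).resolve_right Polynomial.X_ne_zero]
    simp
  · intro q
    have : ∀ y i, ∃ a : K, (Ideal.Quotient.mk _ (C a) : QT _ _) = q (y, i) := by
      intro y i
      obtain ⟨p, hp⟩ := Ideal.Quotient.mk_surjective (q (y, i))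
      refine ⟨ev0 pt y p, ?_⟩
      rw [← hp, eq_comm, Ideal.Quotient.mk_eq_mk_iff_sub_mem]
      exact sub_C_mem y _ (by simp) p
    choose a ha using this
    refine ⟨GObj.mk a (fun y i => Polynomial.C (∑ j, A n y i j * a y j)) (by simp),
      funext fun z => ?_⟩
    obtain ⟨y, i⟩ := z
    rw [← ha y i]
    change Ideal.Quotient.mk _ (C (a y i * 1)) = _
    rw [mul_one]
  · intro v
    constructor
    · intro h
      have hc : ∀ y i, v.c y i = 0 := by
        intro y i
        have h3 : (Ideal.Quotient.mk _ (C (v.c y i * 1)) : QT _ _) = 0 := congrFun h (y, i)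
        rw [Ideal.Quotient.eq_zero_iff_mem, tr_mem, mem_ideal_span_X_image, mul_one] at h3
        by_contra h0
        obtain ⟨j, _, hj⟩ := h3 0 (by simp [tr, h0])
        simp at hj
      refine ⟨fun z => Ideal.Quotient.mk _ (glft r n z.2 (v.h z.1 z.2).divX), ?_⟩
      refine GObj.ext (fun y i => ?_) (fun y i => ?_)
      · exact (hc y i).symm
      · change evT (pt := pt) y i (Ideal.Quotient.mk _ (glft r n i (v.h y i).divX)) *
          Polynomial.X = v.h y i
        rw [evT_mk, ev1_glft]
        have h4 := (v.h y i).divX_mul_X_add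
        rw [v.rel] at h4
        simpa [hc] using h4
    · rintro ⟨q, rfl⟩
      funext z
      change (Ideal.Quotient.mk _ (C (0 * 1)) : QT _ _) = 0
      simp

/-- Lower bound when one of the matrices is singular. -/
lemma gpd_ge_of_not_inj (n : ℕ) (y : Fin n → V) (hA : ¬ Function.Injective (mvm (A n y))) :
    ¬ HasProjectiveDimensionLT (ModuleCat.of (PolyAlg K (r + 1) n) (GObj A pt n))
      ((r + 1) * n) := by
  classical
  intro h
  rw [injective_iff_map_eq_zero] at hA
  push Not at hA
  obtain ⟨u, hu, hu0⟩ := hA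
  obtain ⟨a, ha⟩ : ∃ a, u a ≠ 0 := Function.ne_iff.mp hu0
  let v0 : GObj A pt n := GObj.mk (fun y' => if y' = y then u else 0) 0 (fun y' i => by
    have : ∑ j, A n y i j * u j = 0 := congrFun hu i
    by_cases hy : y' = y
    · subst hy
      simp [this]
    · simp [hy])
  have hx : ∀ v, (X v - C (tpt pt y v) : PolyAlg K (r + 1) n) • v0 = 0 := fun v => by
    refine GObj.ext (fun y' i => ?_) (fun y' i => ?_)
    · by_cases hy : y' = y
      · subst hy
        simp [ev0]
      · simp [v0, hy]
    · simp [v0]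
  let j : QT (Set.univ : Set (Fin (r + 1) × Fin n)) (tpt pt y) →ₗ[PolyAlg K (r + 1) n]
      GObj A pt n :=
    Submodule.liftQ _ (LinearMap.toSpanSingleton (PolyAlg K (r + 1) n) (GObj A pt n) v0) (by
      rw [IT, Ideal.span_le]
      rintro _ ⟨v, _, rfl⟩
      change (X v - C (tpt pt y v) : PolyAlg K (r + 1) n) • v0 = 0
      exact hx v)
  have hex := ext_QT (K := K) (tpt pt y) ((r + 1) * n)
    (Finset.univ : Finset (Fin (r + 1) × Fin n)) (by simp)
  rw [Finset.coe_univ] at hex
  obtain ⟨x, hx0⟩ := hex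
  let rt : Retract (ModuleCat.of (PolyAlg K (r + 1) n)
      (QT (Set.univ : Set (Fin (r + 1) × Fin n)) (tpt pt y)))
      (ModuleCat.of (PolyAlg K (r + 1) n) (GObj A pt n)) :=
    { i := ModuleCat.ofHom j
      r := ModuleCat.ofHom (gtoK pt A n y _ rfl (u a)⁻¹ a)
      retract := by
        ext
        change (Ideal.Quotient.mk _ (C ((ev0 pt y 1 * (if y = y then u else 0) a) * (u a)⁻¹)) :
          QT _ _) = Ideal.Quotient.mk _ 1
        simp [ha] }
  have := rt.hasProjectiveDimensionLT ((r + 1) * n)
  exact hx0 (x.eq_zero_of_hasProjectiveDimensionLT _ le_rfl)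

/-- Lower bound in general. -/
lemma gpd_ge_of_inj [Finite V] (n : ℕ) (hA : ∀ y, Function.Injective (mvm (A n y)))
    (y : Fin n → V) (i : Fin n) :
    ¬ HasProjectiveDimensionLT (ModuleCat.of (PolyAlg K (r + 1) n) (GObj A pt n))
      ((r + 1) * n - 1) := by
  classical
  have : Fintype V := Fintype.ofFinite V
  intro h
  let e := LinearEquiv.ofBijective _ (gtoAxes_bij (pt := pt) n hA)
  obtain ⟨x, hx⟩ := ext_QT (K := K) (tpt pt y) ((r + 1) * n - 1) (goth r n i) (goth_card n i)
  let rt : Retract (ModuleCat.of (PolyAlg K (r + 1) n)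
      (QT (goth r n i : Set (Fin (r + 1) × Fin n)) (tpt pt y)))
      (ModuleCat.of (PolyAlg K (r + 1) n) (GObj A pt n)) :=
    { i := ModuleCat.ofHom (e.symm.toLinearMap.comp
        (LinearMap.single (PolyAlg K (r + 1) n) (fun z : (Fin n → V) × Fin n =>
          QT (goth r n z.2 : Set (Fin (r + 1) × Fin n)) (tpt pt z.1)) (y, i)))
      r := ModuleCat.ofHom ((LinearMap.proj (y, i)).comp e.toLinearMap)
      retract := by
        ext
        simp }
  have := rt.hasProjectiveDimensionLT ((r + 1) * n - 1)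
  exact hx (x.eq_zero_of_hasProjectiveDimensionLT _ le_rfl)

end Pool.Agent.R830.OIM
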