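import Pool.Agent.R830.OIM.Kosz

/-!
Graded modules over a polynomial ring, given by their projections to the graded pieces.
-/

namespace Pool.Agent.R830.OIM

open MvPolynomial

universe u

variable {K : Type u} [Field K] {σ : Type}

/-- The homogeneous component of integer degree `e`. -/
noncomputable def hc (e : ℤ) (p : MvPolynomial σ K) : MvPolynomial σ K :=
  if 0 ≤ e then homogeneousComponent e.toNat p else 0

lemma coeff_hc (e : ℤ) (p : MvPolynomial σ K) (m : σ →₀ ℕ) :
    coeff m (hc e p) = if ((m.degree : ℕ) : ℤ) = e then coeff m p else 0 := by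
  rw [hc]
  by_cases he : 0 ≤ e
  · rw [if_pos he, coeff_homogeneousComponent]
    by_cases h : ((m.degree : ℕ) : ℤ) = e
    · rw [if_pos h, if_pos (by omega)]
    · rw [if_neg h, if_neg (by omega)]
  · rw [if_neg he, coeff_zero, if_neg (by omega)]

lemma hc_add (e : ℤ) (p q : MvPolynomial σ K) : hc e (p + q) = hc e p + hc e q := by
  ext m
  rw [coeff_hc, coeff_add, coeff_add, coeff_hc, coeff_hc]
  split_ifs <;> simp

lemma hc_zero (e : ℤ) : hc e (0 : MvPolynomial σ K) = 0 := by
  ext m
  rw [coeff_hc, coeff_zero, ite_self]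

lemma hc_hc (d e : ℤ) (p : MvPolynomial σ K) : hc d (hc e p) = if d = e then hc e p else 0 := by
  ext m
  by_cases h : d = e
  · subst h
    rw [if_pos rfl, coeff_hc, coeff_hc]
    split_ifs <;> rfl
  · rw [if_neg h, coeff_hc, coeff_hc, coeff_zero]
    split_ifs with h1 h2
    · exact absurd (h1.symm.trans h2) h
    · rfl
    · rfl

lemma hc_C_mul (e : ℤ) (a : K) (p : MvPolynomial σ K) : hc e (C a * p) = C a * hc e p := by
  ext m
  rw [coeff_hc, coeff_C_mul, coeff_C_mul, coeff_hc]
  split_ifs <;> simp

lemma hc_X_mul (e : ℤ) (s : σ) (p : MvPolynomial σ K) :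
    hc (e + 1) (X s * p) = X s * hc e p := by
  classical
  ext m
  rw [coeff_hc, coeff_X_mul', coeff_X_mul', coeff_hc]
  by_cases hs : s ∈ m.support
  · rw [if_pos hs, if_pos hs]
    have hle : Finsupp.single s 1 ≤ m := by
      rw [Finsupp.single_le_iff]
      exact Nat.one_le_iff_ne_zero.mpr (Finsupp.mem_support_iff.mp hs)
    have h1 : m = (m - Finsupp.single s 1) + Finsupp.single s 1 := (tsub_add_cancel_of_le hle).symm
    have h2 : m.degree = (m - Finsupp.single s 1).degree + 1 := by
      conv_lhs => rw [h1]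
      rw [map_add, Finsupp.degree_single]
    by_cases h3 : (((m - Finsupp.single s 1).degree : ℕ) : ℤ) = e
    · rw [if_pos h3, if_pos (by omega)]
    · rw [if_neg h3, if_neg (by omega)]
  · rw [if_neg hs, if_neg hs, ite_self]

lemma hc_sum (p : MvPolynomial σ K) (D : Finset ℤ)
    (hD : ∀ m ∈ p.support, ((m.degree : ℕ) : ℤ) ∈ D) : ∑ e ∈ D, hc e p = p := by
  classical
  ext m
  rw [coeff_sum]
  simp only [coeff_hc]
  rw [Finset.sum_ite_eq]
  split_ifs with h
  · rfl
  · by_contra h0
    exact h (hD m (mem_support_iff.mpr (Ne.symm h0)))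

/-- A grading of a module over a polynomial ring, given by the projections. -/
structure Gr (K : Type u) [Field K] (σ : Type) (N : Type u) [AddCommGroup N]
    [Module (MvPolynomial σ K) N] where
  /-- the projection to degree `d` -/
  pr : ℤ → N →+ N
  idem : ∀ d e u, pr d (pr e u) = if d = e then pr e u else 0
  fin : ∀ u, ∃ D : Finset ℤ, u = ∑ d ∈ D, pr d u
  smulX : ∀ (s : σ) (d : ℤ) (u : N),
    pr (d + 1) ((X s : MvPolynomial σ K) • u) = (X s : MvPolynomial σ K) • pr d u
  smulC : ∀ (a : K) (d : ℤ) (u : N),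
    pr d ((C a : MvPolynomial σ K) • u) = (C a : MvPolynomial σ K) • pr d u

variable {N N' : Type u} [AddCommGroup N] [Module (MvPolynomial σ K) N]
  [AddCommGroup N'] [Module (MvPolynomial σ K) N']

lemma Gr.smul_monomial (G : Gr K σ N) (a : K) (n : ℕ) : ∀ (m : σ →₀ ℕ), m.degree = n →
    ∀ (d : ℤ) (u : N), G.pr (d + n) ((monomial m a : MvPolynomial σ K) • u) =
      (monomial m a : MvPolynomial σ K) • G.pr d u := by
  classical
  induction n with
  | zero =>
    intro m hm d u
    have hm0 : m = 0 := (Finsupp.degree_eq_zero_iff m).mp hm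
    subst hm0
    have : (monomial 0 a : MvPolynomial σ K) = C a := rfl
    rw [this, ← G.smulC]
    simp
  | succ n ih =>
    intro m hm d u
    obtain ⟨s, hs⟩ : m.support.Nonempty := by
      rw [Finset.nonempty_iff_ne_empty, Ne, Finsupp.support_eq_empty]
      rintro rfl
      simp at hm
    have hle : Finsupp.single s 1 ≤ m := by
      rw [Finsupp.single_le_iff]
      exact Nat.one_le_iff_ne_zero.mpr (Finsupp.mem_support_iff.mp hs)
    have h1 : m = Finsupp.single s 1 + (m - Finsupp.single s 1) := (add_tsub_cancel_of_le hle).symm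
    have h2 : (m - Finsupp.single s 1).degree = n := by
      have h3 : m.degree = 1 + (m - Finsupp.single s 1).degree := by
        conv_lhs => rw [h1]
        rw [map_add, Finsupp.degree_single]
      omega
    have h4 : (monomial m a : MvPolynomial σ K) = X s * monomial (m - Finsupp.single s 1) a := by
      conv_lhs => rw [h1]
      rw [X, monomial_mul, one_mul]
    rw [h4, mul_smul, mul_smul]
    have h5 : d + ((n + 1 : ℕ) : ℤ) = (d + n) + 1 := by push_cast; ring
    rw [h5, G.smulX, ih _ h2]

lemma Gr.pr_pr (G : Gr K σ N) (d : ℤ) (u : N) : G.pr d (G.pr d u) = G.pr d u := by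
  rw [G.idem, if_pos rfl]

lemma Gr.pr_ne (G : Gr K σ N) {d e : ℤ} (h : d ≠ e) {u : N} (hu : G.pr e u = u) :
    G.pr d u = 0 := by
  rw [← hu, G.idem, if_neg h]

/-- The standard grading of a free module with shifts. -/
noncomputable def Gr.free {b : ℕ} (sh : Fin b → ℤ) :
    Gr K σ (Fin b → MvPolynomial σ K) where
  pr d :=
    { toFun := fun f k => hc (d - sh k) (f k)
      map_zero' := by
        funext k
        exact hc_zero _
      map_add' := fun f g => by
        funext k
        exact hc_add _ _ _ }
  idem d e u := by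
    funext k
    change hc (d - sh k) (hc (e - sh k) (u k)) = _
    rw [hc_hc]
    by_cases h : d = e
    · rw [if_pos h, if_pos (by omega)]
      rfl
    · rw [if_neg h, if_neg (by omega)]
      rfl
  fin u := by
    classical
    refine ⟨Finset.univ.biUnion fun k => (u k).support.image fun m => ((m.degree : ℕ) : ℤ) + sh k,
      ?_⟩
    funext k
    rw [Finset.sum_apply]
    change u k = ∑ d ∈ _, hc (d - sh k) (u k)
    set D := Finset.univ.biUnion fun k => (u k).support.image fun m => ((m.degree : ℕ) : ℤ) + sh k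
    have h1 : ∑ d ∈ D, hc (d - sh k) (u k) = ∑ e ∈ D.image (fun d => d - sh k), hc e (u k) := by
      rw [Finset.sum_image (fun a _ b _ h => sub_left_injective h)]
    rw [h1, hc_sum]
    intro m hm
    refine Finset.mem_image.mpr ⟨((m.degree : ℕ) : ℤ) + sh k, ?_, by ring⟩
    exact Finset.mem_biUnion.mpr ⟨k, Finset.mem_univ k, Finset.mem_image.mpr ⟨m, hm, rfl⟩⟩
  smulX s d u := by
    funext k
    change hc (d + 1 - sh k) (X s * u k) = X s * hc (d - sh k) (u k)
    rw [← hc_X_mul]
    congr 1
    ring
  smulC a d u := by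
    funext k
    exact hc_C_mul _ _ _

/-- The induced grading of a graded submodule. -/
def Gr.sub (G : Gr K σ N) (Z : Submodule (MvPolynomial σ K) N) (hZ : ∀ d, ∀ z ∈ Z, G.pr d z ∈ Z) :
    Gr K σ Z where
  pr d :=
    { toFun := fun z => ⟨G.pr d z, hZ d z z.2⟩
      map_zero' := by
        ext
        exact map_zero _
      map_add' := fun z w => by
        ext
        exact map_add _ _ _ }
  idem d e u := by
    ext
    change G.pr d (G.pr e u) = _
    rw [G.idem]
    split_ifs <;> rfl
  fin u := by
    obtain ⟨D, hD⟩ := G.fin (u : N)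
    refine ⟨D, ?_⟩
    ext
    rw [AddSubmonoidClass.coe_finsetSum]
    exact hD
  smulX s d u := by
    ext
    exact G.smulX s d u
  smulC a d u := by
    ext
    exact G.smulC a d u

end Pool.Agent.R830.OIM
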