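import Pool.Agent.R830.OIM.PdQ

/-!
The Koszul complex of the variables of a polynomial ring, with coefficients in a module,
written on functions of finite sets of variables.
-/

namespace Pool.Agent.R830.OIM

open MvPolynomial

universe u

variable {K : Type u} [Field K] {σ : Type} [Fintype σ] [DecidableEq σ] (o : σ → ℕ)

/-- The coefficient `± x_s`. -/
noncomputable def kc (K : Type u) [Field K] {σ : Type} [DecidableEq σ] (o : σ → ℕ)
    (s : σ) (T : Finset σ) : MvPolynomial σ K :=
  (-1) ^ (T.filter fun t => o t < o s).card * X s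

/-- The Koszul differential. -/
noncomputable def kd {N : Type u} [AddCommGroup N] [Module (MvPolynomial σ K) N] :
    (Finset σ → N) →ₗ[MvPolynomial σ K] (Finset σ → N) where
  toFun φ T := ∑ s, if s ∈ T then 0 else kc K o s T • φ (insert s T)
  map_add' φ ψ := by
    funext T
    rw [Pi.add_apply, ← Finset.sum_add_distrib]
    refine Finset.sum_congr rfl fun s _ => ?_
    split_ifs
    · simp
    · simp
  map_smul' p φ := by
    funext T
    rw [RingHom.id_apply, Pi.smul_apply, Finset.smul_sum]
    refine Finset.sum_congr rfl fun s _ => ?_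
    split_ifs
    · simp
    · rw [Pi.smul_apply, smul_comm]

variable {N N' : Type u} [AddCommGroup N] [Module (MvPolynomial σ K) N]
  [AddCommGroup N'] [Module (MvPolynomial σ K) N']

lemma kd_apply (φ : Finset σ → N) (T : Finset σ) :
    kd (K := K) o φ T = ∑ s, if s ∈ T then 0 else kc K o s T • φ (insert s T) := rfl

lemma kd_comp (f : N →ₗ[MvPolynomial σ K] N') (φ : Finset σ → N) :
    kd (K := K) o (fun S => f (φ S)) = fun S => f (kd (K := K) o φ S) := by
  funext T
  rw [kd_apply, kd_apply, map_sum]
  refine Finset.sum_congr rfl fun s _ => ?_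
  split_ifs
  · simp
  · rw [map_smul]

lemma kc_swap (ho : Function.Injective o) {s r : σ} {T : Finset σ} (hsr : s ≠ r) (hs : s ∉ T)
    (hr : r ∉ T) :
    kc K o s T * kc K o r (insert s T) + kc K o r T * kc K o s (insert r T) = 0 := by
  have key : ∀ {a b : σ}, o a < o b → a ∉ T → b ∉ T →
      kc K o a T * kc K o b (insert a T) + kc K o b T * kc K o a (insert b T) = 0 := by
    intro a b hab ha hb
    have h1 : (insert a T).filter (fun t => o t < o b) =
        insert a (T.filter fun t => o t < o b) := by
      rw [Finset.filter_insert, if_pos hab]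
    have h2 : (insert b T).filter (fun t => o t < o a) = T.filter fun t => o t < o a := by
      rw [Finset.filter_insert, if_neg (not_lt.mpr hab.le)]
    have h3 : a ∉ T.filter fun t => o t < o b := fun h => ha (Finset.mem_of_mem_filter _ h)
    simp only [kc]
    rw [h1, h2, Finset.card_insert_of_notMem h3, pow_succ]
    ring
  rcases lt_or_gt_of_ne (fun h => hsr (ho h)) with h | h
  · exact key h hs hr
  · rw [add_comm]
    exact key h hr hs

lemma kd_kd (ho : Function.Injective o) (φ : Finset σ → N) :
    kd (K := K) o (kd (K := K) o φ) = 0 := by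
  funext T
  rw [kd_apply, Pi.zero_apply]
  have h1 : ∀ s, (if s ∈ T then (0 : N) else kc K o s T • kd (K := K) o φ (insert s T)) =
      ∑ r, if s ∈ T ∨ r ∈ insert s T then 0 else
        (kc K o s T * kc K o r (insert s T)) • φ (insert r (insert s T)) := by
    intro s
    by_cases hs : s ∈ T
    · simp [hs]
    · rw [if_neg hs, kd_apply, Finset.smul_sum]
      refine Finset.sum_congr rfl fun r _ => ?_
      by_cases hr : r ∈ insert s T
      · rw [if_pos hr, if_pos (Or.inr hr), smul_zero]
      · rw [if_neg hr, if_neg (by tauto), smul_smul]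
  rw [Finset.sum_congr rfl fun s _ => h1 s, ← Finset.sum_product']
  refine Finset.sum_involution (fun p _ => (p.2, p.1)) ?_ ?_ ?_ ?_
  · rintro ⟨s, r⟩ -
    dsimp only
    by_cases hs : s ∈ T
    · simp [hs]
    · by_cases hr : r ∈ T
      · simp [hr]
      · by_cases hsr : s = r
        · subst hsr
          simp
        · rw [if_neg (by simp [hs, hr, Ne.symm hsr]), if_neg (by simp [hs, hr, hsr]),
            Finset.insert_comm s r T, ← add_smul, kc_swap o ho hsr hs hr, zero_smul]
  · rintro ⟨s, r⟩ - hne heq
    apply hne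
    have : r = s := congrArg Prod.fst heq
    subst this
    simp
  · intro p _
    exact Finset.mem_univ _
  · intro p _
    rfl

/-- Restriction to the sets with `i` elements. -/
def rs (i : ℕ) (φ : Finset σ → N) : Finset σ → N := fun S => if S.card = i then φ S else 0

lemma kd_rs (i : ℕ) (φ : Finset σ → N) : kd (K := K) o (rs (i + 1) φ) = rs i (kd (K := K) o φ) := by
  funext T
  rw [kd_apply, rs]
  by_cases hT : T.card = i
  · rw [if_pos hT, kd_apply]
    refine Finset.sum_congr rfl fun s _ => ?_
    by_cases hs : s ∈ T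
    · rw [if_pos hs, if_pos hs]
    · rw [if_neg hs, if_neg hs, rs, if_pos (by rw [Finset.card_insert_of_notMem hs, hT])]
  · rw [if_neg hT]
    refine Finset.sum_eq_zero fun s _ => ?_
    by_cases hs : s ∈ T
    · rw [if_pos hs]
    · rw [if_neg hs, rs, if_neg (by
        rw [Finset.card_insert_of_notMem hs]
        omega), smul_zero]

lemma rs_self {i : ℕ} {φ : Finset σ → N} (h : ∀ S, S.card ≠ i → φ S = 0) : rs i φ = φ := by
  funext S
  rw [rs]
  split_ifs with h1
  · rfl
  · exact (h S h1).symm

lemma kd_off {U : Finset σ} (χ : Finset σ → N) (hχ : ∀ S, ¬ S ⊆ U → χ S = 0) (T : Finset σ)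
    (hT : ¬ T ⊆ U) : kd (K := K) o χ T = 0 := by
  rw [kd_apply]
  refine Finset.sum_eq_zero fun s _ => ?_
  split_ifs
  · rfl
  · rw [hχ _ (fun h => hT ((Finset.subset_insert s T).trans h)), smul_zero]

/-- The part of `χ` away from `a`. -/
def pa (a : σ) (χ : Finset σ → N) : Finset σ → N := fun T => if a ∈ T then 0 else χ T

/-- The part of `χ` at `a`. -/
def pb (a : σ) (χ : Finset σ → N) : Finset σ → N := fun T => if a ∈ T then 0 else χ (insert a T)

lemma kd_pa (a : σ) (χ : Finset σ → N) (T : Finset σ) (hT : a ∉ T) :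
    kd (K := K) o χ T = kd (K := K) o (pa a χ) T + kc K o a T • pb a χ T := by
  rw [kd_apply, kd_apply, ← Finset.sum_erase_add _ _ (Finset.mem_univ a),
    ← Finset.sum_erase_add (a := a) (f := fun s => if s ∈ T then 0 else kc K o s T •
      (pa a χ) (insert s T)) _ (Finset.mem_univ a)]
  have h3 : ∑ x ∈ Finset.univ.erase a, (if x ∈ T then 0 else kc K o x T • χ (insert x T)) =
      ∑ x ∈ Finset.univ.erase a, (if x ∈ T then 0 else kc K o x T • (pa a χ) (insert x T)) := by
    refine Finset.sum_congr rfl fun x hx => ?_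
    have hxa : a ≠ x := (Finset.ne_of_mem_erase hx).symm
    have : a ∉ insert x T := by simp [hxa, hT]
    simp only [pa, if_neg this]
  rw [h3, if_neg hT, if_neg hT]
  simp only [pa, pb, if_neg hT, Finset.mem_insert_self, if_true, smul_zero, add_zero]

lemma kd_pb {a : σ} {U : Finset σ} (hlt : ∀ t ∈ U, o t < o a) (χ : Finset σ → N)
    (hχ : ∀ S, ¬ S ⊆ insert a U → χ S = 0) (T : Finset σ) (hT : a ∉ T) :
    kd (K := K) o χ (insert a T) = kd (K := K) o (pb a χ) T := by
  rw [kd_apply, kd_apply]
  refine Finset.sum_congr rfl fun s _ => ?_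
  by_cases hs : s ∈ T
  · rw [if_pos hs, if_pos (Finset.mem_insert_of_mem hs)]
  · rw [if_neg hs]
    by_cases hsa : s = a
    · subst hsa
      rw [if_pos (Finset.mem_insert_self _ _)]
      simp [pb]
    · have hns : s ∉ insert a T := by simp [hsa, hs]
      rw [if_neg hns, pb]
      have hna : a ∉ insert s T := by simp [Ne.symm hsa, hT]
      simp only [if_neg hna]
      rw [Finset.insert_comm s a T]
      by_cases hsU : s ∈ U
      · have hf : (insert a T).filter (fun t => o t < o s) =
            T.filter (fun t => o t < o s) := by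
          rw [Finset.filter_insert, if_neg (not_lt.mpr (hlt s hsU).le)]
        rw [kc, kc, hf]
      · rw [hχ (insert a (insert s T)) (by
          intro h
          have h5 : s ∈ insert a U := h (by simp)
          rcases Finset.mem_insert.mp h5 with h6 | h6
          · exact hsa h6
          · exact hsU h6), smul_zero, smul_zero]

lemma pa_off {a : σ} {U : Finset σ} (χ : Finset σ → N)
    (hχ : ∀ S, ¬ S ⊆ insert a U → χ S = 0) (S : Finset σ) (hS : ¬ S ⊆ U) : pa a χ S = 0 := by
  rw [pa]
  split_ifs with haS
  · rfl
  · refine hχ S fun h => hS fun x hx => ?_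
    rcases Finset.mem_insert.mp (h hx) with h6 | h6
    · exact absurd (h6 ▸ hx) haS
    · exact h6

lemma pb_off {a : σ} {U : Finset σ} (χ : Finset σ → N)
    (hχ : ∀ S, ¬ S ⊆ insert a U → χ S = 0) (S : Finset σ) (hS : ¬ S ⊆ U) : pb a χ S = 0 := by
  rw [pb]
  split_ifs with haS
  · rfl
  · refine hχ _ fun h => hS fun x hx => ?_
    rcases Finset.mem_insert.mp (h (Finset.mem_insert_of_mem hx)) with h6 | h6
    · exact absurd (h6 ▸ hx) haS
    · exact h6

/-- Acyclicity of the Koszul complex on a set `U` of variables. -/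
lemma koszul_acyclic (ho : Function.Injective o) (U : Finset σ) :
    ∀ φ : Finset σ → MvPolynomial σ K, (∀ S, ¬ S ⊆ U → φ S = 0) →
      kd (K := K) o φ = 0 →
      φ ∅ ∈ Ideal.span (X '' (U : Set σ) : Set (MvPolynomial σ K)) →
      ∃ ψ : Finset σ → MvPolynomial σ K, (∀ S, ¬ S ⊆ U → ψ S = 0) ∧ kd (K := K) o ψ = φ := by
  induction U using Finset.induction_on_max_value (f := o) with
  | empty =>
    intro φ hφ _ h0
    refine ⟨0, fun _ _ => rfl, ?_⟩
    rw [map_zero]
    funext S
    by_cases hS : S = ∅
    · subst hS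
      simp only [Finset.coe_empty, Set.image_empty, Ideal.span_empty, Submodule.mem_bot] at h0
      exact h0.symm
    · exact (hφ S (by rwa [Finset.subset_empty])).symm
  | insert a U ha hmax ih =>
    intro φ hφ hcyc h0
    have hlt : ∀ t ∈ U, o t < o a := fun t ht =>
      lt_of_le_of_ne (hmax t ht) (fun h => ha (ho h ▸ ht))
    have hsub' := pa_off φ hφ
    have hsub'' := pb_off φ hφ
    have hcyc'' : kd (K := K) o (pb a φ) = 0 := by
      funext T
      by_cases hTU : T ⊆ U
      · rw [← kd_pb o hlt φ hφ T (fun h => ha (hTU h)), hcyc]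
        rfl
      · exact kd_off o _ hsub'' T hTU
    have hdφ' : ∀ T, T ⊆ U → kd (K := K) o (pa a φ) T = - (kc K o a T * pb a φ T) := by
      intro T hTU
      have := kd_pa (K := K) o a φ T (fun h => ha (hTU h))
      rw [hcyc, Pi.zero_apply] at this
      exact eq_neg_of_add_eq_zero_left this.symm
    have hkd0 : ∀ χ : Finset σ → MvPolynomial σ K, (∀ S, ¬ S ⊆ U → χ S = 0) →
        kd (K := K) o χ ∅ ∈ Ideal.span (X '' (U : Set σ) : Set (MvPolynomial σ K)) := by
      intro χ hχ
      rw [kd_apply]
      refine Ideal.sum_mem _ fun s _ => ?_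
      by_cases hs : s ∈ U
      · rw [if_neg (Finset.notMem_empty s), smul_eq_mul, kc, mul_right_comm]
        exact Ideal.mul_mem_left _ _ (Ideal.subset_span ⟨s, hs, rfl⟩)
      · rw [if_neg (Finset.notMem_empty s), hχ _ (by
          intro h
          exact hs (h (by simp))), smul_zero]
        exact Ideal.zero_mem _
    have hkca : kc K o a ∅ = X a := by simp [kc]
    have h0'' : pb a φ ∅ ∈ Ideal.span (X '' (U : Set σ) : Set (MvPolynomial σ K)) := by
      apply X_mul_mem (a := a) (by simpa using ha)
      have h5 := hdφ' ∅ (Finset.empty_subset _)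
      rw [hkca] at h5
      have h6 := hkd0 (pa a φ) hsub'
      rw [h5] at h6
      simpa using h6
    obtain ⟨ψ₀, hψ₀, hψ₀'⟩ := ih (pb a φ) hsub'' hcyc'' h0''
    rw [Finset.coe_insert, Set.image_insert_eq, Ideal.span_insert,
      Ideal.mem_span_singleton_sup] at h0
    obtain ⟨q, w, hw, hqw⟩ := h0
    set ψ'' : Finset σ → MvPolynomial σ K := fun T => if T = ∅ then q else ψ₀ T with hψ''
    have hψ''sub : ∀ S, ¬ S ⊆ U → ψ'' S = 0 := by
      intro S hS
      have : S ≠ ∅ := by
        rintro rfl
        exact hS (Finset.empty_subset _)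
      simp only [hψ'', if_neg this]
      exact hψ₀ S hS
    have hψ''d : kd (K := K) o ψ'' = pb a φ := by
      rw [← hψ₀']
      funext T
      rw [kd_apply, kd_apply]
      refine Finset.sum_congr rfl fun s _ => ?_
      have : insert s T ≠ ∅ := Finset.insert_ne_empty _ _
      simp only [hψ'', if_neg this]
    set θ : Finset σ → MvPolynomial σ K :=
      fun T => pa a φ T - (-1) ^ T.card * X a * ψ'' T with hθ
    have hkcU : ∀ T, T ⊆ U → kc K o a T = (-1) ^ T.card * X a := by
      intro T hTU
      have : T.filter (fun t => o t < o a) = T :=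
        Finset.filter_true_of_mem fun t ht => hlt t (hTU ht)
      rw [kc, this]
    have hθsub : ∀ S, ¬ S ⊆ U → θ S = 0 := by
      intro S hS
      simp only [hθ]
      rw [hsub' S hS, hψ''sub S hS]
      ring
    have hθd : kd (K := K) o θ = 0 := by
      funext T
      by_cases hTU : T ⊆ U
      · have h7 : kd (K := K) o θ T = kd (K := K) o (pa a φ) T +
            (-1) ^ T.card * X a * kd (K := K) o ψ'' T := by
          rw [kd_apply, kd_apply, kd_apply, Finset.mul_sum, ← Finset.sum_add_distrib]
          refine Finset.sum_congr rfl fun s _ => ?_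
          by_cases hs : s ∈ T
          · simp [hs]
          · rw [if_neg hs, if_neg hs, if_neg hs]
            simp only [hθ, smul_eq_mul]
            rw [Finset.card_insert_of_notMem hs, pow_succ]
            ring
        rw [h7, hdφ' T hTU, hψ''d, hkcU T hTU, Pi.zero_apply]
        ring
      · exact kd_off o θ hθsub T hTU
    have hθ0 : θ ∅ ∈ Ideal.span (X '' (U : Set σ) : Set (MvPolynomial σ K)) := by
      simp only [hθ, hψ'', pa, if_neg (Finset.notMem_empty a), Finset.card_empty, pow_zero,
        one_mul, if_true]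
      rw [← hqw, mul_comm q (X a), add_sub_cancel_left]
      exact hw
    obtain ⟨ψ', hψ', hψ'd⟩ := ih θ hθsub hθd hθ0
    set Ψ : Finset σ → MvPolynomial σ K :=
      fun T => if a ∈ T then ψ'' (T.erase a) else ψ' T with hΨ
    have hΨoff : ∀ S, ¬ S ⊆ insert a U → Ψ S = 0 := by
      intro S hS
      by_cases haS : a ∈ S
      · simp only [hΨ, if_pos haS]
        refine hψ''sub _ fun h => hS fun x hx => ?_
        by_cases hxa : x = a
        · subst hxa
          exact Finset.mem_insert_self _ _
        · exact Finset.mem_insert_of_mem (h (Finset.mem_erase.mpr ⟨hxa, hx⟩))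
      · simp only [hΨ, if_neg haS]
        refine hψ' _ fun h => hS (h.trans (Finset.subset_insert _ _))
    have hpa : pa a Ψ = ψ' := by
      funext T
      rw [pa]
      split_ifs with haT
      · exact (hψ' T fun h => ha (h haT)).symm
      · simp only [hΨ, if_neg haT]
    have hpb : pb a Ψ = ψ'' := by
      funext T
      rw [pb]
      split_ifs with haT
      · exact (hψ''sub T fun h => ha (h haT)).symm
      · simp only [hΨ, Finset.mem_insert_self, if_true, Finset.erase_insert haT]
    refine ⟨Ψ, hΨoff, ?_⟩
    funext T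
    by_cases hTU : T ⊆ insert a U
    · by_cases haT : a ∈ T
      · have h8 : a ∉ T.erase a := Finset.notMem_erase a T
        have h9 := kd_pb (K := K) o hlt Ψ hΨoff (T.erase a) h8
        rw [Finset.insert_erase haT, hpb, hψ''d] at h9
        rw [h9, pb, if_neg h8, Finset.insert_erase haT]
      · have hTU' : T ⊆ U := by
          intro x hx
          rcases Finset.mem_insert.mp (hTU hx) with h6 | h6
          · exact absurd (h6 ▸ hx) haT
          · exact h6
        rw [kd_pa (K := K) o a Ψ T haT, hpa, hpb, hψ'd, hkcU T hTU', smul_eq_mul]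
        simp only [hθ, pa, if_neg haT]
        ring
    · rw [hφ T hTU]
      exact kd_off o Ψ hΨoff T hTU

lemma mem_span_univ_iff (p : MvPolynomial σ K) :
    p ∈ Ideal.span (X '' ((Finset.univ : Finset σ) : Set σ) : Set (MvPolynomial σ K)) ↔
      constantCoeff p = 0 := by
  rw [mem_ideal_span_X_image]
  constructor
  · intro h
    by_contra h0
    obtain ⟨i, _, hi⟩ := h 0 (by rwa [mem_support_iff, ← constantCoeff_eq])
    simp at hi
  · intro h m hm
    by_contra hcon
    push Not at hcon
    have hm0 : m = 0 := by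
      ext v
      exact hcon v (by simp)
    subst hm0
    rw [mem_support_iff] at hm
    exact hm h

/-- Acyclicity for a free module. -/
lemma koszul_free (ho : Function.Injective o) {b : ℕ}
    (φ : Finset σ → Fin b → MvPolynomial σ K) (hcyc : kd (K := K) o φ = 0)
    (h0 : ∀ k, constantCoeff (φ ∅ k) = 0) :
    ∃ ψ : Finset σ → Fin b → MvPolynomial σ K, kd (K := K) o ψ = φ := by
  have h : ∀ k, ∃ ψ : Finset σ → MvPolynomial σ K, kd (K := K) o ψ = fun S => φ S k := by
    intro k
    obtain ⟨ψ, _, hψ⟩ := koszul_acyclic (K := K) o ho Finset.univ (fun S => φ S k)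
      (fun S hS => absurd (Finset.subset_univ S) hS) (by
        have := kd_comp (K := K) o (LinearMap.proj (R := MvPolynomial σ K)
          (φ := fun _ : Fin b => MvPolynomial σ K) k) φ
        change kd (K := K) o (fun S => φ S k) = 0
        refine this.trans ?_
        rw [hcyc]
        rfl) ((mem_span_univ_iff _).mpr (h0 k))
    exact ⟨ψ, hψ⟩
  choose ψ hψ using h
  refine ⟨fun S k => ψ k S, ?_⟩
  funext S k
  have := kd_comp (K := K) o (LinearMap.proj (R := MvPolynomial σ K)
    (φ := fun _ : Fin b => MvPolynomial σ K) k) (fun S k => ψ k S)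
  have h2 := congrFun this S
  have h3 := congrFun (hψ k) S
  exact h2.symm.trans h3

end Pool.Agent.R830.OIM
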