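import Pool.Agent.R830.OIM.Defs

/-!
The module attached to a natural family of matrices: in width `n` it consists of the
`(c, h)` with `c : Fin n → K`, `h : Fin n → K[X]` and `h i (0) = (A_n c) i`.
-/

namespace Pool.Agent.R830.OIM

open MvPolynomial

universe u

variable {K : Type u} [Field K]

lemma Shape.IsMor.injective {s : Shape} {m n : ℕ} {f : Fin m → Fin n} (hf : s.IsMor f) :
    Function.Injective f := by
  cases s
  · exact StrictMono.injective hf
  · exact hf

lemma sum_extend {m n : ℕ} {f : Fin m → Fin n} (hf : Function.Injective f) (a : Fin n → K)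
    (c : Fin m → K) :
    ∑ j, a j * Function.extend f c 0 j = ∑ k, a (f k) * c k := by
  classical
  have h1 : ∀ j ∈ (Finset.univ : Finset (Fin n)), j ∉ Finset.univ.image f →
      a j * Function.extend f c 0 j = 0 := by
    intro j _ hj
    rw [Function.extend_apply']
    · simp
    · rintro ⟨k, rfl⟩
      exact hj (Finset.mem_image_of_mem _ (Finset.mem_univ _))
  rw [← Finset.sum_subset (Finset.subset_univ (Finset.univ.image f)) h1,
    Finset.sum_image (fun x _ y _ h => hf h)]
  exact Finset.sum_congr rfl fun k _ => by rw [hf.extend_apply]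

/-- Evaluation at the generic point of the `i`-th coordinate axis. -/
noncomputable def ev (n : ℕ) (i : Fin n) : PolyAlg K 1 n →ₐ[K] Polynomial K :=
  aeval (fun v => if v.2 = i then Polynomial.X else 0)

lemma ev_coeff_zero (n : ℕ) (i : Fin n) (p : PolyAlg K 1 n) :
    (ev n i p).coeff 0 = constantCoeff p := by
  induction p using MvPolynomial.induction_on with
  | C a => simp [ev]
  | add p q hp hq => simp [hp, hq]
  | mul_X p v hp =>
    simp only [map_mul, Polynomial.mul_coeff_zero, hp, constantCoeff_X, mul_zero]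
    by_cases h : v.2 = i
    · simp [ev, h]
    · simp [ev, h]

lemma ev_rename {m n : ℕ} {f : Fin m → Fin n} (hf : Function.Injective f) (i : Fin m)
    (p : PolyAlg K 1 m) : ev n (f i) (polyMap K 1 f p) = ev m i p := by
  have : (ev n (f i)).comp (polyMap K 1 f) = ev m i := by
    apply MvPolynomial.algHom_ext
    intro v
    simp [ev, polyMap, hf.eq_iff]
  exact congrArg (fun g => g p) this

lemma ev_rename_of_not {m n : ℕ} {f : Fin m → Fin n} (j : Fin n) (hj : ∀ i, f i ≠ j)
    (p : PolyAlg K 1 m) :
    ev n j (polyMap K 1 f p) = Polynomial.C (constantCoeff p) := by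
  induction p using MvPolynomial.induction_on with
  | C a => simp [ev, polyMap]
  | add p q hp hq => simp [hp, hq]
  | mul_X p v hp => simp [ev, polyMap, hj]

variable (A : (n : ℕ) → Fin n → Fin n → K)

/-- The underlying additive group in width `n`. -/
def carr (n : ℕ) : AddSubgroup ((Fin n → K) × (Fin n → Polynomial K)) where
  carrier := {v | ∀ i, (v.2 i).coeff 0 = ∑ j, A n i j * v.1 j}
  zero_mem' := by
    intro i
    simp
  add_mem' := by
    intro v w hv hw i
    simp only [Prod.snd_add, Pi.add_apply, Polynomial.coeff_add, Prod.fst_add, mul_add,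
      Finset.sum_add_distrib]
    rw [hv i, hw i]
  neg_mem' := by
    intro v hv i
    simp only [Prod.snd_neg, Pi.neg_apply, Polynomial.coeff_neg, Prod.fst_neg, mul_neg,
      Finset.sum_neg_distrib]
    rw [hv i]

/-- The underlying type in width `n`. -/
def Obj (n : ℕ) : Type u := ↥(carr A n)

noncomputable instance (n : ℕ) : AddCommGroup (Obj A n) := inferInstanceAs (AddCommGroup ↥(carr A n))

variable {A}

/-- The two components. -/
def Obj.c {n : ℕ} (v : Obj A n) : Fin n → K := (Subtype.val v : _ × _).1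

/-- The two components. -/
def Obj.h {n : ℕ} (v : Obj A n) : Fin n → Polynomial K := (Subtype.val v : _ × _).2

lemma Obj.rel {n : ℕ} (v : Obj A n) (i : Fin n) : (v.h i).coeff 0 = ∑ j, A n i j * v.c j :=
  v.2 i

/-- Constructor. -/
def Obj.mk {n : ℕ} (c : Fin n → K) (h : Fin n → Polynomial K)
    (hr : ∀ i, (h i).coeff 0 = ∑ j, A n i j * c j) : Obj A n := ⟨(c, h), hr⟩

@[ext] lemma Obj.ext {n : ℕ} {v w : Obj A n} (h1 : ∀ i, v.c i = w.c i) (h2 : ∀ i, v.h i = w.h i) :
    v = w :=
  Subtype.ext (Prod.ext (funext h1) (funext h2))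

@[simp] lemma Obj.c_mk {n : ℕ} (c : Fin n → K) (h : Fin n → Polynomial K) (hr) :
    (Obj.mk (A := A) c h hr).c = c := rfl

@[simp] lemma Obj.h_mk {n : ℕ} (c : Fin n → K) (h : Fin n → Polynomial K) (hr) :
    (Obj.mk (A := A) c h hr).h = h := rfl

@[simp] lemma Obj.c_zero {n : ℕ} : (0 : Obj A n).c = 0 := rfl
@[simp] lemma Obj.h_zero {n : ℕ} : (0 : Obj A n).h = 0 := rfl
@[simp] lemma Obj.c_add {n : ℕ} (v w : Obj A n) : (v + w).c = v.c + w.c := rfl
@[simp] lemma Obj.h_add {n : ℕ} (v w : Obj A n) : (v + w).h = v.h + w.h := rfl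
@[simp] lemma Obj.c_neg {n : ℕ} (v : Obj A n) : (-v).c = -v.c := rfl
@[simp] lemma Obj.h_neg {n : ℕ} (v : Obj A n) : (-v).h = -v.h := rfl
@[simp] lemma Obj.c_sub {n : ℕ} (v w : Obj A n) : (v - w).c = v.c - w.c := rfl
@[simp] lemma Obj.h_sub {n : ℕ} (v w : Obj A n) : (v - w).h = v.h - w.h := rfl

noncomputable instance (n : ℕ) : SMul (PolyAlg K 1 n) (Obj A n) where
  smul p v := Obj.mk (fun i => constantCoeff p * v.c i) (fun i => ev n i p * v.h i) (by
    intro i
    rw [Polynomial.mul_coeff_zero, ev_coeff_zero, v.rel, Finset.mul_sum]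
    exact Finset.sum_congr rfl fun j _ => by ring)

@[simp] lemma Obj.c_smul {n : ℕ} (p : PolyAlg K 1 n) (v : Obj A n) (i : Fin n) :
    (p • v).c i = constantCoeff p * v.c i := rfl
@[simp] lemma Obj.h_smul {n : ℕ} (p : PolyAlg K 1 n) (v : Obj A n) (i : Fin n) :
    (p • v).h i = ev n i p * v.h i := rfl

noncomputable instance (n : ℕ) : Module (PolyAlg K 1 n) (Obj A n) where
  one_smul v := by ext i <;> simp
  mul_smul p q v := by
    ext i
    · simp [mul_assoc]
    · simp [mul_assoc]
  smul_zero p := by ext i <;> simp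
  smul_add p v w := by
    ext i
    · simp [mul_add]
    · simp [mul_add]
  add_smul p q v := by
    ext i
    · simp [add_mul]
    · simp [add_mul]
  zero_smul v := by ext i <;> simp

open Classical in
/-- The transition maps. -/
noncomputable def Obj.map {m n : ℕ} (f : Fin m → Fin n) (hf : Function.Injective f)
    (hA : ∀ i j, A n (f i) (f j) = A m i j) : Obj A m →+ Obj A n where
  toFun v := Obj.mk (Function.extend f v.c 0)
    (Function.extend f v.h (fun j => Polynomial.C (∑ k, A n j (f k) * v.c k))) (by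
      intro j
      rw [sum_extend hf]
      by_cases hj : ∃ i, f i = j
      · obtain ⟨i, rfl⟩ := hj
        rw [hf.extend_apply, v.rel]
        exact Finset.sum_congr rfl fun k _ => by rw [hA]
      · rw [Function.extend_apply' _ _ _ hj]
        simp)
  map_zero' := by
    ext j
    · by_cases hj : ∃ i, f i = j
      · obtain ⟨i, rfl⟩ := hj
        simp [hf.extend_apply]
      · simp [Function.extend_apply' _ _ _ hj]
    · by_cases hj : ∃ i, f i = j
      · obtain ⟨i, rfl⟩ := hj
        simp [hf.extend_apply]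
      · simp [Function.extend_apply' _ _ _ hj]
  map_add' v w := by
    ext j
    · by_cases hj : ∃ i, f i = j
      · obtain ⟨i, rfl⟩ := hj
        simp [hf.extend_apply]
      · simp [Function.extend_apply' _ _ _ hj]
    · by_cases hj : ∃ i, f i = j
      · obtain ⟨i, rfl⟩ := hj
        simp [hf.extend_apply]
      · simp [Function.extend_apply' _ _ _ hj, mul_add, Finset.sum_add_distrib]

lemma Obj.map_c {m n : ℕ} (f : Fin m → Fin n) (hf : Function.Injective f)
    (hA : ∀ i j, A n (f i) (f j) = A m i j) (v : Obj A m) (i : Fin m) :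
    (Obj.map f hf hA v).c (f i) = v.c i := by
  change Function.extend f v.c 0 (f i) = _
  rw [hf.extend_apply]

lemma Obj.map_c' {m n : ℕ} (f : Fin m → Fin n) (hf : Function.Injective f)
    (hA : ∀ i j, A n (f i) (f j) = A m i j) (v : Obj A m) (j : Fin n) (hj : ¬ ∃ i, f i = j) :
    (Obj.map f hf hA v).c j = 0 := by
  change Function.extend f v.c 0 j = _
  rw [Function.extend_apply' _ _ _ hj]
  rfl

lemma Obj.map_h {m n : ℕ} (f : Fin m → Fin n) (hf : Function.Injective f)
    (hA : ∀ i j, A n (f i) (f j) = A m i j) (v : Obj A m) (i : Fin m) :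
    (Obj.map f hf hA v).h (f i) = v.h i := by
  change Function.extend f v.h (fun j => Polynomial.C (∑ k, A n j (f k) * v.c k)) (f i) = _
  rw [hf.extend_apply]

lemma Obj.map_h' {m n : ℕ} (f : Fin m → Fin n) (hf : Function.Injective f)
    (hA : ∀ i j, A n (f i) (f j) = A m i j) (v : Obj A m) (j : Fin n) (hj : ¬ ∃ i, f i = j) :
    (Obj.map f hf hA v).h j = Polynomial.C (∑ k, A n j (f k) * v.c k) := by
  change Function.extend f v.h (fun j => Polynomial.C (∑ k, A n j (f k) * v.c k)) j = _
  rw [Function.extend_apply' _ _ _ hj]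

variable (A)

/-- The OI- or FI-module attached to a natural family of matrices. -/
noncomputable def model (s : Shape)
    (hA : ∀ (m n : ℕ) (f : Fin m → Fin n), s.IsMor f → ∀ i j, A n (f i) (f j) = A m i j) :
    PMod K s 1 where
  obj := Obj A
  map f hf := Obj.map f hf.injective (hA _ _ f hf)
  map_id n h u := by
    refine Obj.ext (fun i => ?_) (fun i => ?_)
    · exact Obj.map_c (A := A) id h.injective (hA _ _ id h) u i
    · exact Obj.map_h (A := A) id h.injective (hA _ _ id h) u i
  map_comp {l m n} f g hf hg hgf u := by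
    refine Obj.ext (fun j => ?_) (fun j => ?_)
    · by_cases hj : ∃ i, g i = j
      · obtain ⟨i, rfl⟩ := hj
        rw [Obj.map_c]
        by_cases hi : ∃ k, f k = i
        · obtain ⟨k, rfl⟩ := hi
          rw [Obj.map_c]
          exact Obj.map_c (A := A) (g ∘ f) hgf.injective (hA _ _ _ hgf) u k
        · rw [Obj.map_c' _ _ _ _ _ hi, Obj.map_c']
          rintro ⟨k, hk⟩
          exact hi ⟨k, hg.injective hk⟩
      · rw [Obj.map_c' _ _ _ _ _ hj, Obj.map_c']
        rintro ⟨k, hk⟩
        exact hj ⟨_, hk⟩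
    · by_cases hj : ∃ i, g i = j
      · obtain ⟨i, rfl⟩ := hj
        rw [Obj.map_h]
        by_cases hi : ∃ k, f k = i
        · obtain ⟨k, rfl⟩ := hi
          rw [Obj.map_h]
          exact Obj.map_h (A := A) (g ∘ f) hgf.injective (hA _ _ _ hgf) u k
        · rw [Obj.map_h' _ _ _ _ _ hi, Obj.map_h']
          · refine congrArg _ (Finset.sum_congr rfl fun k _ => ?_)
            rw [Function.comp_apply, hA _ _ g hg]
          · rintro ⟨k, hk⟩
            exact hi ⟨k, hg.injective hk⟩
      · rw [Obj.map_h' _ _ _ _ _ hj, Obj.map_h']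
        · exact congrArg _ (sum_extend (K := K) (f := f) hf.injective (fun i => A n j (g i))
            u.c).symm
        · rintro ⟨k, hk⟩
          exact hj ⟨_, hk⟩
  map_smul {m n} f hf p u := by
    refine Obj.ext (fun j => ?_) (fun j => ?_)
    · by_cases hj : ∃ i, f i = j
      · obtain ⟨i, rfl⟩ := hj
        rw [Obj.map_c, Obj.c_smul, Obj.c_smul, Obj.map_c, ← ev_coeff_zero m i p,
          ← ev_coeff_zero n (f i), ev_rename hf.injective]
      · rw [Obj.map_c' _ _ _ _ _ hj, Obj.c_smul, Obj.map_c' _ _ _ _ _ hj, mul_zero]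
    · by_cases hj : ∃ i, f i = j
      · obtain ⟨i, rfl⟩ := hj
        rw [Obj.map_h, Obj.h_smul, Obj.h_smul, Obj.map_h, ev_rename hf.injective]
      · rw [Obj.map_h' _ _ _ _ _ hj, Obj.h_smul, Obj.map_h' _ _ _ _ _ hj,
          ev_rename_of_not j (fun i hi => hj ⟨i, hi⟩), ← map_mul, Finset.mul_sum]
        exact congrArg _ (Finset.sum_congr rfl fun k _ => by rw [Obj.c_smul]; ring)

end Pool.Agent.R830.OIM
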