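import Mathlib

/-!
Projective dimension of quotients of polynomial rings by variables.
-/

namespace Pool.Agent.R830.OIM

open CategoryTheory Abelian MvPolynomial

universe u

section general

variable {R : Type u} [CommRing R]

lemma pd_step {M N : Type u} [AddCommGroup M] [Module R M] [AddCommGroup N] [Module R N]
    (f : M →ₗ[R] M) (g : M →ₗ[R] N) (hf : Function.Injective f) (hg : Function.Surjective g)
    (hfg : Function.Exact f g) (k : ℕ) (h : HasProjectiveDimensionLT (ModuleCat.of R M) k) :
    HasProjectiveDimensionLT (ModuleCat.of R N) (k + 1) := by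
  let S : ShortComplex (ModuleCat.{u} R) :=
    ModuleCat.shortComplexOfCompEqZero f g hfg.linearMap_comp_eq_zero
  have hS : S.ShortExact := ModuleCat.shortComplex_shortExact S hfg hf hg
  exact hS.hasProjectiveDimensionLT_X₃ k h (hasProjectiveDimensionLT_of_ge _ k _ (Nat.le_succ k))

lemma pd_mid {L M N : Type u} [AddCommGroup L] [Module R L] [AddCommGroup M] [Module R M]
    [AddCommGroup N] [Module R N]
    (f : L →ₗ[R] M) (g : M →ₗ[R] N) (hf : Function.Injective f) (hg : Function.Surjective g)
    (hfg : Function.Exact f g) (k : ℕ) (h : HasProjectiveDimensionLT (ModuleCat.of R L) k)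
    (h' : HasProjectiveDimensionLT (ModuleCat.of R N) k) :
    HasProjectiveDimensionLT (ModuleCat.of R M) k := by
  let S : ShortComplex (ModuleCat.{u} R) :=
    ModuleCat.shortComplexOfCompEqZero f g hfg.linearMap_comp_eq_zero
  have hS : S.ShortExact := ModuleCat.shortComplex_shortExact S hfg hf hg
  exact hS.hasProjectiveDimensionLT_X₂ k h h'

lemma ext_step {M N L : Type u} [AddCommGroup M] [Module R M] [AddCommGroup N] [Module R N]
    [AddCommGroup L] [Module R L] (x : R) (hx : ∀ l : L, x • l = 0)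
    (hinj : ∀ m : M, x • m = 0 → m = 0) (g : M →ₗ[R] N) (hg : Function.Surjective g)
    (hfg : ∀ m, g m = 0 ↔ ∃ m', x • m' = m) (k : ℕ)
    (h : ∃ e : Ext (ModuleCat.of R M) (ModuleCat.of R L) k, e ≠ 0) :
    ∃ e : Ext (ModuleCat.of R N) (ModuleCat.of R L) (k + 1), e ≠ 0 := by
  obtain ⟨e, he⟩ := h
  have hex : Function.Exact (LinearMap.lsmul R M x) g := by
    intro m
    rw [hfg m]
    simp
  let S : ShortComplex (ModuleCat.{u} R) :=
    ModuleCat.shortComplexOfCompEqZero (LinearMap.lsmul R M x) g hex.linearMap_comp_eq_zero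
  have hS : S.ShortExact := by
    refine ModuleCat.shortComplex_shortExact S hex ?_ hg
    rw [injective_iff_map_eq_zero]
    exact fun m hm => hinj m hm
  refine ⟨hS.extClass.comp e (add_comm 1 k), fun h0 => he ?_⟩
  obtain ⟨x₂, hx₂⟩ := Ext.contravariant_sequence_exact₁ hS _ e (add_comm 1 k) h0
  have hf : S.f = x • 𝟙 (ModuleCat.of R M) := rfl
  have hL : x • 𝟙 (ModuleCat.of R L) = 0 := by
    ext l
    exact hx l
  rw [← hx₂, hf, Ext.mk₀_smul, Ext.smul_comp]
  have : (Ext.mk₀ (𝟙 (ModuleCat.of R M))).comp x₂ (zero_add k) = x₂ := Ext.mk₀_id_comp x₂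
  rw [this, Ext.smul_eq_comp_mk₀, hL]
  simp

end general

variable {K : Type u} [Field K] {σ : Type}

/-- The quotient of the polynomial ring by the variables in `S`. -/
abbrev Q (K : Type u) [Field K] {σ : Type} (S : Set σ) : Type u :=
  MvPolynomial σ K ⧸ Ideal.span (X '' S : Set (MvPolynomial σ K))

lemma X_mul_mem {S : Set σ} {a : σ} (ha : a ∉ S) {p : MvPolynomial σ K}
    (h : X a * p ∈ Ideal.span (X '' S : Set (MvPolynomial σ K))) :
    p ∈ Ideal.span (X '' S : Set (MvPolynomial σ K)) := by
  classical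
  rw [mem_ideal_span_X_image] at h ⊢
  intro m hm
  have h1 : Finsupp.single a 1 + m ∈ (X a * p).support := by
    rw [mem_support_iff] at hm ⊢
    rwa [coeff_X_mul]
  obtain ⟨i, hi, h2⟩ := h _ h1
  refine ⟨i, hi, ?_⟩
  have : a ≠ i := fun h => ha (h ▸ hi)
  simpa [Finsupp.single_apply, this] using h2

lemma Q_inj {S : Set σ} {a : σ} (ha : a ∉ S) (q : Q K S)
    (h : (X a : MvPolynomial σ K) • q = 0) : q = 0 := by
  obtain ⟨p, rfl⟩ := Ideal.Quotient.mk_surjective q
  rw [Ideal.Quotient.eq_zero_iff_mem]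
  apply X_mul_mem ha
  rw [← Ideal.Quotient.eq_zero_iff_mem, map_mul]
  exact h

/-- The projection. -/
noncomputable def Qproj {S T : Set σ} (h : S ⊆ T) : Q K S →ₗ[MvPolynomial σ K] Q K T :=
  Submodule.mapQ _ _ LinearMap.id (by
    rw [Submodule.comap_id]
    exact Ideal.span_mono (Set.image_mono h))

lemma Qproj_mk {S T : Set σ} (h : S ⊆ T) (p : MvPolynomial σ K) :
    Qproj h (Ideal.Quotient.mk _ p) = Ideal.Quotient.mk _ p := rfl

lemma Qproj_surj {S T : Set σ} (h : S ⊆ T) : Function.Surjective (Qproj (K := K) h) := by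
  intro q
  obtain ⟨p, rfl⟩ := Ideal.Quotient.mk_surjective q
  exact ⟨Ideal.Quotient.mk _ p, rfl⟩

lemma Qproj_ker {S : Set σ} {a : σ} (q : Q K S) :
    Qproj (K := K) (Set.subset_insert a S) q = 0 ↔
      ∃ q' : Q K S, (X a : MvPolynomial σ K) • q' = q := by
  constructor
  · intro h
    obtain ⟨p, rfl⟩ := Ideal.Quotient.mk_surjective q
    rw [Qproj_mk, Ideal.Quotient.eq_zero_iff_mem, Set.image_insert_eq, Ideal.span_insert,
      Ideal.mem_span_singleton_sup] at h
    obtain ⟨r, t, ht, rfl⟩ := h
    refine ⟨Ideal.Quotient.mk _ r, ?_⟩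
    rw [map_add, Ideal.Quotient.eq_zero_iff_mem.mpr ht, add_zero, mul_comm, map_mul]
    rfl
  · rintro ⟨q', rfl⟩
    obtain ⟨p, rfl⟩ := Ideal.Quotient.mk_surjective q'
    change Ideal.Quotient.mk _ (X a * p) = 0
    rw [Ideal.Quotient.eq_zero_iff_mem]
    exact Ideal.mul_mem_right _ _ (Ideal.subset_span ⟨a, Set.mem_insert _ _, rfl⟩)

lemma Q_zero {S : Set σ} {a : σ} (ha : a ∈ S) (q : Q K S) :
    (X a : MvPolynomial σ K) • q = 0 := by
  obtain ⟨p, rfl⟩ := Ideal.Quotient.mk_surjective q
  change Ideal.Quotient.mk _ (X a * p) = 0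
  rw [Ideal.Quotient.eq_zero_iff_mem]
  exact Ideal.mul_mem_right _ _ (Ideal.subset_span ⟨a, ha, rfl⟩)

lemma one_Q_ne (S : Set σ) : (Ideal.Quotient.mk _ 1 : Q K S) ≠ 0 := by
  classical
  rw [Ne, Ideal.Quotient.eq_zero_iff_mem, mem_ideal_span_X_image]
  intro h
  obtain ⟨i, _, hi⟩ := h 0 (by simp)
  simp at hi

/-- `Ext^{|S|}(P/(x_s : s ∈ S), K) ≠ 0`. -/
lemma ext_Q (k : ℕ) : ∀ S : Finset σ, S.card = k →
    ∃ e : Ext (ModuleCat.of (MvPolynomial σ K) (Q K (S : Set σ)))
      (ModuleCat.of (MvPolynomial σ K) (Q K (Set.univ : Set σ))) k, e ≠ 0 := by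
  classical
  induction k with
  | zero =>
    intro S hS
    refine ⟨Ext.mk₀ (ModuleCat.ofHom (Qproj (Set.subset_univ _))), fun h => ?_⟩
    rw [← Ext.mk₀_zero] at h
    have h1 := (Ext.mk₀_bijective _ _).1 h
    have h2 := congrArg (fun f => f.hom (Ideal.Quotient.mk _ 1)) h1
    exact one_Q_ne (K := K) (Set.univ : Set σ) h2
  | succ k ih =>
    intro S hS
    obtain ⟨a, ha⟩ : S.Nonempty := by
      rw [← Finset.card_pos]; omega
    have hT : (S.erase a).card = k := by rw [Finset.card_erase_of_mem ha, hS]; rfl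
    have hins : (S : Set σ) = insert a ((S.erase a : Finset σ) : Set σ) := by
      rw [← Finset.coe_insert, Finset.insert_erase ha]
    rw [hins]
    exact ext_step (X a : MvPolynomial σ K) (fun l => Q_zero (Set.mem_univ a) l)
      (fun m hm => Q_inj (by simp) m hm) (Qproj (Set.subset_insert a _)) (Qproj_surj _)
      (fun m => Qproj_ker m) k (ih _ hT)

/-- The projective dimension of `∏_i P/(x_s : s ∈ S_i)`, upper bound. -/
lemma pd_pi {ι : Type} [Fintype ι] (k : ℕ) : ∀ S : ι → Finset σ, (∀ i, (S i).card = k) →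
    HasProjectiveDimensionLT (ModuleCat.of (MvPolynomial σ K) ((i : ι) → Q K (S i : Set σ)))
      (k + 1) := by
  classical
  induction k with
  | zero =>
    intro S hS
    rw [← projective_iff_hasProjectiveDimensionLT_one, ← IsProjective.iff_projective]
    have h : ∀ i, (S i : Set σ) = ∅ := fun i => by
      rw [Finset.coe_eq_empty, ← Finset.card_eq_zero, hS i]
    have e : ∀ i, Q K (S i : Set σ) ≃ₗ[MvPolynomial σ K] MvPolynomial σ K := fun i =>
      Submodule.quotEquivOfEqBot _ (by rw [h i, Set.image_empty, Ideal.span_empty])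
    exact Module.Projective.of_equiv (LinearEquiv.piCongrRight e).symm
  | succ k ih =>
    intro S hS
    have hne : ∀ i, (S i).Nonempty := fun i => by
      rw [← Finset.card_pos, hS i]; omega
    choose a ha using hne
    have hT : ∀ i, ((S i).erase (a i)).card = k := fun i => by
      rw [Finset.card_erase_of_mem (ha i), hS i]; rfl
    have hins : (fun i => (S i : Set σ)) =
        fun i => insert (a i) (((S i).erase (a i) : Finset σ) : Set σ) := by
      funext i
      rw [← Finset.coe_insert, Finset.insert_erase (ha i)]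
    have key := pd_step (R := MvPolynomial σ K)
      (M := (i : ι) → Q K (((S i).erase (a i) : Finset σ) : Set σ))
      (N := (i : ι) → Q K (insert (a i) (((S i).erase (a i) : Finset σ) : Set σ)))
      (LinearMap.pi fun i => (LinearMap.lsmul (MvPolynomial σ K) _ (X (a i))).comp
        (LinearMap.proj i))
      (LinearMap.pi fun i => (Qproj (Set.subset_insert (a i) _)).comp (LinearMap.proj i))
      (by
        rw [injective_iff_map_eq_zero]
        intro q hq
        funext i
        exact Q_inj (by simp) _ (congrFun hq i))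
      (by
        intro q
        choose r hr using fun i => Qproj_surj (K := K)
          (Set.subset_insert (a i) (((S i).erase (a i) : Finset σ) : Set σ)) (q i)
        exact ⟨r, funext hr⟩)
      (by
        intro q
        constructor
        · intro h
          choose r hr using fun i => (Qproj_ker (K := K) (q i)).mp (congrFun h i)
          exact ⟨r, funext hr⟩
        · rintro ⟨r, rfl⟩
          funext i
          exact (Qproj_ker (K := K) _).mpr ⟨r i, rfl⟩)
      (k + 1) (ih _ hT)
    have e : ((i : ι) → Q K (insert (a i) (((S i).erase (a i) : Finset σ) : Set σ)))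
        ≃ₗ[MvPolynomial σ K] ((i : ι) → Q K (S i : Set σ)) :=
      LinearEquiv.piCongrRight fun i => Submodule.quotEquivOfEq _ _ (by
        rw [show (S i : Set σ) = _ from congrFun hins i])
    exact hasProjectiveDimensionLT_of_iso e.toModuleIso _

end Pool.Agent.R830.OIM
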