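import Pool.Agent.R830.OIM.Model
import Pool.Agent.R830.OIM.PdQ

/-!
The projective dimension of the model modules.
-/

namespace Pool.Agent.R830.OIM

open CategoryTheory Abelian MvPolynomial

universe u

variable {K : Type u} [Field K]

/-- Lifting a polynomial in one variable to the `i`-th axis. -/
noncomputable def lft (n : ℕ) (i : Fin n) : Polynomial K →ₐ[K] PolyAlg K 1 n :=
  Polynomial.aeval (X (0, i))

lemma ev_lft (n : ℕ) (i : Fin n) (q : Polynomial K) : ev n i (lft n i q) = q := by
  have : (ev n i).comp (lft n i) = AlgHom.id K (Polynomial K) := by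
    apply Polynomial.algHom_ext
    simp [ev, lft]
  exact congrArg (fun g => g q) this

/-- The variables other than the `i`-th. -/
def oth (n : ℕ) (i : Fin n) : Finset (Fin 1 × Fin n) := Finset.univ.filter fun v => v.2 ≠ i

lemma oth_card (n : ℕ) (i : Fin n) : (oth n i).card = n - 1 := by
  have h : oth n i = Finset.univ.erase (0, i) := by
    ext v
    have : v.1 = 0 := Subsingleton.elim _ _
    simp [oth, Prod.ext_iff, this]
  rw [h, Finset.card_erase_of_mem (Finset.mem_univ _)]
  simp

lemma ev_mem (n : ℕ) (i : Fin n) (p : PolyAlg K 1 n)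
    (hp : p ∈ Ideal.span (X '' (oth n i : Set (Fin 1 × Fin n)) : Set (PolyAlg K 1 n))) :
    ev n i p = 0 := by
  have : Ideal.span (X '' (oth n i : Set (Fin 1 × Fin n)) : Set (PolyAlg K 1 n)) ≤
      RingHom.ker (ev n i).toRingHom := by
    rw [Ideal.span_le]
    rintro _ ⟨v, hv, rfl⟩
    have hv' : v.2 ≠ i := by simpa [oth] using hv
    change ev n i (X v) = 0
    simp [ev, hv']
  exact this hp

lemma sub_lft_mem (n : ℕ) (i : Fin n) (p : PolyAlg K 1 n) :
    p - lft n i (ev n i p) ∈
      Ideal.span (X '' (oth n i : Set (Fin 1 × Fin n)) : Set (PolyAlg K 1 n)) := by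
  induction p using MvPolynomial.induction_on with
  | C a => simp [ev, lft]
  | add p q hp hq =>
    have : p + q - lft n i (ev n i (p + q)) =
        (p - lft n i (ev n i p)) + (q - lft n i (ev n i q)) := by
      rw [map_add, map_add]; ring
    rw [this]
    exact Ideal.add_mem _ hp hq
  | mul_X p v hp =>
    by_cases hv : v.2 = i
    · obtain ⟨a, b⟩ := v
      obtain rfl : a = 0 := Subsingleton.elim _ _
      dsimp only at hv
      subst hv
      have : p * X (0, b) - lft n b (ev n b (p * X (0, b))) =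
          X (0, b) * (p - lft n b (ev n b p)) := by
        rw [map_mul, map_mul]
        simp [ev, lft]
        ring
      rw [this]
      exact Ideal.mul_mem_left _ _ hp
    · have : p * X v - lft n i (ev n i (p * X v)) = p * X v := by
        rw [map_mul]
        simp [ev, hv]
      rw [this]
      exact Ideal.mul_mem_left _ _ (Ideal.subset_span ⟨v, by simpa [oth] using hv, rfl⟩)

/-- `P/(x_j : j ≠ i) → K[X]`. -/
noncomputable def evQ (n : ℕ) (i : Fin n) :
    Q K (oth n i : Set (Fin 1 × Fin n)) →+* Polynomial K :=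
  Ideal.Quotient.lift _ (ev n i).toRingHom (fun p hp => ev_mem n i p hp)

lemma evQ_mk (n : ℕ) (i : Fin n) (p : PolyAlg K 1 n) :
    evQ n i (Ideal.Quotient.mk _ p) = ev n i p := rfl

lemma evQ_inj (n : ℕ) (i : Fin n) : Function.Injective (evQ (K := K) n i) := by
  rw [injective_iff_map_eq_zero]
  intro q hq
  obtain ⟨p, rfl⟩ := Ideal.Quotient.mk_surjective q
  rw [evQ_mk] at hq
  rw [Ideal.Quotient.eq_zero_iff_mem]
  simpa [hq] using sub_lft_mem n i p

lemma evQ_smul (n : ℕ) (i : Fin n) (p : PolyAlg K 1 n) (q : Q K (oth n i : Set (Fin 1 × Fin n))) :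
    evQ n i (p • q) = ev n i p * evQ n i q := by
  obtain ⟨r, rfl⟩ := Ideal.Quotient.mk_surjective q
  change evQ n i (Ideal.Quotient.mk _ (p * r)) = _
  rw [evQ_mk, evQ_mk, map_mul]

variable {A : (n : ℕ) → Fin n → Fin n → K}

/-- The matrix in width `n` as a linear map. -/
def mv (A : (n : ℕ) → Fin n → Fin n → K) (n : ℕ) : (Fin n → K) →ₗ[K] (Fin n → K) where
  toFun c i := ∑ j, A n i j * c j
  map_add' c d := by
    funext i
    simp [mul_add, Finset.sum_add_distrib]
  map_smul' a c := by
    funext i
    simp only [Pi.smul_apply, smul_eq_mul, RingHom.id_apply, Finset.mul_sum]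
    exact Finset.sum_congr rfl fun j _ => by ring

/-- The axes embedding. -/
noncomputable def toAxes (A : (n : ℕ) → Fin n → Fin n → K) (n : ℕ) :
    Obj A n →ₗ[PolyAlg K 1 n] ((i : Fin n) → Q K (oth n i : Set (Fin 1 × Fin n))) where
  toFun v i := Ideal.Quotient.mk _ (lft n i (v.h i))
  map_add' v w := by
    funext i
    simp
  map_smul' p v := by
    funext i
    apply evQ_inj
    rw [RingHom.id_apply, Pi.smul_apply, evQ_smul, evQ_mk, evQ_mk, ev_lft, ev_lft, Obj.h_smul]

lemma evQ_toAxes (n : ℕ) (v : Obj A n) (i : Fin n) : evQ n i (toAxes A n v i) = v.h i := by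
  change evQ n i (Ideal.Quotient.mk _ (lft n i (v.h i))) = _
  rw [evQ_mk, ev_lft]

lemma toAxes_bij (n : ℕ) (hA : Function.Injective (mv A n)) :
    Function.Bijective (toAxes A n) := by
  constructor
  · rw [injective_iff_map_eq_zero]
    intro v hv
    have h : ∀ i, v.h i = 0 := fun i => by
      rw [← evQ_toAxes, hv]
      simp
    have hc : mv A n v.c = 0 := by
      funext i
      change ∑ j, A n i j * v.c j = 0
      rw [← v.rel, h i]
      simp
    have hc' : v.c = 0 := hA (by rw [hc, map_zero])
    refine Obj.ext (fun i => ?_) (fun i => ?_)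
    · rw [hc']; rfl
    · rw [h i]; rfl
  · intro q
    have hs : Function.Surjective (mv A n) := LinearMap.injective_iff_surjective.mp hA
    obtain ⟨c, hc⟩ := hs (fun i => (evQ n i (q i)).coeff 0)
    refine ⟨Obj.mk c (fun i => evQ n i (q i)) (fun i => (congrFun hc i).symm), ?_⟩
    funext i
    apply evQ_inj
    rw [evQ_toAxes]
    rfl

/-- Upper bound when the matrix is invertible. -/
lemma pd_le_of_inj (n : ℕ) (hA : Function.Injective (mv A n)) :
    HasProjectiveDimensionLT (ModuleCat.of (PolyAlg K 1 n) (Obj A n)) (n - 1 + 1) := by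
  have e := LinearEquiv.ofBijective _ (toAxes_bij n hA)
  have := pd_pi (K := K) (n - 1) (oth n) (oth_card n)
  exact hasProjectiveDimensionLT_of_iso e.symm.toModuleIso _

/-- Lower bound when the matrix is invertible. -/
lemma pd_ge_of_inj (n : ℕ) (hA : Function.Injective (mv A n)) (i : Fin n) :
    ¬ HasProjectiveDimensionLT (ModuleCat.of (PolyAlg K 1 n) (Obj A n)) (n - 1) := by
  classical
  intro h
  let e := LinearEquiv.ofBijective _ (toAxes_bij n hA)
  obtain ⟨x, hx⟩ := ext_Q (K := K) (n - 1) (oth n i) (oth_card n i)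
  let r : Retract (ModuleCat.of (PolyAlg K 1 n) (Q K (oth n i : Set (Fin 1 × Fin n))))
      (ModuleCat.of (PolyAlg K 1 n) (Obj A n)) :=
    { i := ModuleCat.ofHom (e.symm.toLinearMap.comp
        (LinearMap.single (PolyAlg K 1 n) (fun i => Q K (oth n i : Set (Fin 1 × Fin n))) i))
      r := ModuleCat.ofHom ((LinearMap.proj i).comp e.toLinearMap)
      retract := by
        ext
        simp }
  have := r.hasProjectiveDimensionLT (n - 1)
  exact hx (x.eq_zero_of_hasProjectiveDimensionLT (n - 1) le_rfl)

lemma C_mem (n : ℕ) (S : Set (Fin 1 × Fin n)) (hS : S = Set.univ) (p : PolyAlg K 1 n)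
    (hp : constantCoeff p = 0) : p ∈ Ideal.span (X '' S : Set (PolyAlg K 1 n)) := by
  rw [mem_ideal_span_X_image]
  intro m hm
  by_contra hcon
  push Not at hcon
  have hm0 : m = 0 := by
    ext v
    exact hcon v (by simp [hS])
  subst hm0
  rw [mem_support_iff] at hm
  exact hm hp

/-- The `a`-th coordinate of the first component, as a map to the residue field. -/
noncomputable def toK (A : (n : ℕ) → Fin n → Fin n → K) (n : ℕ) (S : Set (Fin 1 × Fin n))
    (hS : S = Set.univ) (t : K) (a : Fin n) :
    Obj A n →ₗ[PolyAlg K 1 n] Q K S where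
  toFun v := Ideal.Quotient.mk _ (C (v.c a * t))
  map_add' v w := by
    simp [add_mul]
  map_smul' p v := by
    simp only [Obj.c_smul, RingHom.id_apply]
    change _ = Ideal.Quotient.mk _ (p * C (v.c a * t))
    rw [Ideal.Quotient.mk_eq_mk_iff_sub_mem]
    apply C_mem _ _ hS
    rw [map_sub, map_mul constantCoeff p, constantCoeff_C, constantCoeff_C, mul_assoc, sub_self]

/-- Upper bound in general. -/
lemma pd_le (n : ℕ) :
    HasProjectiveDimensionLT (ModuleCat.of (PolyAlg K 1 n) (Obj A n)) (n + 1) := by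
  classical
  let f : ((i : Fin n) → Q K (oth n i : Set (Fin 1 × Fin n))) →ₗ[PolyAlg K 1 n] Obj A n :=
    { toFun := fun q => Obj.mk 0 (fun i => evQ n i (q i) * Polynomial.X) (by simp)
      map_add' := fun q r => by
        refine Obj.ext (fun i => ?_) (fun i => ?_)
        · simp
        · simp [add_mul]
      map_smul' := fun p q => by
        refine Obj.ext (fun i => ?_) (fun i => ?_)
        · simp
        · simp only [Obj.h_mk, Pi.smul_apply, RingHom.id_apply, Obj.h_smul]
          rw [evQ_smul, mul_assoc] }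
  let g : Obj A n →ₗ[PolyAlg K 1 n] ((i : Fin n) →
      Q K ((Finset.univ : Finset (Fin 1 × Fin n)) : Set (Fin 1 × Fin n))) :=
    LinearMap.pi fun i => toK A n _ (by simp) 1 i
  have h1 := pd_pi (K := K) (n - 1) (oth n) (oth_card n)
  have h2 := pd_pi (K := K) (ι := Fin n) n (fun _ => (Finset.univ : Finset (Fin 1 × Fin n)))
    (by intro i; simp)
  refine pd_mid f g ?_ ?_ ?_ (n + 1) (hasProjectiveDimensionLT_of_ge _ (n - 1 + 1) _ (by omega)) h2
  · rw [injective_iff_map_eq_zero]
    intro q hq
    funext i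
    apply evQ_inj
    have h3 := congrArg (fun v => Obj.h v i) hq
    have h4 : evQ n i (q i) * Polynomial.X = 0 := h3
    rw [(mul_eq_zero.mp h4).resolve_right Polynomial.X_ne_zero]
    simp
  · intro q
    have : ∀ i, ∃ a : K, (Ideal.Quotient.mk _ (C a) : Q K _) = q i := by
      intro i
      obtain ⟨p, hp⟩ := Ideal.Quotient.mk_surjective (q i)
      refine ⟨constantCoeff p, ?_⟩
      rw [← hp, Ideal.Quotient.mk_eq_mk_iff_sub_mem]
      apply C_mem _ _ (by simp)
      simp
    choose a ha using this
    refine ⟨Obj.mk a (fun i => Polynomial.C (∑ j, A n i j * a j)) (by simp), funext fun i => ?_⟩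
    rw [← ha i]
    change Ideal.Quotient.mk _ (C (a i * 1)) = _
    rw [mul_one]
  · intro v
    constructor
    · intro h
      have hc : ∀ i, v.c i = 0 := by
        intro i
        have h3 : (Ideal.Quotient.mk _ (C (v.c i * 1)) : Q K _) = 0 := congrFun h i
        rw [Ideal.Quotient.eq_zero_iff_mem, mem_ideal_span_X_image] at h3
        by_contra h0
        obtain ⟨j, _, hj⟩ := h3 0 (by simp [h0])
        simp at hj
      refine ⟨fun i => Ideal.Quotient.mk _ (lft n i (v.h i).divX), ?_⟩
      refine Obj.ext (fun i => ?_) (fun i => ?_)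
      · exact (hc i).symm
      · change evQ n i (Ideal.Quotient.mk _ (lft n i (v.h i).divX)) * Polynomial.X = v.h i
        rw [evQ_mk, ev_lft]
        have h4 := (v.h i).divX_mul_X_add
        rw [v.rel] at h4
        simpa [hc] using h4
    · rintro ⟨q, rfl⟩
      funext i
      change (Ideal.Quotient.mk _ (C (0 * 1)) : Q K _) = 0
      simp

/-- Lower bound when the matrix is singular. -/
lemma pd_ge_of_not_inj (n : ℕ) (hA : ¬ Function.Injective (mv A n)) :
    ¬ HasProjectiveDimensionLT (ModuleCat.of (PolyAlg K 1 n) (Obj A n)) n := by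
  classical
  intro h
  rw [injective_iff_map_eq_zero] at hA
  push Not at hA
  obtain ⟨u, hu, hu0⟩ := hA
  obtain ⟨a, ha⟩ : ∃ a, u a ≠ 0 := Function.ne_iff.mp hu0
  let v0 : Obj A n := Obj.mk u 0 (fun i => by
    have : ∑ j, A n i j * u j = 0 := congrFun hu i
    simp [this])
  have hx : ∀ v, (X v : PolyAlg K 1 n) • v0 = 0 := fun v => by
    refine Obj.ext (fun i => ?_) (fun i => ?_)
    · simp
    · simp [v0]
  let j : Q K (Set.univ : Set (Fin 1 × Fin n)) →ₗ[PolyAlg K 1 n] Obj A n :=
    Submodule.liftQ _ (LinearMap.toSpanSingleton (PolyAlg K 1 n) (Obj A n) v0) (by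
      rw [Ideal.span_le]
      rintro _ ⟨v, _, rfl⟩
      change (X v : PolyAlg K 1 n) • v0 = 0
      exact hx v)
  have hex := ext_Q (K := K) n (Finset.univ : Finset (Fin 1 × Fin n)) (by simp)
  rw [Finset.coe_univ] at hex
  obtain ⟨x, hx0⟩ := hex
  let r : Retract (ModuleCat.of (PolyAlg K 1 n) (Q K (Set.univ : Set (Fin 1 × Fin n))))
      (ModuleCat.of (PolyAlg K 1 n) (Obj A n)) :=
    { i := ModuleCat.ofHom j
      r := ModuleCat.ofHom (toK A n _ rfl (u a)⁻¹ a)
      retract := by
        ext
        change (Ideal.Quotient.mk _ (C (constantCoeff 1 * u a * (u a)⁻¹)) : Q K _) =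
          Ideal.Quotient.mk _ 1
        simp [ha] }
  have := r.hasProjectiveDimensionLT n
  exact hx0 (x.eq_zero_of_hasProjectiveDimensionLT n le_rfl)

end Pool.Agent.R830.OIM
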