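import Pool.Agent.R830.OIM.Gr

/-!
Minimal graded free resolutions and Koszul homology.
-/

namespace Pool.Agent.R830.OIM

open MvPolynomial

universe u

variable {K : Type u} [Field K] {σ : Type}

section

variable {N N' : Type u} [AddCommGroup N] [Module (MvPolynomial σ K) N]
  [AddCommGroup N'] [Module (MvPolynomial σ K) N']

/-- A homogeneous linear map out of a free module commutes with the projections. -/
lemma free_map (G : Gr K σ N) {b : ℕ} (sh : Fin b → ℤ)
    (π : (Fin b → MvPolynomial σ K) →ₗ[MvPolynomial σ K] N)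
    (hπ : ∀ k, G.pr (sh k) (π (Pi.single k 1)) = π (Pi.single k 1)) (d : ℤ)
    (f : Fin b → MvPolynomial σ K) : π ((Gr.free sh).pr d f) = G.pr d (π f) := by
  classical
  have h : π.toAddMonoidHom.comp ((Gr.free sh).pr d) = (G.pr d).comp π.toAddMonoidHom := by
    apply AddMonoidHom.functions_ext
    intro k p
    change π ((Gr.free sh).pr d (Pi.single k p)) = G.pr d (π (Pi.single k p))
    induction p using MvPolynomial.induction_on' with
    | monomial m a =>
      have h1 : (Pi.single k (monomial m a) : Fin b → MvPolynomial σ K) =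
          (monomial m a : MvPolynomial σ K) • Pi.single k 1 := by
        rw [← Pi.single_smul, smul_eq_mul, mul_one]
      have h2 : (Gr.free sh).pr d (Pi.single k (monomial m a)) =
          if d = sh k + ((m.degree : ℕ) : ℤ) then
            (Pi.single k (monomial m a) : Fin b → MvPolynomial σ K) else 0 := by
        funext l
        change hc (d - sh l) ((Pi.single k (monomial m a) : Fin b → MvPolynomial σ K) l) = _
        by_cases hl : l = k
        · subst hl
          rw [Pi.single_eq_same]
          ext m'
          rw [coeff_hc, coeff_monomial]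
          by_cases hd : d = sh l + ((m.degree : ℕ) : ℤ)
          · rw [if_pos hd, Pi.single_eq_same, coeff_monomial]
            by_cases hm : m = m'
            · subst hm
              rw [if_pos rfl, if_pos (by omega)]
            · rw [if_neg hm, ite_self]
          · rw [if_neg hd, Pi.zero_apply, coeff_zero]
            by_cases hm : m = m'
            · subst hm
              rw [if_neg (by omega)]
            · rw [if_neg hm, ite_self]
        · rw [Pi.single_eq_of_ne hl, hc_zero]
          split_ifs
          · rw [Pi.single_eq_of_ne hl]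
          · rfl
      have h3 : π (Pi.single k (monomial m a)) =
          (monomial m a : MvPolynomial σ K) • π (Pi.single k 1) := by
        rw [h1, map_smul]
      have h4 := G.smul_monomial a m.degree m rfl (d - ((m.degree : ℕ) : ℤ)) (π (Pi.single k 1))
      rw [sub_add_cancel] at h4
      rw [h2, h3, h4]
      by_cases hd : d = sh k + ((m.degree : ℕ) : ℤ)
      · rw [if_pos hd, h3]
        have : d - ((m.degree : ℕ) : ℤ) = sh k := by omega
        rw [this, hπ k]
      · rw [if_neg hd, map_zero]
        have : d - ((m.degree : ℕ) : ℤ) ≠ sh k := by omega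
        rw [G.pr_ne this (hπ k), smul_zero]
    | add p q hp hq =>
      have : (Pi.single k (p + q) : Fin b → MvPolynomial σ K) = Pi.single k p + Pi.single k q :=
        Pi.single_add _ _ _
      rw [this, map_add, map_add, map_add, map_add, hp, hq]
  exact DFunLike.congr_fun h f

lemma ker_stable (G : Gr K σ N) {b : ℕ} (sh : Fin b → ℤ)
    (π : (Fin b → MvPolynomial σ K) →ₗ[MvPolynomial σ K] N)
    (hπ : ∀ k, G.pr (sh k) (π (Pi.single k 1)) = π (Pi.single k 1)) (d : ℤ) :
    ∀ z ∈ LinearMap.ker π, (Gr.free sh).pr d z ∈ LinearMap.ker π := by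
  intro z hz
  rw [LinearMap.mem_ker] at hz ⊢
  rw [free_map G sh π hπ, hz, map_zero]

end

variable [Fintype σ] [DecidableEq σ] (o : σ → ℕ)

section

variable {N N' : Type u} [AddCommGroup N] [Module (MvPolynomial σ K) N]
  [AddCommGroup N'] [Module (MvPolynomial σ K) N']

/-- The part of total degree `j`. -/
def pj (G : Gr K σ N) (j : ℤ) (χ : Finset σ → N) : Finset σ → N :=
  fun S => G.pr (j - (S.card : ℤ)) (χ S)

omit [Fintype σ] in
lemma pr_kc (G : Gr K σ N) (s : σ) (T : Finset σ) (d : ℤ) (u : N) :
    G.pr (d + 1) (kc K o s T • u) = kc K o s T • G.pr d u := by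
  rw [kc]
  rcases neg_one_pow_eq_or (MvPolynomial σ K) (T.filter fun t => o t < o s).card with h | h
  · rw [h, one_mul, G.smulX]
  · rw [h, neg_mul, one_mul, neg_smul, neg_smul, map_neg, G.smulX]

lemma kd_pj (G : Gr K σ N) (j : ℤ) (χ : Finset σ → N) :
    kd (K := K) o (pj G j χ) = pj G j (kd (K := K) o χ) := by
  funext T
  rw [pj, kd_apply, kd_apply, map_sum]
  refine Finset.sum_congr rfl fun s _ => ?_
  by_cases hs : s ∈ T
  · rw [if_pos hs, if_pos hs, map_zero]
  · rw [if_neg hs, if_neg hs, pj, Finset.card_insert_of_notMem hs]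
    have : j - (T.card : ℤ) = (j - ((T.card + 1 : ℕ) : ℤ)) + 1 := by push_cast; ring
    rw [this, pr_kc]

/-- The Koszul homology `H_i(x; N)_j` is nonzero. -/
def KH (G : Gr K σ N) (i : ℕ) (j : ℤ) : Prop :=
  ∃ φ : Finset σ → N, (∀ S, S.card ≠ i → φ S = 0) ∧ (∀ S, G.pr (j - i) (φ S) = φ S) ∧
    kd (K := K) o φ = 0 ∧ ¬ ∃ ψ : Finset σ → N, kd (K := K) o ψ = φ

lemma KH_shift (ho : Function.Injective o) (G : Gr K σ N) {b : ℕ} (sh : Fin b → ℤ)
    (π : (Fin b → MvPolynomial σ K) →ₗ[MvPolynomial σ K] N) (hs : Function.Surjective π)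
    (hπ : ∀ k, G.pr (sh k) (π (Pi.single k 1)) = π (Pi.single k 1))
    (hmin : ∀ z, π z = 0 → ∀ k, constantCoeff (z k) = 0) (i : ℕ) (j : ℤ) :
    KH o G (i + 1) j ↔
      KH o ((Gr.free sh).sub (LinearMap.ker π) (ker_stable G sh π hπ)) i j := by
  constructor
  · rintro ⟨φ, hφ1, hφ2, hφ3, hφ4⟩
    choose lf hlf using hs
    -- a homogeneous lift
    set φt : Finset σ → Fin b → MvPolynomial σ K :=
      fun S => if S.card = i + 1 then (Gr.free sh).pr (j - (i + 1 : ℕ)) (lf (φ S)) else 0 with hφt
    have hπφ : ∀ S, π (φt S) = φ S := by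
      intro S
      simp only [hφt]
      split_ifs with h
      · rw [free_map G sh π hπ, hlf, hφ2]
      · rw [map_zero, hφ1 S h]
    have hz : ∀ T, kd (K := K) o φt T ∈ LinearMap.ker π := by
      intro T
      rw [LinearMap.mem_ker]
      have h1 := congrFun (kd_comp (K := K) o π φt) T
      rw [← h1]
      have h2 : (fun S => π (φt S)) = φ := funext hπφ
      rw [h2, hφ3]
      rfl
    refine ⟨fun T => ⟨kd (K := K) o φt T, hz T⟩, ?_, ?_, ?_, ?_⟩
    · intro S hS
      ext1
      change kd (K := K) o φt S = 0
      rw [kd_apply]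
      refine Finset.sum_eq_zero fun s _ => ?_
      by_cases hs : s ∈ S
      · rw [if_pos hs]
      · rw [if_neg hs]
        have : (insert s S).card ≠ i + 1 := by
          rw [Finset.card_insert_of_notMem hs]
          omega
        simp only [hφt, if_neg this, smul_zero]
    · intro S
      ext1
      change (Gr.free sh).pr (j - i) (kd (K := K) o φt S) = kd (K := K) o φt S
      rw [kd_apply, map_sum]
      refine Finset.sum_congr rfl fun s _ => ?_
      by_cases hs : s ∈ S
      · rw [if_pos hs, map_zero]
      · rw [if_neg hs]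
        have h1 : j - (i : ℤ) = (j - ((i + 1 : ℕ) : ℤ)) + 1 := by push_cast; ring
        rw [h1, pr_kc]
        congr 1
        simp only [hφt]
        split_ifs
        · rw [Gr.pr_pr]
        · rw [map_zero]
    · have h1 := kd_comp (K := K) o (LinearMap.ker π).subtype
        (fun T => (⟨kd (K := K) o φt T, hz T⟩ : LinearMap.ker π))
      have h2 : kd (K := K) o (fun S => (LinearMap.ker π).subtype
        (⟨kd (K := K) o φt S, hz S⟩ : LinearMap.ker π)) = 0 := kd_kd (K := K) o ho φt
      rw [h2] at h1
      funext S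
      ext1
      exact (congrFun h1 S).symm
    · rintro ⟨ψ, hψ⟩
      apply hφ4
      have h1 := kd_comp (K := K) o (LinearMap.ker π).subtype (rs (i + 1) ψ)
      have h2 : kd (K := K) o (rs (i + 1) ψ) =
          fun T => (⟨kd (K := K) o φt T, hz T⟩ : LinearMap.ker π) := by
        rw [kd_rs, hψ]
        apply rs_self
        intro S hS
        ext1
        change kd (K := K) o φt S = 0
        rw [kd_apply]
        refine Finset.sum_eq_zero fun s _ => ?_
        by_cases hs : s ∈ S
        · rw [if_pos hs]
        · rw [if_neg hs]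
          have : (insert s S).card ≠ i + 1 := by
            rw [Finset.card_insert_of_notMem hs]
            omega
          simp only [hφt, if_neg this, smul_zero]
      rw [h2] at h1
      have h3 : kd (K := K) o (φt - fun S => (LinearMap.ker π).subtype (rs (i + 1) ψ S)) = 0 := by
        rw [map_sub, h1]
        funext S
        exact sub_self _
      obtain ⟨χ, hχ⟩ := koszul_free (K := K) o ho _ h3 (by
        intro k
        have h4 : ((∅ : Finset σ).card) ≠ i + 1 := by simp
        simp only [Pi.sub_apply, hφt, rs, if_neg h4, map_zero, Pi.zero_apply, sub_self])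
      refine ⟨fun S => π (χ S), ?_⟩
      rw [kd_comp, hχ]
      funext S
      change π (φt S - (LinearMap.ker π).subtype (rs (i + 1) ψ S)) = φ S
      rw [map_sub, hπφ]
      have h5 : π ((LinearMap.ker π).subtype (rs (i + 1) ψ S)) = 0 :=
        LinearMap.mem_ker.mp (rs (i + 1) ψ S).2
      rw [h5, sub_zero]
  · rintro ⟨ζ, hζ1, hζ2, hζ3, hζ4⟩
    have h1 : kd (K := K) o (fun S => (ζ S : Fin b → MvPolynomial σ K)) = 0 := by
      have := kd_comp (K := K) o (LinearMap.ker π).subtype ζ
      rw [hζ3] at this
      exact this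
    obtain ⟨χ₀, hχ₀⟩ := koszul_free (K := K) o ho _ h1
      (fun k => hmin _ (LinearMap.mem_ker.mp (ζ ∅).2) k)
    set χ := rs (i + 1) (pj (Gr.free sh) j χ₀) with hχdef
    have hχ : kd (K := K) o χ = fun S => (ζ S : Fin b → MvPolynomial σ K) := by
      rw [hχdef, kd_rs, kd_pj, hχ₀]
      funext S
      rw [rs]
      split_ifs with hS
      · rw [pj, hS]
        exact congrArg Subtype.val (hζ2 S)
      · rw [hζ1 S hS]
        rfl
    refine ⟨fun S => π (χ S), ?_, ?_, ?_, ?_⟩
    · intro S hS
      have hχS : χ S = 0 := if_neg hS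
      change π (χ S) = 0
      rw [hχS, map_zero]
    · intro S
      rw [← free_map G sh π hπ]
      congr 1
      have hχS : χ S = if S.card = i + 1 then pj (Gr.free sh) j χ₀ S else 0 := rfl
      rw [hχS]
      split_ifs with hS
      · rw [pj, hS, Gr.pr_pr]
      · rw [map_zero]
    · rw [kd_comp, hχ]
      funext S
      exact LinearMap.mem_ker.mp (ζ S).2
    · rintro ⟨ψ, hψ⟩
      apply hζ4
      choose lf hlf using hs
      have h2 : ∀ S, (χ - kd (K := K) o (fun S => lf (ψ S))) S ∈ LinearMap.ker π := by
        intro S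
        rw [LinearMap.mem_ker, Pi.sub_apply, map_sub]
        have h3 := congrFun (kd_comp (K := K) o π (fun S => lf (ψ S))) S
        rw [← h3]
        simp only [hlf]
        rw [hψ]
        exact sub_self _
      refine ⟨fun S => ⟨_, h2 S⟩, ?_⟩
      have h4 := kd_comp (K := K) o (LinearMap.ker π).subtype
        (fun S => (⟨_, h2 S⟩ : LinearMap.ker π))
      have h5 : kd (K := K) o (fun S => (LinearMap.ker π).subtype
          (⟨_, h2 S⟩ : LinearMap.ker π)) = fun S => (ζ S : Fin b → MvPolynomial σ K) := by
        change kd (K := K) o (χ - kd (K := K) o (fun S => lf (ψ S))) = _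
        rw [map_sub, kd_kd (K := K) o ho, hχ, sub_zero]
      rw [h5] at h4
      funext S
      ext1
      exact (congrFun h4 S).symm

lemma KH_zero (G : Gr K σ N) {b : ℕ} (sh : Fin b → ℤ)
    (π : (Fin b → MvPolynomial σ K) →ₗ[MvPolynomial σ K] N) (hs : Function.Surjective π)
    (hπ : ∀ k, G.pr (sh k) (π (Pi.single k 1)) = π (Pi.single k 1))
    (hmin : ∀ z, π z = 0 → ∀ k, constantCoeff (z k) = 0) (j : ℤ) :
    KH o G 0 j ↔ ∃ k, sh k = j := by
  constructor
  · rintro ⟨φ, hφ1, hφ2, hφ3, hφ4⟩
    by_contra hcon
    push Not at hcon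
    apply hφ4
    obtain ⟨f₀, hf₀⟩ := hs (φ ∅)
    set f := (Gr.free sh).pr j f₀ with hf
    have hπf : π f = φ ∅ := by
      rw [hf, free_map G sh π hπ, hf₀]
      simpa using hφ2 ∅
    have hc0 : ∀ k, constantCoeff (f k) = 0 := by
      intro k
      change constantCoeff (hc (j - sh k) (f₀ k)) = 0
      rw [constantCoeff_eq, coeff_hc, if_neg]
      intro h
      apply hcon k
      rw [map_zero] at h
      simp only [Nat.cast_zero] at h
      omega
    -- `f` is a boundary in the Koszul complex of the free module
    have hb : ∀ k, ∃ g : σ → MvPolynomial σ K, ∑ s, X s * g s = f k := by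
      intro k
      have h1 := (mem_span_univ_iff (f k)).mpr (hc0 k)
      rw [Finset.coe_univ, Set.image_univ] at h1
      obtain ⟨c, hc⟩ := (Ideal.mem_span_range_iff_exists_fun).mp h1
      exact ⟨c, by rw [← hc]; exact Finset.sum_congr rfl fun s _ => mul_comm _ _⟩
    choose g hg using hb
    refine ⟨fun S => ∑ s, if S = {s} then π (fun k => g k s) else 0, ?_⟩
    funext T
    rw [kd_apply]
    by_cases hT : T = ∅
    · subst hT
      have h2 : ∀ s, (if s ∈ (∅ : Finset σ) then (0 : N) else kc K o s ∅ •
          ∑ s', if insert s ∅ = ({s'} : Finset σ) then π (fun k => g k s') else 0) =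
          (X s : MvPolynomial σ K) • π (fun k => g k s) := by
        intro s
        rw [if_neg (Finset.notMem_empty s)]
        have h3 : kc K o s ∅ = (X s : MvPolynomial σ K) := by simp [kc]
        have h4 : ∀ s', (insert s ∅ = ({s'} : Finset σ)) ↔ s = s' := by
          intro s'
          rw [LawfulSingleton.insert_empty_eq]
          exact Finset.singleton_inj
        simp only [h3, h4]
        rw [Finset.sum_ite_eq, if_pos (Finset.mem_univ s)]
      rw [Finset.sum_congr rfl fun s _ => h2 s, ← hπf]
      have h5 : f = ∑ s, (X s : MvPolynomial σ K) • (fun k => g k s) := by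
        funext k
        rw [Finset.sum_apply, ← hg k]
        rfl
      rw [h5, map_sum]
      exact Finset.sum_congr rfl fun s _ => (map_smul _ _ _).symm
    · rw [hφ1 T (fun h => hT (Finset.card_eq_zero.mp h))]
      refine Finset.sum_eq_zero fun s _ => ?_
      split_ifs with hsT
      · rfl
      · have h6 : ∀ s', ¬ (insert s T = ({s'} : Finset σ)) := by
          intro s' h
          have h7 := congrArg Finset.card h
          rw [Finset.card_insert_of_notMem hsT, Finset.card_singleton] at h7
          apply hT
          apply Finset.card_eq_zero.mp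
          omega
        simp [h6]
  · rintro ⟨k, rfl⟩
    refine ⟨fun S => if S = ∅ then π (Pi.single k 1) else 0, ?_, ?_, ?_, ?_⟩
    · intro S hS
      refine if_neg ?_
      rintro rfl
      exact hS rfl
    · intro S
      simp only [Nat.cast_zero, sub_zero]
      split_ifs
      · exact hπ k
      · exact map_zero _
    · funext T
      rw [kd_apply]
      refine Finset.sum_eq_zero fun s _ => ?_
      split_ifs with h1 h2
      · rfl
      · exact absurd h2 (Finset.insert_ne_empty _ _)
      · rw [smul_zero]
    · rintro ⟨ψ, hψ⟩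
      choose lf hlf using hs
      have h1 := congrFun hψ ∅
      rw [kd_apply, if_pos rfl] at h1
      have h2 : π (Pi.single k 1 - ∑ s, (X s : MvPolynomial σ K) • lf (ψ (insert s ∅))) = 0 := by
        rw [map_sub, ← h1, map_sum, sub_eq_zero]
        refine Finset.sum_congr rfl fun s _ => ?_
        rw [if_neg (Finset.notMem_empty s), map_smul, hlf]
        have h3 : kc K o s ∅ = (X s : MvPolynomial σ K) := by simp [kc]
        rw [h3]
      have h3 := hmin _ h2 k
      rw [Pi.sub_apply, Pi.single_eq_same, map_sub, map_one, Finset.sum_apply, map_sum] at h3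
      simp at h3

end

/-- A minimal graded free resolution of the graded module `N`. -/
structure MR {N : Type u} [AddCommGroup N] [Module (MvPolynomial σ K) N] (G : Gr K σ N) where
  rk : ℕ → ℕ
  sh : (i : ℕ) → Fin (rk i) → ℤ
  aug : (Fin (rk 0) → MvPolynomial σ K) →ₗ[MvPolynomial σ K] N
  d : (i : ℕ) → (Fin (rk (i + 1)) → MvPolynomial σ K) →ₗ[MvPolynomial σ K]
    (Fin (rk i) → MvPolynomial σ K)
  aug_surj : Function.Surjective aug
  exact0 : LinearMap.range (d 0) = LinearMap.ker aug
  exact : ∀ i, LinearMap.range (d (i + 1)) = LinearMap.ker (d i)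
  aug_hom : ∀ k, G.pr (sh 0 k) (aug (Pi.single k 1)) = aug (Pi.single k 1)
  d_hom : ∀ i k, (Gr.free (sh i)).pr (sh (i + 1) k) (d i (Pi.single k 1)) = d i (Pi.single k 1)
  minimal : ∀ i k l, constantCoeff (d i (Pi.single k 1) l) = 0

omit [Fintype σ] [DecidableEq σ] in
lemma const_of_min {b c : ℕ} (f : (Fin b → MvPolynomial σ K) →ₗ[MvPolynomial σ K]
    (Fin c → MvPolynomial σ K)) (hf : ∀ k l, constantCoeff (f (Pi.single k 1) l) = 0)
    (z : Fin c → MvPolynomial σ K) (hz : z ∈ LinearMap.range f) (l : Fin c) :
    constantCoeff (z l) = 0 := by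
  obtain ⟨x, rfl⟩ := hz
  have h : x = ∑ k, x k • Pi.single k (1 : MvPolynomial σ K) := by
    funext m
    rw [Finset.sum_apply]
    simp [Pi.single_apply]
  rw [h, map_sum, Finset.sum_apply, map_sum]
  refine Finset.sum_eq_zero fun k _ => ?_
  rw [map_smul, Pi.smul_apply, smul_eq_mul, map_mul, hf, mul_zero]

/-- The tail of a resolution resolves the first syzygy module. -/
noncomputable def MR.tail {N : Type u} [AddCommGroup N] [Module (MvPolynomial σ K) N]
    {G : Gr K σ N} (R : MR G) :
    MR ((Gr.free (R.sh 0)).sub (LinearMap.ker R.aug) (ker_stable G (R.sh 0) R.aug R.aug_hom)) where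
  rk i := R.rk (i + 1)
  sh i := R.sh (i + 1)
  aug := (R.d 0).codRestrict (LinearMap.ker R.aug) (fun c => by
    rw [← R.exact0]
    exact ⟨c, rfl⟩)
  d i := R.d (i + 1)
  aug_surj := by
    rintro ⟨z, hz⟩
    rw [← R.exact0] at hz
    obtain ⟨x, hx⟩ := hz
    exact ⟨x, Subtype.ext hx⟩
  exact0 := by
    rw [LinearMap.ker_codRestrict]
    exact R.exact 0
  exact i := R.exact (i + 1)
  aug_hom k := by
    ext1
    exact R.d_hom 0 k
  d_hom i k := R.d_hom (i + 1) k
  minimal i k l := R.minimal (i + 1) k l

/-- The graded Betti numbers of a minimal graded free resolution are given by Koszul homology. -/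
theorem KH_iff (ho : Function.Injective o) (i : ℕ) : ∀ (N : Type u) [AddCommGroup N]
    [Module (MvPolynomial σ K) N] (G : Gr K σ N) (R : MR G) (j : ℤ),
    KH o G i j ↔ ∃ k, R.sh i k = j := by
  induction i with
  | zero =>
    intro N _ _ G R j
    exact KH_zero o G (R.sh 0) R.aug R.aug_surj R.aug_hom
      (fun z hz k => const_of_min (R.d 0) (R.minimal 0) z (by
        rw [R.exact0]
        exact hz) k) j
  | succ i ih =>
    intro N _ _ G R j
    rw [KH_shift o ho G (R.sh 0) R.aug R.aug_surj R.aug_hom
      (fun z hz k => const_of_min (R.d 0) (R.minimal 0) z (by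
        rw [R.exact0]
        exact hz) k)]
    exact ih _ _ R.tail j

end Pool.Agent.R830.OIM
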